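import Mathlib

/-!
# Transcendence bases of the field of rational functions
-/

open MvPolynomial

universe u

namespace Pool.Agent.GEL

open scoped IntermediateField.algebraAdjoinAdjoin in
theorem indep_of_algebraic {k : Type u} [Field k] {n : ℕ}
    (x : Fin n → FractionRing (MvPolynomial (Fin n) k))
    (h : Algebra.IsAlgebraic ↥(IntermediateField.adjoin k (Set.range x))
      (FractionRing (MvPolynomial (Fin n) k))) : AlgebraicIndependent k x := by
  have h1 : Algebra.IsAlgebraic ↥(Algebra.adjoin k (Set.range x))
      (FractionRing (MvPolynomial (Fin n) k)) :=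
    (IsFractionRing.comap_isAlgebraic_iff (A := ↥(Algebra.adjoin k (Set.range x)))
      (K := ↥(IntermediateField.adjoin k (Set.range x)))
      (C := FractionRing (MvPolynomial (Fin n) k))).2 h
  have h2 : Algebra.trdeg k (FractionRing (MvPolynomial (Fin n) k)) = n := by
    have h3 := trdeg_add_eq k (MvPolynomial (Fin n) k)
      (A := FractionRing (MvPolynomial (Fin n) k))
    have h5 : Algebra.IsAlgebraic (MvPolynomial (Fin n) k)
        (FractionRing (MvPolynomial (Fin n) k)) :=
      IsLocalization.isAlgebraic _ (nonZeroDivisors (MvPolynomial (Fin n) k))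
    have h4 : Algebra.trdeg (MvPolynomial (Fin n) k) (FractionRing (MvPolynomial (Fin n) k)) = 0 :=
      trdeg_eq_zero
    rw [h4, add_zero, MvPolynomial.trdeg_of_isDomain] at h3
    rw [← h3]
    simp
  exact (Algebra.IsAlgebraic.isTranscendenceBasis_of_lift_le_trdeg_of_finite k x
    (by rw [h2]; simp)).1

end Pool.Agent.GEL
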