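import Pool.Agent.GEL.Mai
import Pool.Agent.GEL.AnA

/-!
# The degree of a dominant rational map from affine space

PLAN. `T = FractionRing (MvPolynomial (Fin n) k)`, `x i = φ_i / φ_0`, `y = ψ / φ_0^a`. If `finrank = 0`, then `p ∣ 0`. Otherwise `T` is
finite over `E = adjoin k (insert y (range x))`. `P = (x, y) ∈ X(T)`: `y^p = f(x)` by homogeneity; `x 0 = 1`. `P` is generic:
`E` is algebraic over `k(x_1, …, x_n)` (`y^p` is in it), so `T` is algebraic over it; `indep_of_algebraic`. `P.funField = E`.
Suppose `p ∤ finrank E T`. Choose `c : Fin n → k` with `φ_0(c) ≠ 0` (`k` infinite: `MvPolynomial.funext`). The curve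
`X_i(t) = φ_i(u + t (c - u))`, `Y(t) = ψ(u + t (c - u))` over `T` (`u` the tautological point: `aeval (fun i => C (u i) + X * C (c i - u i))`
into `Polynomial T`), `Y^p = aeval X f`; `X_i(0) = φ_i = φ_0 x_i`, `Y(0) = ψ = φ_0^a y`; `X_i(1) = φ_i(c)`, `Y(1) = ψ(c)` in `k`. So `P` is
joined with the constant point `Q = (φ(c), ψ(c))`, which is not dominant: `n + 1 ≥ 2` and `φ_1(c) X_0 - φ_0(c) X_1` is a
nonzero form over `k` vanishing at `Q`. Contradiction to `dominant_of_requiv`.
-/

open MvPolynomial

universe u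

namespace Pool.Agent.GEL

private theorem anb_aeval_smul {k A : Type*} [Field k] [CommRing A] [Algebra k A] {m N : ℕ}
    (f : MvPolynomial (Fin m) k) (hf : f.IsHomogeneous N) (c : A) (z : Fin m → A) :
    aeval (fun i => c * z i) f = c ^ N * aeval z f := by
  rw [aeval_def, aeval_def, eval₂_eq', eval₂_eq', Finset.mul_sum]
  refine Finset.sum_congr rfl fun d hd => ?_
  have h1 : ∑ i, d i = N := by
    rw [← Finsupp.degree_eq_sum]
    by_contra hne
    exact (mem_support_iff.1 hd) (hf.coeff_eq_zero hne)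
  simp only [mul_pow, Finset.prod_mul_distrib, Finset.prod_pow_eq_pow_sum, h1]
  ring

private theorem anb_aeval_eval {k : Type*} [Field k] {m : ℕ} (c : Fin m → k)
    (g : MvPolynomial (Fin m) k) : aeval c g = eval c g :=
  DFunLike.congr_fun (coe_aeval_eq_eval c) g

private theorem anb_indep {k : Type u} [Field k] {n p : ℕ} (hp : 0 < p) {T : Type u} [Field T]
    [Algebra k T] (H : ∀ x : Fin n → T, Algebra.IsAlgebraic ↥(IntermediateField.adjoin k (Set.range x)) T →
      AlgebraicIndependent k x)
    (x : Fin (n + 1) → T) (y : T) (hx0 : x 0 = 1)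
    {f : MvPolynomial (Fin (n + 1)) k} (hy : y ^ p = aeval x f)
    (hfin : FiniteDimensional ↥(IntermediateField.adjoin k (insert y (Set.range x))) T) :
    AlgebraicIndependent k fun i : Fin n => x i.succ := by
  apply H
  let E₀ : IntermediateField k T := IntermediateField.adjoin k (Set.range fun i : Fin n => x i.succ)
  let E : IntermediateField k T := IntermediateField.adjoin k (insert y (Set.range x))
  let M : IntermediateField E₀ T := algebraicClosure E₀ T
  have hxE : ∀ i, x i ∈ E₀ := by
    intro i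
    refine Fin.cases ?_ (fun j => ?_) i
    · rw [hx0]
      exact E₀.one_mem
    · exact IntermediateField.subset_adjoin k _ ⟨j, rfl⟩
  have hfE : aeval x f ∈ E₀ := by
    have h1 : aeval x f = algebraMap E₀ T (aeval (fun i => (⟨x i, hxE i⟩ : E₀)) f) := by
      rw [← aeval_algebraMap_apply]
      rfl
    rw [h1]
    exact (aeval (fun i => (⟨x i, hxE i⟩ : E₀)) f).2
  have hyM : y ∈ M := by
    have h1 : IsAlgebraic E₀ (y ^ p) := by
      rw [hy]
      exact isAlgebraic_algebraMap (⟨aeval x f, hfE⟩ : E₀)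
    exact mem_algebraicClosure_iff.2 (IsAlgebraic.of_pow hp h1)
  have hEM : ∀ e : T, e ∈ E → e ∈ M := by
    intro e he
    have h1 : E ≤ M.restrictScalars k := by
      show IntermediateField.adjoin k (insert y (Set.range x)) ≤ M.restrictScalars k
      rw [IntermediateField.adjoin_le_iff]
      rintro z (rfl | ⟨i, rfl⟩)
      · exact hyM
      · exact (M.algebraMap_mem (⟨x i, hxE i⟩ : E₀))
    exact h1 he
  let ι : E →+* M :=
    { toFun := fun e => ⟨e, hEM e e.2⟩
      map_one' := rfl
      map_mul' := fun _ _ => rfl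
      map_zero' := rfl
      map_add' := fun _ _ => rfl }
  have hEalg : Algebra.IsAlgebraic E T := by
    have : FiniteDimensional E T := hfin
    infer_instance
  have h2 : Algebra.IsAlgebraic M T := by
    refine ⟨fun t => ?_⟩
    have h3 : IsAlgebraic E t := hEalg.isAlgebraic t
    obtain ⟨g, hg0, hg⟩ := h3
    refine ⟨g.map ι, (Polynomial.map_ne_zero_iff ι.injective).2 hg0, ?_⟩
    rw [Polynomial.aeval_def, Polynomial.eval₂_map]
    exact hg
  have h4 : Algebra.IsAlgebraic E₀ M := algebraicClosure.isAlgebraic E₀ T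
  exact Algebra.IsAlgebraic.trans E₀ M T

private theorem anb_core {k : Type u} [Field k] [IsAlgClosed k] {n p a : ℕ} (hpr : p.Prime)
    (hn : 3 ≤ n) (ha : n + 2 ≤ p * a) (hpn : ¬ p ∣ n + 1) {f : MvPolynomial (Fin (n + 1)) k}
    (hf : f.IsHomogeneous (p * a)) (h : NearKlein p a f) {T : Type u} [Field T] [Algebra k T]
    (H : ∀ x : Fin n → T, Algebra.IsAlgebraic ↥(IntermediateField.adjoin k (Set.range x)) T →
      AlgebraicIndependent k x)
    (q : MvPolynomial (Fin n) k →ₐ[k] T) (hqinj : Function.Injective q)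
    (φ : Fin (n + 1) → MvPolynomial (Fin n) k) (ψ : MvPolynomial (Fin n) k) (hφ : φ 0 ≠ 0)
    (hψ : ψ ^ p = aeval φ f) :
    p ∣ Module.finrank
      ↥(IntermediateField.adjoin k (insert (q ψ / q (φ 0) ^ a)
        (Set.range fun i => q (φ i) / q (φ 0)))) T := by
  by_contra hdvd
  have hq0 : q (φ 0) ≠ 0 := by
    intro h0
    exact hφ (hqinj (h0.trans (map_zero q).symm))
  let x : Fin (n + 1) → T := fun i => q (φ i) / q (φ 0)
  let y : T := q ψ / q (φ 0) ^ a
  have hx0 : x 0 = 1 := div_self hq0
  have hqf : ∀ g : MvPolynomial (Fin (n + 1)) k, q (aeval φ g) = aeval (fun i => q (φ i)) g := by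
    intro g
    exact comp_aeval_apply φ q g
  have hy : y ^ p = aeval x f := by
    have h1 : x = fun i => (q (φ 0))⁻¹ * q (φ i) := by
      funext i
      show q (φ i) / q (φ 0) = _
      rw [div_eq_inv_mul]
    rw [h1, anb_aeval_smul f hf, ← hqf, ← hψ, map_pow]
    show (q ψ / q (φ 0) ^ a) ^ p = _
    rw [div_pow, ← pow_mul, mul_comm a p, inv_pow, div_eq_inv_mul]
  let P : Pt p f T := ⟨x, y, fun h0 => by
    have := congrFun h0 0
    rw [hx0] at this
    exact one_ne_zero this, hy⟩
  have hfin : FiniteDimensional ↥(IntermediateField.adjoin k (insert y (Set.range x))) T := by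
    refine Module.finite_of_finrank_pos ?_
    refine Nat.pos_of_ne_zero fun h0 => hdvd ?_
    have h1 : Module.finrank ↥(IntermediateField.adjoin k (insert (q ψ / q (φ 0) ^ a)
        (Set.range fun i => q (φ i) / q (φ 0)))) T = 0 := h0
    rw [h1]
    exact dvd_zero p
  have hP : P.IsGeneric := ⟨hx0, anb_indep hpr.pos H x y hx0 hy hfin⟩
  obtain ⟨c, hc⟩ : ∃ c : Fin n → k, eval c (φ 0) ≠ 0 := by
    by_contra hall
    push Not at hall
    exact hφ (MvPolynomial.funext fun c => by rw [hall c, map_zero])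
  let θ : MvPolynomial (Fin n) k →ₐ[k] Polynomial T := aeval fun i =>
    Polynomial.C (q (X i)) + Polynomial.X * Polynomial.C (algebraMap k T (c i) - q (X i))
  have hθ0 : ∀ g : MvPolynomial (Fin n) k, (θ g).eval 0 = q g := by
    intro g
    have h1 : ((Polynomial.aeval (0 : T)).restrictScalars k).comp θ = q := by
      refine MvPolynomial.algHom_ext fun i => ?_
      simp [θ]
    have h2 := DFunLike.congr_fun h1 g
    simpa [Polynomial.aeval_def] using h2
  have hθ1 : ∀ g : MvPolynomial (Fin n) k, (θ g).eval 1 = algebraMap k T (eval c g) := by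
    intro g
    have h1 : ((Polynomial.aeval (1 : T)).restrictScalars k).comp θ =
        (Algebra.ofId k T).comp (aeval c) := by
      refine MvPolynomial.algHom_ext fun i => ?_
      simp [θ, Algebra.ofId_apply]
    have h2 := DFunLike.congr_fun h1 g
    have h3 : (aeval c) g = eval c g := anb_aeval_eval c g
    have h4 : ((Algebra.ofId k T).comp (aeval c)) g = algebraMap k T (eval c g) := by
      show algebraMap k T (aeval c g) = _
      rw [h3]
    rw [h4] at h2
    rw [← h2]
    simp [Polynomial.aeval_def]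
  have hθf : θ ψ ^ p = aeval (fun i => θ (φ i)) f := by
    rw [← map_pow, hψ]
    exact comp_aeval_apply φ θ f
  have hQ : (algebraMap k T (eval c ψ)) ^ p = aeval (fun i => algebraMap k T (eval c (φ i))) f := by
    have h1 : eval c ψ ^ p = aeval (fun i => eval c (φ i)) f := by
      rw [← map_pow, hψ]
      have h2 := comp_aeval_apply φ (aeval c : MvPolynomial (Fin n) k →ₐ[k] k) f
      simpa only [anb_aeval_eval] using h2
    rw [← map_pow, h1]
    exact (aeval_algebraMap_apply T (fun i => eval c (φ i)) f).symm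
  let Q : Pt p f T := ⟨fun i => algebraMap k T (eval c (φ i)), algebraMap k T (eval c ψ),
    fun h0 => hc (by
      have := congrFun h0 0
      exact (algebraMap k T).injective (this.trans (map_zero _).symm)), hQ⟩
  have hJ : Joined a P Q := by
    refine ⟨fun i => θ (φ i), θ ψ, hθf, ⟨q (φ 0), hq0, fun i => ?_, ?_⟩, ⟨1, one_ne_zero,
      fun i => ?_, ?_⟩⟩
    · show (θ (φ i)).eval 0 = q (φ 0) * (q (φ i) / q (φ 0))
      rw [hθ0, mul_div_cancel₀ _ hq0]
    · show (θ ψ).eval 0 = q (φ 0) ^ a * (q ψ / q (φ 0) ^ a)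
      rw [hθ0, mul_div_cancel₀ _ (pow_ne_zero a hq0)]
    · show (θ (φ i)).eval 1 = 1 * algebraMap k T (eval c (φ i))
      rw [hθ1, one_mul]
    · show (θ ψ).eval 1 = 1 ^ a * algebraMap k T (eval c ψ)
      rw [hθ1, one_pow, one_mul]
  have hdom := dominant_of_requiv hpr hn ha hpn hf h P hP hdvd Q (Relation.EqvGen.rel _ _ hJ)
  let g : MvPolynomial (Fin (n + 1)) k := C (eval c (φ 1)) * X 0 - C (eval c (φ 0)) * X 1
  refine hdom 1 g ?_ ?_ ?_
  · refine IsHomogeneous.sub ?_ ?_
    · simpa using (isHomogeneous_C (Fin (n + 1)) (eval c (φ 1))).mul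
        (isHomogeneous_X k (0 : Fin (n + 1)))
    · simpa using (isHomogeneous_C (Fin (n + 1)) (eval c (φ 0))).mul
        (isHomogeneous_X k (1 : Fin (n + 1)))
  · intro h0
    have h01 : (1 : Fin (n + 1)) ≠ 0 := by
      have : NeZero n := ⟨by omega⟩
      have : Nontrivial (Fin (n + 1)) := Fin.nontrivial_iff_two_le.2 (by omega)
      exact one_ne_zero
    have h1 := congrArg (eval (Pi.single (1 : Fin (n + 1)) (1 : k))) h0
    simp only [g, map_sub, map_mul, eval_C, eval_X, map_zero, Pi.single_eq_same,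
      Pi.single_eq_of_ne h01.symm, mul_zero, mul_one, zero_sub, neg_eq_zero] at h1
    exact hc h1
  · show aeval (fun i => algebraMap k T (eval c (φ i))) g = 0
    simp only [g, map_sub, map_mul, aeval_C, aeval_X]
    ring

theorem affine_degree {k : Type u} [Field k] [IsAlgClosed k] {n p a : ℕ} (hpr : p.Prime)
    (hn : 3 ≤ n) (ha : n + 2 ≤ p * a) (hpn : ¬ p ∣ n + 1) {f : MvPolynomial (Fin (n + 1)) k}
    (hf : f.IsHomogeneous (p * a)) (h : NearKlein p a f)
    (φ : Fin (n + 1) → MvPolynomial (Fin n) k) (ψ : MvPolynomial (Fin n) k) (hφ : φ 0 ≠ 0)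
    (hψ : ψ ^ p = aeval φ f) :
    p ∣ Module.finrank
      ↥(IntermediateField.adjoin k
        (insert (algebraMap (MvPolynomial (Fin n) k) (FractionRing (MvPolynomial (Fin n) k)) ψ /
            algebraMap (MvPolynomial (Fin n) k) (FractionRing (MvPolynomial (Fin n) k)) (φ 0) ^ a)
          (Set.range fun i =>
            algebraMap (MvPolynomial (Fin n) k) (FractionRing (MvPolynomial (Fin n) k)) (φ i) /
            algebraMap (MvPolynomial (Fin n) k) (FractionRing (MvPolynomial (Fin n) k)) (φ 0))))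
      (FractionRing (MvPolynomial (Fin n) k)) :=
  anb_core hpr hn ha hpn hf h (fun x hx => indep_of_algebraic x hx)
    (IsScalarTower.toAlgHom k (MvPolynomial (Fin n) k) (FractionRing (MvPolynomial (Fin n) k)))
    (IsFractionRing.injective (MvPolynomial (Fin n) k) (FractionRing (MvPolynomial (Fin n) k)))
    φ ψ hφ hψ

end Pool.Agent.GEL
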