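import Pool.Agent.GEL.Mai

/-!
# The degree of a rational curve over the function field through the generic point

If `p` does not divide the degree, the curve passes through a point with first coordinate `0` which is defined
over an extension of degree prime to `p`; such a point is not dominant.
-/

open MvPolynomial

universe u

namespace Pool.Agent.GEL

private theorem cdg_fac {F : Type*} [Field F] (p : ℕ) (q : Polynomial F) : q ≠ 0 →
    (∀ r : Polynomial F, Irreducible r → r ∣ q → p ∣ r.natDegree) → p ∣ q.natDegree := by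
  induction q using WfDvdMonoid.induction_on_irreducible with
  | zero => exact fun h => absurd rfl h
  | unit u hu =>
    intro _ _
    rw [Polynomial.natDegree_eq_zero_of_isUnit hu]
    exact dvd_zero p
  | mul a i ha hi ih =>
    intro _ h
    rw [Polynomial.natDegree_mul hi.ne_zero ha]
    exact dvd_add (h i hi (dvd_mul_right i a)) (ih ha fun r hr hra => h r hr (hra.mul_left i))

private theorem cdg_mem {k L : Type*} [Field k] [IsAlgClosed k] [Field L] [Algebra k L] {p : ℕ}
    (hp : 0 < p) (S : IntermediateField k L) {y z : L} (hy : y ∈ S) (h : z ^ p = y ^ p) : z ∈ S := by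
  by_cases hy0 : y = 0
  · rw [hy0, zero_pow hp.ne'] at h
    rw [eq_zero_of_pow_eq_zero h]
    exact S.zero_mem
  · have h1 : (z / y) ^ p = 1 := by
      rw [div_pow, h, div_self (pow_ne_zero _ hy0)]
    have hint : IsIntegral k (z / y) :=
      IsIntegral.of_pow hp (by rw [h1]; exact isIntegral_one)
    have h2 := IsAlgClosed.degree_eq_one_of_irreducible k (minpoly.irreducible hint)
    obtain ⟨w, hw⟩ := minpoly.mem_range_of_degree_eq_one k _ h2
    have h3 : z = algebraMap k L w * y := by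
      rw [hw, div_mul_cancel₀ _ hy0]
    rw [h3]
    exact S.mul_mem (S.algebraMap_mem w) hy

private theorem cdg_not_dom {k : Type u} [Field k] {n p : ℕ} {f : MvPolynomial (Fin (n + 1)) k}
    {L : Type u} [Field L] [Algebra k L] (Q : Pt p f L) (h : Q.x 0 = 0) : ¬ Q.Dominant := by
  intro hQ
  refine hQ 1 (X 0) (isHomogeneous_X k 0) (X_ne_zero 0) ?_
  rw [aeval_X, h]

private theorem cdg_fin {k L L' : Type u} [Field k] [Field L] [Field L'] [Algebra k L]
    [Algebra k L'] [Algebra L L'] [IsScalarTower k L L'] (s : Set L)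
    (hs : IntermediateField.adjoin k s = ⊤) :
    Module.finrank ↥(IntermediateField.adjoin k (algebraMap L L' '' s)) L' =
      Module.finrank L L' := by
  have h1 : IntermediateField.adjoin k (algebraMap L L' '' s) =
      (IsScalarTower.toAlgHom k L L').fieldRange := by
    have h2 := IntermediateField.adjoin_map (F := k) (S := s) (IsScalarTower.toAlgHom k L L')
    rw [hs, ← AlgHom.fieldRange_eq_map] at h2
    exact h2.symm
  rw [h1]
  symm
  refine Algebra.finrank_eq_of_equiv_equiv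
    (AlgEquiv.ofInjectiveField (IsScalarTower.toAlgHom k L L')).toRingEquiv (RingEquiv.refl L') ?_
  ext t
  rfl

private theorem cdg_smul {k L : Type*} [Field k] [Field L] [Algebra k L] {n N : ℕ}
    {f : MvPolynomial (Fin (n + 1)) k} (hf : f.IsHomogeneous N) (c : L) (x : Fin (n + 1) → L) :
    aeval (fun i => c * x i) f = c ^ N * aeval x f := by
  rw [aeval_def, aeval_def, eval₂_eq', eval₂_eq', Finset.mul_sum]
  refine Finset.sum_congr rfl fun m hm => ?_
  have h1 : ∑ i, m i = N := by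
    have h2 := hf (mem_support_iff.1 hm)
    rw [← h2, Finsupp.weight_apply, Finsupp.sum_fintype]
    · simp
    · simp
  have h3 : ∏ i, (c * x i) ^ m i = c ^ N * ∏ i, x i ^ m i := by
    rw [← h1, ← Finset.prod_pow_eq_pow_sum, ← Finset.prod_mul_distrib]
    exact Finset.prod_congr rfl fun i _ => mul_pow _ _ _
  rw [h3]
  ring

/-- the curve joins `P` to a point over an extension -/
private theorem cdg_ext {k : Type u} [Field k] [IsAlgClosed k] {n p a : ℕ} (hpr : p.Prime)
    (hn : 3 ≤ n) (ha : n + 2 ≤ p * a) (hpn : ¬ p ∣ n + 1) {f : MvPolynomial (Fin (n + 1)) k}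
    (hf : f.IsHomogeneous (p * a)) (h : NearKlein p a f) {L : Type u} [Field L] [Algebra k L]
    (P : Pt p f L) (hP : P.IsGeneric) (hK : P.funField = ⊤) (X : Fin (n + 1) → Polynomial L)
    (Y : Polynomial L) (hY : Y ^ p = aeval X f) (hcop : ∀ q, (∀ i, q ∣ X i) → IsUnit q)
    (c : L) (hc : c ≠ 0) (h0 : ∀ i, (X i).eval 0 = c * P.x i) (h0' : Y.eval 0 = c ^ a * P.y)
    (q : Polynomial L) (hq : Irreducible q) (hq0 : q ∣ X 0) : p ∣ q.natDegree := by
  by_contra hcon
  have : Fact (Irreducible q) := ⟨hq⟩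
  obtain ⟨Φ, hΦ⟩ : ∃ Φ : Polynomial L →ₐ[L] Polynomial (AdjoinRoot q), Φ =
      Polynomial.aeval (Polynomial.C (AdjoinRoot.root q) * Polynomial.X) := ⟨_, rfl⟩
  have hev : ∀ (s : AdjoinRoot q) (R : Polynomial L), (Φ R).eval s =
      Polynomial.aeval (AdjoinRoot.root q * s) R := by
    intro s R
    have h1 : ((Polynomial.aeval s : Polynomial (AdjoinRoot q) →ₐ[AdjoinRoot q]
        AdjoinRoot q).restrictScalars L).comp Φ =
        Polynomial.aeval (AdjoinRoot.root q * s) := by
      refine Polynomial.algHom_ext ?_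
      rw [hΦ]
      simp
    have h2 := congrArg (fun ψ => ψ R) h1
    simpa using h2
  have hev0 : ∀ R : Polynomial L, (Φ R).eval 0 = algebraMap L (AdjoinRoot q) (R.eval 0) := by
    intro R
    rw [hev, mul_zero, ← Polynomial.coeff_zero_eq_eval_zero, Polynomial.coeff_zero_eq_aeval_zero']
  have hev1 : ∀ R : Polynomial L, (Φ R).eval 1 = AdjoinRoot.mk q R := by
    intro R
    rw [hev, mul_one, AdjoinRoot.aeval_eq]
  have hY' : (Φ Y) ^ p = aeval (fun i => Φ (X i)) f := by
    rw [← map_pow, hY]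
    exact comp_aeval_apply X (Φ.restrictScalars k) f
  have hmap : ∀ z : Fin (n + 1) → L, aeval (fun i => algebraMap L (AdjoinRoot q) (z i)) f =
      algebraMap L (AdjoinRoot q) (aeval z f) := fun z =>
    (comp_aeval_apply z (IsScalarTower.toAlgHom k L (AdjoinRoot q)) f).symm
  have hinj : Function.Injective (algebraMap L (AdjoinRoot q)) :=
    (algebraMap L (AdjoinRoot q)).injective
  obtain ⟨P', hP'x, hP'y⟩ : ∃ P' : Pt p f (AdjoinRoot q),
      (∀ i, P'.x i = algebraMap L (AdjoinRoot q) (P.x i)) ∧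
        P'.y = algebraMap L (AdjoinRoot q) P.y :=
    ⟨⟨fun i => algebraMap L (AdjoinRoot q) (P.x i), algebraMap L (AdjoinRoot q) P.y, fun h1 => P.ne
      (funext fun i => hinj (by rw [Pi.zero_apply, map_zero]; exact congrFun h1 i)),
      by rw [hmap, ← P.eq, map_pow]⟩, fun i => rfl, rfl⟩
  have hgen : P'.IsGeneric := by
    refine ⟨by rw [hP'x, hP.one, map_one], ?_⟩
    have h1 := hP.indep.map' (f := IsScalarTower.toAlgHom k L (AdjoinRoot q)) hinj
    have h2 : (fun i : Fin n => P'.x i.succ) =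
        (IsScalarTower.toAlgHom k L (AdjoinRoot q)) ∘ fun i : Fin n => P.x i.succ :=
      funext fun i => hP'x _
    rw [h2]
    exact h1
  have hfin : Module.finrank ↥P'.funField (AdjoinRoot q) = q.natDegree := by
    have h1 := cdg_fin (k := k) (L := L) (L' := AdjoinRoot q) (insert P.y (Set.range P.x)) hK
    have h2 : algebraMap L (AdjoinRoot q) '' (insert P.y (Set.range P.x)) =
        insert P'.y (Set.range P'.x) := by
      rw [Set.image_insert_eq, ← Set.range_comp, hP'y]
      congr 2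
      funext i
      exact (hP'x i).symm
    rw [h2] at h1
    have h3 : P'.funField = IntermediateField.adjoin k (insert P'.y (Set.range P'.x)) := rfl
    rw [h3, h1, (AdjoinRoot.powerBasis hq.ne_zero).finrank, AdjoinRoot.powerBasis_dim]
  obtain ⟨i₁, hi₁⟩ : ∃ i, ¬ q ∣ X i := by
    by_contra hall
    push Not at hall
    exact hq.not_isUnit (hcop q hall)
  obtain ⟨Q, hQx, hQy⟩ : ∃ Q : Pt p f (AdjoinRoot q),
      (∀ i, Q.x i = (Φ (X i)).eval 1) ∧ Q.y = (Φ Y).eval 1 := by
    refine ⟨⟨fun i => (Φ (X i)).eval 1, (Φ Y).eval 1, fun h1 => hi₁ ?_, ?_⟩, fun i => rfl, rfl⟩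
    · have h2 : (Φ (X i₁)).eval 1 = 0 := congrFun h1 i₁
      rw [hev1, AdjoinRoot.mk_eq_zero] at h2
      exact h2
    · have h2 := congrArg (Polynomial.eval (1 : AdjoinRoot q)) hY'
      rw [Polynomial.eval_pow] at h2
      rw [h2]
      exact comp_aeval_apply (fun i => Φ (X i)) ((Polynomial.aeval (1 : AdjoinRoot q) :
        Polynomial (AdjoinRoot q) →ₐ[AdjoinRoot q] AdjoinRoot q).restrictScalars k) f
  have hjoin : Joined a P' Q := by
    refine ⟨fun i => Φ (X i), Φ Y, hY', ⟨algebraMap L (AdjoinRoot q) c,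
      fun h1 => hc (hinj (by rw [h1, map_zero])), fun i => ?_, ?_⟩, ⟨1, one_ne_zero, fun i => ?_, ?_⟩⟩
    · show (Φ (X i)).eval 0 = _
      rw [hev0, h0, map_mul, hP'x]
    · rw [hev0, h0', map_mul, map_pow, hP'y]
    · show (Φ (X i)).eval 1 = _
      rw [hQx, one_mul]
    · rw [hQy, one_pow, one_mul]
  refine cdg_not_dom Q ?_ (dominant_of_requiv hpr hn ha hpn hf h P' hgen (by rw [hfin]; exact hcon)
    Q (Relation.EqvGen.rel _ _ hjoin))
  rw [hQx, hev1, AdjoinRoot.mk_eq_zero]
  exact hq0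

theorem curve_degree {k : Type u} [Field k] [IsAlgClosed k] {n p a : ℕ} (hpr : p.Prime)
    (hn : 3 ≤ n) (ha : n + 2 ≤ p * a) (hpn : ¬ p ∣ n + 1) {f : MvPolynomial (Fin (n + 1)) k}
    (hf : f.IsHomogeneous (p * a)) (h : NearKlein p a f) {L : Type u} [Field L] [Algebra k L]
    (P : Pt p f L) (hP : P.IsGeneric) (hK : P.funField = ⊤) (X : Fin (n + 1) → Polynomial L)
    (Y : Polynomial L) (hY : Y ^ p = aeval X f) (hcop : ∀ q, (∀ i, q ∣ X i) → IsUnit q)
    (h0 : ∃ c : L, ∀ i, (X i).eval 0 = c * P.x i) :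
    p ∣ Finset.univ.sup fun i => (X i).natDegree := by
  have hinf : Infinite L := by
    have : Infinite k := inferInstance
    exact Infinite.of_injective _ (algebraMap k L).injective
  obtain ⟨c, h0⟩ := h0
  by_contra hcon
  have he : ∀ i, (X i).natDegree ≤ Finset.univ.sup fun i => (X i).natDegree := fun i =>
    Finset.le_sup (f := fun i => (X i).natDegree) (Finset.mem_univ i)
  obtain ⟨i₀, -, hi₀⟩ := Finset.exists_mem_eq_sup Finset.univ Finset.univ_nonempty
    fun i => (X i).natDegree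
  obtain ⟨e, hee⟩ : ∃ e, e = Finset.univ.sup fun i => (X i).natDegree := ⟨_, rfl⟩
  rw [← hee] at hcon he hi₀
  have he0 : e ≠ 0 := fun h1 => hcon (by rw [h1]; exact dvd_zero p)
  have hc : c ≠ 0 := by
    intro h1
    refine Polynomial.not_isUnit_X (hcop Polynomial.X fun i => ?_)
    rw [Polynomial.X_dvd_iff, Polynomial.coeff_zero_eq_eval_zero, h0, h1, zero_mul]
  have hevm : ∀ (r : L) (Z : Fin (n + 1) → Polynomial L), (aeval Z f).eval r =
      aeval (fun i => (Z i).eval r) f := fun r Z =>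
    comp_aeval_apply Z ((Polynomial.aeval r : Polynomial L →ₐ[L] L).restrictScalars k) f
  -- the point `P₁`
  have hY0 : (Y.eval 0) ^ p = (c ^ a * P.y) ^ p := by
    have h1 := congrArg (Polynomial.eval (0 : L)) hY
    rw [Polynomial.eval_pow, hevm] at h1
    have h2 : (fun i => (X i).eval 0) = fun i => c * P.x i := funext h0
    rw [h1, h2, mul_pow, ← pow_mul, P.eq, mul_comm a p]
    exact cdg_smul hf c P.x
  obtain ⟨P₁, hP₁x, hP₁y⟩ : ∃ P₁ : Pt p f L, P₁.x = P.x ∧ Y.eval 0 = c ^ a * P₁.y := by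
    refine ⟨⟨P.x, Y.eval 0 / c ^ a, P.ne, ?_⟩, rfl, ?_⟩
    · rw [div_pow, hY0, mul_pow, mul_div_cancel_left₀ _ (pow_ne_zero _ (pow_ne_zero _ hc)), P.eq]
    · show Y.eval 0 = c ^ a * (Y.eval 0 / c ^ a)
      rw [mul_div_cancel₀ _ (pow_ne_zero _ hc)]
  have hP₁ : P₁.IsGeneric := ⟨by rw [hP₁x, hP.one], by rw [hP₁x]; exact hP.indep⟩
  have hK₁ : P₁.funField = ⊤ := by
    rw [eq_top_iff, ← hK]
    refine IntermediateField.adjoin_le_iff.2 ?_
    rintro z (rfl | ⟨i, rfl⟩)
    · have h1 : P₁.y ∈ P₁.funField := IntermediateField.subset_adjoin _ _ (Set.mem_insert _ _)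
      refine cdg_mem hpr.pos P₁.funField h1 ?_
      rw [P.eq, P₁.eq, hP₁x]
    · refine IntermediateField.subset_adjoin _ _ (Set.mem_insert_of_mem _ ?_)
      rw [hP₁x]
      exact ⟨i, rfl⟩
  have h0₁ : ∀ i, (X i).eval 0 = c * P₁.x i := fun i => by rw [hP₁x, h0]
  by_cases hXe : (X 0).coeff e = 0
  · -- the point at infinity
    obtain ⟨Q, hQx, hQy⟩ : ∃ Q : Pt p f L,
        (∀ i, Q.x i = (moeb (-1) e (X i)).eval 1) ∧ Q.y = (moeb (-1) (a * e) Y).eval 1 := by
      refine ⟨⟨fun i => (moeb (-1) e (X i)).eval 1, (moeb (-1) (a * e) Y).eval 1, fun h1 => ?_,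
        ?_⟩, fun i => rfl, rfl⟩
      · have h2 : (moeb (-1) e (X i₀)).eval 1 = 0 := congrFun h1 i₀
        rw [moeb_eval_one, hi₀, ← Polynomial.leadingCoeff, Polynomial.leadingCoeff_eq_zero] at h2
        rw [h2, Polynomial.natDegree_zero] at hi₀
        exact he0 hi₀
      · rw [← hevm, ← (moeb_curve hpr.pos f hf X Y hY e he (-1)).2, Polynomial.eval_pow]
    have hjoin : Joined a P₁ Q := by
      refine ⟨fun i => moeb (-1) e (X i), moeb (-1) (a * e) Y,
        (moeb_curve hpr.pos f hf X Y hY e he (-1)).2, ⟨c, hc, fun i => ?_, ?_⟩,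
        ⟨1, one_ne_zero, fun i => ?_, ?_⟩⟩
      · show (moeb (-1) e (X i)).eval 0 = _
        rw [moeb_eval_zero, h0₁]
      · rw [moeb_eval_zero, hP₁y]
      · show (moeb (-1) e (X i)).eval 1 = _
        rw [hQx, one_mul]
      · rw [hQy, one_pow, one_mul]
    refine cdg_not_dom Q ?_ (dominant_of_requiv hpr hn ha hpn hf h P₁ hP₁ ?_
      Q (Relation.EqvGen.rel _ _ hjoin))
    · rw [hQx, moeb_eval_one, hXe]
    · rw [hK₁, IntermediateField.finrank_top]
      exact hpr.one_lt.ne' ∘ Nat.dvd_one.1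
  · have hX0 : (X 0).natDegree = e := le_antisymm (he 0) (Polynomial.le_natDegree_of_ne_zero hXe)
    refine hcon ?_
    rw [← hX0]
    refine cdg_fac p (X 0) (fun h1 => hXe (by rw [h1, Polynomial.coeff_zero])) fun q hq hq0 => ?_
    exact cdg_ext hpr hn ha hpn hf h P₁ hP₁ hK₁ X Y hY hcop c hc h0₁ hP₁y q hq hq0

end Pool.Agent.GEL
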