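import Pool.Agent.GEL.Tools

/-!
# The Klein form: evaluation, Euler's identity, derivations

Computations with finite sums over `Fin (n + 1)` with its cyclic addition.
-/

open MvPolynomial

namespace Pool.Agent.GEL

private theorem kla_shift {M : Type*} [AddCommMonoid M] {n : ℕ} (F : Fin (n + 1) → Fin (n + 1) → M) :
    ∑ j, F (j - 1) j = ∑ j, F j (j + 1) := by
  rw [← Equiv.sum_comp (Equiv.addRight (1 : Fin (n + 1))) fun j => F (j - 1) j]
  refine Finset.sum_congr rfl fun j _ => ?_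
  show F (j + 1 - 1) (j + 1) = F j (j + 1)
  rw [add_sub_cancel_right]

theorem aeval_klein {R A : Type*} [CommRing R] [CommRing A] [Algebra R A] {n : ℕ} (d : ℕ)
    (ξ : Fin (n + 1) → A) : aeval ξ (klein R n d) = kl d ξ := by
  unfold klein kl
  rw [map_sum]
  refine Finset.sum_congr rfl fun j _ => ?_
  rw [map_mul, map_pow, aeval_X, aeval_X]

theorem klein_isHomogeneous {R : Type*} [CommRing R] (n : ℕ) {d : ℕ} (hd : 1 ≤ d) :
    (klein R n d).IsHomogeneous d := by
  unfold klein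
  refine IsHomogeneous.sum _ _ _ fun j _ => ?_
  have h := ((isHomogeneous_X R j).pow (d - 1)).mul (isHomogeneous_X R (j + 1))
  have e : 1 * (d - 1) + 1 = d := by omega
  rwa [e] at h

theorem sum_mul_grad {A : Type*} [CommRing A] {n d : ℕ} (hd : 2 ≤ d) (ξ : Fin (n + 1) → A) :
    ∑ j, ξ j * grad d ξ j = 0 := by
  have h1 : ∀ j, ξ j * grad d ξ j = ξ (j - 1) ^ (d - 1) * ξ j - ξ j ^ (d - 1) * ξ (j + 1) := by
    intro j
    unfold grad
    rw [show d - 1 = d - 2 + 1 by omega, pow_succ (ξ j)]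
    ring
  rw [Finset.sum_congr rfl fun j _ => h1 j, Finset.sum_sub_distrib,
    kla_shift fun i j => ξ i ^ (d - 1) * ξ j, sub_self]

theorem derivation_kl {R A M : Type*} [CommRing R] [CommRing A] [Algebra R A] [AddCommGroup M]
    [Module A M] [Module R M] (D : Derivation R A M) {n d : ℕ} (hd : 2 ≤ d) (h0 : (d : A) = 0)
    (ξ : Fin (n + 1) → A) : D (kl d ξ) = ∑ j, grad d ξ j • D (ξ j) := by
  have hd1 : ((d - 1 : ℕ) : A) = -1 := by
    rw [Nat.cast_sub (by omega), h0, Nat.cast_one, zero_sub]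
  have h1 : ∀ j, D (ξ j ^ (d - 1) * ξ (j + 1)) =
      ξ j ^ (d - 1) • D (ξ (j + 1)) - (ξ j ^ (d - 2) * ξ (j + 1)) • D (ξ j) := by
    intro j
    rw [Derivation.leibniz, Derivation.leibniz_pow, show d - 1 - 1 = d - 2 by omega,
      ← Nat.cast_smul_eq_nsmul A, hd1, smul_smul, smul_smul, sub_eq_add_neg, ← neg_smul]
    congr 2
    ring
  have h2 : ∀ j, grad d ξ j • D (ξ j) =
      ξ (j - 1) ^ (d - 1) • D (ξ j) - (ξ j ^ (d - 2) * ξ (j + 1)) • D (ξ j) := by
    intro j
    unfold grad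
    rw [sub_smul]
  unfold kl
  rw [map_sum, Finset.sum_congr rfl fun j _ => h1 j, Finset.sum_congr rfl fun j _ => h2 j,
    Finset.sum_sub_distrib, Finset.sum_sub_distrib, kla_shift fun i j => ξ i ^ (d - 1) • D (ξ j)]

theorem map_kl {A B : Type*} [CommRing A] [CommRing B] (φ : A →+* B) {n : ℕ} (d : ℕ)
    (ξ : Fin (n + 1) → A) : φ (kl d ξ) = kl d fun j => φ (ξ j) := by
  unfold kl
  rw [map_sum]
  refine Finset.sum_congr rfl fun j _ => ?_
  rw [map_mul, map_pow]

theorem map_grad {A B : Type*} [CommRing A] [CommRing B] (φ : A →+* B) {n : ℕ} (d : ℕ)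
    (ξ : Fin (n + 1) → A) (j : Fin (n + 1)) : φ (grad d ξ j) = grad d (fun j => φ (ξ j)) j := by
  unfold grad
  rw [map_sub, map_mul, map_pow, map_pow]

theorem map_hess {A B : Type*} [CommRing A] [CommRing B] (φ : A →+* B) {n : ℕ} (d : ℕ)
    (ζ w : Fin (n + 1) → A) (j : Fin (n + 1)) :
    φ (hess d ζ w j) = hess d (fun j => φ (ζ j)) (fun j => φ (w j)) j := by
  unfold hess
  simp only [map_sub, map_add, map_neg, map_mul, map_pow, map_ofNat]

theorem kl_smul {A : Type*} [CommRing A] {n d : ℕ} (hd : 1 ≤ d) (c : A) (ξ : Fin (n + 1) → A) :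
    kl d (fun j => c * ξ j) = c ^ d * kl d ξ := by
  unfold kl
  rw [Finset.mul_sum]
  refine Finset.sum_congr rfl fun j _ => ?_
  have e : c ^ d = c ^ (d - 1) * c := by
    rw [← pow_succ, Nat.sub_add_cancel hd]
  rw [e, mul_pow]
  ring

theorem grad_smul {A : Type*} [CommRing A] {n d : ℕ} (hd : 2 ≤ d) (c : A) (ξ : Fin (n + 1) → A)
    (j : Fin (n + 1)) : grad d (fun j => c * ξ j) j = c ^ (d - 1) * grad d ξ j := by
  unfold grad
  have e : c ^ (d - 1) = c ^ (d - 2) * c := by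
    rw [← pow_succ]
    congr 1
    omega
  rw [mul_pow, mul_pow, mul_sub, e]
  ring

end Pool.Agent.GEL
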