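import Pool.Agent.GEL.MinA
import Pool.Agent.GEL.KlA

/-!
# Comparison of degrees

PLAN. `ψ ≠ 0`, since some `mnr rows i ≠ 0`. Choose `j` with `grad d (leading coefficients) j ≠ 0`. The coefficient of
`grad d ξ j` at `(d - 1) e` is `grad d (fun i => (ξ i).coeff e) j` (`Polynomial.coeff_mul_of_natDegree_le`,
`Polynomial.coeff_pow_of_natDegree_le`; `(d - 1) e = (d - 2) e + e`), so `natDegree (grad d ξ j) ≥ (d - 1) e` and it is nonzero.
So `natDegree (mnr rows j) = natDegree ψ + natDegree (grad d ξ j) ≥ (d - 1) e > N e`, contradicting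
`mnr_natDegree_le`.
-/

open Polynomial

namespace Pool.Agent.GEL

theorem degree_false {κ : Type*} [Field κ] {N d e : ℕ} (hd : N + 1 < d) (hd2 : 2 ≤ d) (he : 1 ≤ e)
    (ξ : Fin (N + 1) → κ[X]) (hξ : ∀ i, (ξ i).natDegree ≤ e)
    (rows : Fin N → Fin (N + 1) → κ[X]) (hr : ∀ l j, (rows l j).natDegree ≤ e) (ψ : κ[X])
    (hψ : ∀ i, mnr rows i = ψ * grad d ξ i) (hm : ∃ i, mnr rows i ≠ 0)
    (hg : ∃ j, grad d (fun i => (ξ i).coeff e) j ≠ 0) : False := by
  obtain ⟨j, hj⟩ := hg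
  obtain ⟨i, hi⟩ := hm
  have hψ0 : ψ ≠ 0 := by
    rintro rfl
    rw [hψ i, zero_mul] at hi
    exact hi rfl
  obtain ⟨D, rfl⟩ : ∃ D, d = D + 2 := ⟨d - 2, by omega⟩
  have hc : (grad (D + 2) ξ j).coeff ((D + 1) * e) = grad (D + 2) (fun i => (ξ i).coeff e) j := by
    unfold grad
    have e1 : D + 2 - 1 = D + 1 := rfl
    have e2 : D + 2 - 2 = D := rfl
    rw [e1, e2, coeff_sub, coeff_pow_of_natDegree_le (hξ _)]
    congr 1
    have e3 : (D + 1) * e = D * e + e := by ring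
    have h2 : ((ξ j) ^ D).natDegree ≤ D * e :=
      natDegree_pow_le.trans (Nat.mul_le_mul_left D (hξ j))
    rw [e3, coeff_mul_add_eq_of_natDegree_le h2 (hξ _), coeff_pow_of_natDegree_le (hξ _)]
  have h3 : (D + 1) * e ≤ (grad (D + 2) ξ j).natDegree := by
    refine le_natDegree_of_ne_zero ?_
    rw [hc]
    exact hj
  have h4 : grad (D + 2) ξ j ≠ 0 := by
    intro h0
    rw [h0, coeff_zero] at hc
    exact hj hc.symm
  have h5 := mnr_natDegree_le rows e hr j
  rw [hψ j, natDegree_mul hψ0 h4] at h5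
  have h6 : N * e < (D + 1) * e := Nat.mul_lt_mul_of_pos_right (by omega) he
  omega

end Pool.Agent.GEL
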