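import Mathlib

/-!
# Extension of derivations to a purely inseparable extension of degree `p`

PLAN. Let `E₁ = E(y)`. If `y ∈ E`, then `E₁ = E` and there is nothing to do. Otherwise `T^p - b` is irreducible over
`E` (`X_pow_sub_C_irreducible_of_prime`: `b` is not a `p`-th power in `E`, since `c^p = b = y^p` gives `c = y`,
`(c - y)^p = 0` in characteristic `p`, `sub_pow_char`), so it is the minimal polynomial of `y` over `E`
(`minpoly.eq_of_irreducible_of_monic`). Let `κ[ε]` be the dual numbers (`TrivSqZeroExt κ κ`, or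
`DualNumber κ`); `φ₀ : E →+* κ[ε]`, `e ↦ e + δ(e) ε` is a ring homomorphism; `y^p = b = b + δ(b) ε` in `κ[ε]`, so `φ₀`
extends to `φ : E(y) = E[T]/(T^p - b) → κ[ε]`, `y ↦ y` (`IntermediateField.adjoin.powerBasis.lift`, or
`AdjoinRoot.lift`, or `IntermediateField.adjoinRootEquivAdjoin`), and the ε-component of `φ` is a derivation
`δ₁ : E(y) → κ` (the first component of `φ` is the inclusion, because it is so on `E` and at `y`).
Alternatively: each `u ∈ E(y)` is uniquely `∑_{i<p} e_i y^i` with `e_i ∈ E` and `δ₁ (u) = ∑ δ(e_i) y^i`.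
`E ⊔ adjoin k₀ {y}` is the same set as `(IntermediateField.adjoin E {y})` (restrict scalars).
-/

namespace Pool.Agent.GEL

private theorem ext_of_eq {k₀ κ : Type*} [Field k₀] [Field κ] [Algebra k₀ κ]
    (E F : IntermediateField k₀ κ) (δ : Derivation k₀ E κ) (hEF : E ≤ F) (h : F = E) :
    ∃ δ₁ : Derivation k₀ F κ, ∀ (e : κ) (he : e ∈ E), δ₁ ⟨e, hEF he⟩ = δ ⟨e, he⟩ := by
  subst h
  exact ⟨δ, fun e he => rfl⟩

/-- `e ↦ e + δ(e) ε` -/
private noncomputable def phi0 {k₀ κ : Type*} [Field k₀] [Field κ] [Algebra k₀ κ]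
    (E : IntermediateField k₀ κ) (δ : Derivation k₀ E κ) : E →+* TrivSqZeroExt κ κ where
  toFun e := TrivSqZeroExt.inl (e : κ) + TrivSqZeroExt.inr (δ e)
  map_one' := by
    ext <;> simp
  map_mul' a b := by
    ext
    · simp
    · simp only [TrivSqZeroExt.snd_add, TrivSqZeroExt.snd_inl, TrivSqZeroExt.snd_inr,
        TrivSqZeroExt.snd_mul, TrivSqZeroExt.fst_add, TrivSqZeroExt.fst_inl,
        TrivSqZeroExt.fst_inr, add_zero, zero_add, Derivation.leibniz, op_smul_eq_smul]
      rfl
  map_zero' := by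
    ext <;> simp
  map_add' a b := by
    ext <;> simp

theorem ext_insep {k₀ κ : Type*} [Field k₀] [Field κ] [Algebra k₀ κ] {p : ℕ} [Fact p.Prime]
    [CharP κ p] (E : IntermediateField k₀ κ) (δ : Derivation k₀ E κ) (y : κ) (b : E)
    (hb : y ^ p = (b : κ)) (hδ : δ b = 0) :
    ∃ δ₁ : Derivation k₀ ↥(E ⊔ IntermediateField.adjoin k₀ {y}) κ,
      ∀ (e : κ) (he : e ∈ E), δ₁ ⟨e, (le_sup_left : E ≤ E ⊔ IntermediateField.adjoin k₀ {y}) he⟩ =
        δ ⟨e, he⟩ := by
  have hp : p.Prime := Fact.out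
  by_cases hy : y ∈ E
  · exact ext_of_eq E _ δ le_sup_left (sup_eq_left.2 (by
      rw [IntermediateField.adjoin_simple_le_iff]
      exact hy))
  set q : Polynomial E := Polynomial.X ^ p - Polynomial.C b with hq
  have hqm : q.Monic := Polynomial.monic_X_pow_sub_C _ hp.ne_zero
  have hqr : Polynomial.aeval y q = 0 := by
    rw [hq, map_sub, map_pow, Polynomial.aeval_X, Polynomial.aeval_C, hb]
    exact sub_self _
  have hirr : Irreducible q := by
    apply X_pow_sub_C_irreducible_of_prime hp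
    intro c hc
    apply hy
    have h1 : (c : κ) ^ p = y ^ p := by
      rw [hb]
      exact congrArg (Subtype.val) hc
    have h2 : ((c : κ) - y) ^ p = 0 := by
      rw [sub_pow_char (c : κ) y, h1, sub_self]
    have h3 : (c : κ) = y := sub_eq_zero.1 (pow_eq_zero_iff hp.ne_zero |>.1 h2)
    rw [← h3]
    exact c.2
  have hmin : minpoly E y = q := (minpoly.eq_of_irreducible_of_monic hirr hqr hqm).symm
  have hint : IsIntegral E y := ⟨q, hqm, by rw [← Polynomial.aeval_def]; exact hqr⟩
  -- every element is a polynomial in `y`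
  have hex : ∀ z : ↥(E ⊔ IntermediateField.adjoin k₀ {y}), ∃ P : Polynomial E,
      Polynomial.aeval y P = (z : κ) := by
    intro z
    have h1 : E ⊔ IntermediateField.adjoin k₀ {y} ≤
        (IntermediateField.adjoin E {y}).restrictScalars k₀ := by
      refine sup_le (fun e he => ?_) ?_
      · exact (IntermediateField.adjoin E {y}).algebraMap_mem ⟨e, he⟩
      · rw [IntermediateField.adjoin_simple_le_iff]
        exact IntermediateField.mem_adjoin_simple_self E y
    have h2 : (z : κ) ∈ Algebra.adjoin E {y} := by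
      rw [← IntermediateField.adjoin_simple_toSubalgebra_of_isAlgebraic hint.isAlgebraic]
      exact h1 z.2
    rw [Algebra.adjoin_singleton_eq_range_aeval] at h2
    obtain ⟨P, hP⟩ := h2
    exact ⟨P, hP⟩
  -- the homomorphism to the dual numbers
  set φ : Polynomial E →+* TrivSqZeroExt κ κ :=
    Polynomial.eval₂RingHom (phi0 E δ) (TrivSqZeroExt.inl y) with hφ
  have hφC : ∀ e : E, φ (Polynomial.C e) = TrivSqZeroExt.inl (e : κ) + TrivSqZeroExt.inr (δ e) := by
    intro e
    rw [hφ, Polynomial.coe_eval₂RingHom, Polynomial.eval₂_C]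
    rfl
  have hφX : φ Polynomial.X = TrivSqZeroExt.inl y := by
    rw [hφ, Polynomial.coe_eval₂RingHom, Polynomial.eval₂_X]
  have hfst : ∀ P : Polynomial E, (φ P).fst = Polynomial.aeval y P := by
    intro P
    have h1 : ((TrivSqZeroExt.fstHom κ κ κ).toRingHom.comp φ) =
        (Polynomial.aeval y : Polynomial E →ₐ[E] κ).toRingHom := by
      apply Polynomial.ringHom_ext
      · intro e
        show (φ (Polynomial.C e)).fst = Polynomial.aeval y (Polynomial.C e)
        rw [hφC, Polynomial.aeval_C, TrivSqZeroExt.fst_add, TrivSqZeroExt.fst_inl,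
          TrivSqZeroExt.fst_inr, add_zero]
        rfl
      · show (φ Polynomial.X).fst = Polynomial.aeval y Polynomial.X
        rw [hφX, Polynomial.aeval_X, TrivSqZeroExt.fst_inl]
    exact congrArg (fun f : Polynomial E →+* κ => f P) h1
  have hφq : φ q = 0 := by
    rw [hq, map_sub, map_pow, hφX, hφC, hδ]
    rw [TrivSqZeroExt.inr_zero, add_zero, ← hb, TrivSqZeroExt.inl_pow, sub_self]
  have hker : ∀ P Q : Polynomial E, Polynomial.aeval y P = Polynomial.aeval y Q → φ P = φ Q := by
    intro P Q hPQ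
    have h1 : Polynomial.aeval y (P - Q) = 0 := by
      rw [map_sub, hPQ, sub_self]
    have h2 := minpoly.dvd E y h1
    rw [hmin] at h2
    obtain ⟨R, hR⟩ := h2
    have h3 : φ (P - Q) = 0 := by
      rw [hR, map_mul, hφq, zero_mul]
    rw [map_sub] at h3
    exact sub_eq_zero.1 h3
  choose P hP using hex
  refine ⟨Derivation.mk'
    { toFun := fun z => (φ (P z)).snd
      map_add' := fun z w => ?_
      map_smul' := fun c z => ?_ } fun z w => ?_, fun e he => ?_⟩
  · have h1 : φ (P (z + w)) = φ (P z + P w) := hker _ _ (by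
      rw [map_add, hP, hP, hP]
      rfl)
    rw [h1, map_add, TrivSqZeroExt.snd_add]
  · have h1 : φ (P (c • z)) = φ (Polynomial.C (algebraMap k₀ E c) * P z) := hker _ _ (by
      rw [map_mul, hP, hP, Polynomial.aeval_C]
      show ((c • z : ↥(E ⊔ IntermediateField.adjoin k₀ {y})) : κ) = algebraMap k₀ κ c * (z : κ)
      rw [← Algebra.smul_def]
      rfl)
    rw [h1, map_mul, hφC, Derivation.map_algebraMap, TrivSqZeroExt.inr_zero, add_zero,
      TrivSqZeroExt.inl_mul_eq_smul, TrivSqZeroExt.snd_smul, RingHom.id_apply]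
    show (algebraMap k₀ κ c) • (φ (P z)).snd = c • (φ (P z)).snd
    rw [algebraMap_smul]
  · have h1 : φ (P (z * w)) = φ (P z * P w) := hker _ _ (by
      rw [map_mul, hP, hP, hP]
      rfl)
    show (φ (P (z * w))).snd = z • (φ (P w)).snd + w • (φ (P z)).snd
    rw [h1, map_mul, TrivSqZeroExt.snd_mul, hfst, hfst, hP, hP, op_smul_eq_smul]
    rfl
  · have h1 : φ (P ⟨e, (le_sup_left : E ≤ E ⊔ IntermediateField.adjoin k₀ {y}) he⟩) =
        φ (Polynomial.C ⟨e, he⟩) := hker _ _ (by
      rw [hP, Polynomial.aeval_C]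
      rfl)
    show (φ (P ⟨e, (le_sup_left : E ≤ E ⊔ IntermediateField.adjoin k₀ {y}) he⟩)).snd = δ ⟨e, he⟩
    rw [h1, hφC, TrivSqZeroExt.snd_add, TrivSqZeroExt.snd_inl, TrivSqZeroExt.snd_inr, zero_add]

end Pool.Agent.GEL
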