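import Mathlib

/-!
# Derivations of a purely transcendental extension

PLAN. Let `A = MvPolynomial (Fin n) k₀`, `aeval z : A → κ` (injective). `κ` is an `A`-module through it; the derivation
`MvPolynomial.mkDerivation k₀ v : Derivation k₀ A κ` (`X i ↦ v i`). Extension to the fraction field
`k₀(z) = IntermediateField.adjoin k₀ (range z)`: every `u ∈ k₀(z)` is a quotient `g(z)/h(z)`
(`hz.aevalEquiv`, `IsFractionRing` of `Algebra.adjoin` in `IntermediateField.adjoin`, or
`AlgebraicIndependent.aevalEquivField`), `δ u = (h(z) D g - g(z) D h) / h(z)^2`. Recommended: use dual numbers: the ring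
homomorphism `A → κ[ε]` (`TrivSqZeroExt κ κ`), `g ↦ g(z) + (D g) ε`, i.e. `aeval (z i + v i ε)`, maps nonzero elements to units,
so it extends to the fraction field (`IsLocalization.lift` / `IsFractionRing`), and take the ε-component.
Or use `Derivation` of a localization / `KaehlerDifferential` (formally etale localisations).
-/

namespace Pool.Agent.GEL

theorem der_pure {k₀ κ : Type*} [Field k₀] [Field κ] [Algebra k₀ κ] {n : ℕ} (z : Fin n → κ)
    (hz : AlgebraicIndependent k₀ z) (v : Fin n → κ) :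
    ∃ δ : Derivation k₀ ↥(IntermediateField.adjoin k₀ (Set.range z)) κ,
      ∀ i, δ ⟨z i, IntermediateField.subset_adjoin k₀ _ ⟨i, rfl⟩⟩ = v i := by
  classical
  let φ : MvPolynomial (Fin n) k₀ →ₐ[k₀] TrivSqZeroExt κ κ :=
    MvPolynomial.aeval fun i => TrivSqZeroExt.inl (z i) + TrivSqZeroExt.inr (v i)
  have hfst : ∀ g, (φ g).fst = MvPolynomial.aeval z g := by
    have h : (TrivSqZeroExt.fstHom k₀ κ κ).comp φ = MvPolynomial.aeval z := by
      ext i
      simp [φ]
    intro g
    exact DFunLike.congr_fun h g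
  have hunit : ∀ y : nonZeroDivisors (MvPolynomial (Fin n) k₀), IsUnit (φ y) := by
    intro y
    rw [TrivSqZeroExt.isUnit_iff_isUnit_fst, hfst]
    refine IsUnit.mk0 _ fun h => nonZeroDivisors.ne_zero y.2 ?_
    exact hz (by rw [h, map_zero])
  let ψ : FractionRing (MvPolynomial (Fin n) k₀) →ₐ[k₀] TrivSqZeroExt κ κ :=
    IsLocalization.liftAlgHom (M := nonZeroDivisors (MvPolynomial (Fin n) k₀)) (f := φ) hunit
  have hψ : ∀ g, ψ (algebraMap (MvPolynomial (Fin n) k₀) _ g) = φ g := by
    intro g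
    exact IsLocalization.lift_eq (M := nonZeroDivisors (MvPolynomial (Fin n) k₀)) hunit g
  have hψ2 : ∀ q, (ψ q).fst = ((hz.aevalEquivField q :
      ↥(IntermediateField.adjoin k₀ (Set.range z))) : κ) := by
    intro q
    obtain ⟨g, h, hh, rfl⟩ := IsFractionRing.div_surjective (A := MvPolynomial (Fin n) k₀) q
    have hh0 : algebraMap (MvPolynomial (Fin n) k₀) (FractionRing (MvPolynomial (Fin n) k₀)) h ≠ 0 := by
      rw [Ne, IsFractionRing.to_map_eq_zero_iff]
      exact nonZeroDivisors.ne_zero hh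
    have h1 : (ψ (algebraMap (MvPolynomial (Fin n) k₀) _ g / algebraMap _ _ h)).fst *
        (ψ (algebraMap (MvPolynomial (Fin n) k₀) _ h)).fst =
          (ψ (algebraMap (MvPolynomial (Fin n) k₀) _ g)).fst := by
      rw [← TrivSqZeroExt.fst_mul, ← map_mul, div_mul_cancel₀ _ hh0]
    have h2 : (MvPolynomial.aeval z h : κ) ≠ 0 := by
      intro h3
      exact nonZeroDivisors.ne_zero hh (hz (by rw [h3, map_zero]))
    rw [hψ, hψ, hfst, hfst] at h1
    rw [eq_div_of_mul_eq h2 h1, map_div₀]
    push_cast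
    rw [hz.aevalEquivField_algebraMap_apply_coe, hz.aevalEquivField_algebraMap_apply_coe]
  let Ψ : ↥(IntermediateField.adjoin k₀ (Set.range z)) →ₐ[k₀] TrivSqZeroExt κ κ :=
    ψ.comp (hz.aevalEquivField.symm : ↥(IntermediateField.adjoin k₀ (Set.range z)) →ₐ[k₀]
      FractionRing (MvPolynomial (Fin n) k₀))
  have hΨ : ∀ u, (Ψ u).fst = (u : κ) := by
    intro u
    show (ψ (hz.aevalEquivField.symm u)).fst = _
    rw [hψ2, AlgEquiv.apply_symm_apply]
  let D : ↥(IntermediateField.adjoin k₀ (Set.range z)) →ₗ[k₀] κ :=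
    { toFun := fun u => (Ψ u).snd
      map_add' := fun u w => by rw [map_add, TrivSqZeroExt.snd_add]
      map_smul' := fun c u => by rw [map_smul, TrivSqZeroExt.snd_smul, RingHom.id_apply] }
  refine ⟨Derivation.mk' D fun u w => ?_, fun i => ?_⟩
  · show (Ψ (u * w)).snd = u • (Ψ w).snd + w • (Ψ u).snd
    rw [map_mul, TrivSqZeroExt.snd_mul, hΨ, hΨ]
    rw [MulOpposite.smul_eq_mul_unop, MulOpposite.unop_op, smul_eq_mul,
      IntermediateField.smul_def, IntermediateField.smul_def, smul_eq_mul, smul_eq_mul]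
    ring
  · show (ψ (hz.aevalEquivField.symm _)).snd = v i
    have h1 : hz.aevalEquivField.symm ⟨z i, IntermediateField.subset_adjoin k₀ _ ⟨i, rfl⟩⟩ =
        algebraMap (MvPolynomial (Fin n) k₀) _ (MvPolynomial.X i) := by
      rw [AlgEquiv.symm_apply_eq]
      apply Subtype.ext
      rw [hz.aevalEquivField_algebraMap_apply_coe, MvPolynomial.aeval_X]
    rw [h1, hψ]
    show ((MvPolynomial.aeval fun i => TrivSqZeroExt.inl (z i) + TrivSqZeroExt.inr (v i))
      (MvPolynomial.X i) : TrivSqZeroExt κ κ).snd = v i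
    rw [MvPolynomial.aeval_X]
    simp

end Pool.Agent.GEL
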