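import Pool.Agent.GEL.DerA
import Pool.Agent.GEL.DerB
import Pool.Agent.GEL.DerC
import Pool.Agent.GEL.KlA

/-!
# Derivations of the residue field

Assembly: a derivation of the purely transcendental subfield, extended to `y` and then to the separable extension.
-/

open MvPolynomial

namespace Pool.Agent.GEL

theorem der_exists {k₀ κ : Type*} [Field k₀] [Field κ] [Algebra k₀ κ] {p : ℕ} [Fact p.Prime]
    [CharP κ p] {n d : ℕ} (hd : p ∣ d) (hd2 : 2 ≤ d) (x : Fin (n + 1) → κ) (y : κ) (hx0 : x 0 = 1)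
    (hind : AlgebraicIndependent k₀ fun i : Fin n => x i.succ) (hy : y ^ p = kl d x)
    (hsep : Algebra.IsSeparable ↥(IntermediateField.adjoin k₀ (insert y (Set.range x))) κ)
    (v : Fin (n + 1) → κ) (hv0 : v 0 = 0) (hv : ∑ j, grad d x j * v j = 0) :
    ∃ D : Derivation k₀ κ κ, ∀ j, D (x j) = v j := by
  have hmain : ∃ (E : IntermediateField k₀ κ)
      (_ : E = IntermediateField.adjoin k₀ (Set.range fun i : Fin n => x i.succ))
      (δ : Derivation k₀ E κ), ∀ (i : Fin n) (h : x i.succ ∈ E), δ ⟨x i.succ, h⟩ = v i.succ := by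
    obtain ⟨δ, hδ⟩ := der_pure (fun i : Fin n => x i.succ) hind fun i : Fin n => v i.succ
    exact ⟨_, rfl, δ, fun i _ => hδ i⟩
  obtain ⟨E, hE, δ, hδ⟩ := hmain
  have hxE : ∀ j, x j ∈ E := by
    intro j
    refine Fin.cases ?_ (fun i => ?_) j
    · rw [hx0]
      exact E.one_mem
    · rw [hE]
      exact IntermediateField.subset_adjoin k₀ _ ⟨i, rfl⟩
  have hδx : ∀ j, δ ⟨x j, hxE j⟩ = v j := by
    intro j
    refine Fin.cases ?_ (fun i => ?_) j
    · have h1 : (⟨x 0, hxE 0⟩ : E) = 1 := Subtype.ext hx0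
      rw [h1, Derivation.map_one_eq_zero, hv0]
    · exact hδ i _
  have hcast : (d : E) = 0 := by
    apply Subtype.ext
    have h1 : (d : κ) = 0 := (CharP.cast_eq_zero_iff κ p d).2 hd
    have h2 : ((d : E) : κ) = (d : κ) := map_natCast (algebraMap E κ) d
    rw [h2, h1]
    rfl
  have hb : y ^ p = ((kl d fun j => (⟨x j, hxE j⟩ : E) : E) : κ) := by
    have h1 := map_kl (algebraMap E κ) d fun j => (⟨x j, hxE j⟩ : E)
    rw [hy]
    exact h1.symm
  have hδb : δ (kl d fun j => (⟨x j, hxE j⟩ : E)) = 0 := by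
    rw [derivation_kl δ hd2 hcast, ← hv]
    refine Finset.sum_congr rfl fun j _ => ?_
    rw [hδx, Algebra.smul_def, map_grad]
    rfl
  obtain ⟨δ₁, hδ₁⟩ := ext_insep E δ y _ hb hδb
  have hEq : E ⊔ IntermediateField.adjoin k₀ {y} =
      IntermediateField.adjoin k₀ (insert y (Set.range x)) := by
    apply le_antisymm
    · refine sup_le ?_ ?_
      · rw [hE, IntermediateField.adjoin_le_iff]
        rintro _ ⟨i, rfl⟩
        exact IntermediateField.subset_adjoin k₀ _ (Set.mem_insert_of_mem _ ⟨i.succ, rfl⟩)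
      · rw [IntermediateField.adjoin_le_iff]
        rintro z hz
        rw [Set.mem_singleton_iff] at hz
        rw [hz]
        exact IntermediateField.subset_adjoin k₀ _ (Set.mem_insert _ _)
    · rw [IntermediateField.adjoin_le_iff]
      rintro z hz
      rcases hz with hz | ⟨j, rfl⟩
      · rw [hz]
        exact (le_sup_right : IntermediateField.adjoin k₀ {y} ≤ _)
          (IntermediateField.subset_adjoin k₀ _ (Set.mem_singleton y))
      · exact (le_sup_left : E ≤ E ⊔ IntermediateField.adjoin k₀ {y}) (hxE j)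
  rw [← hEq] at hsep
  obtain ⟨D, hD⟩ := ext_sep δ₁
  refine ⟨D, fun j => ?_⟩
  rw [← hδx j, ← hδ₁ (x j) (hxE j)]
  exact hD ⟨x j, _⟩

end Pool.Agent.GEL
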