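import Mathlib

/-!
# Derivations acting on the coefficients of polynomials

PLAN. Define `D' P = ∑ i ∈ P.support, monomial i (D (P.coeff i))`, or via `Polynomial.sum`, or as the additive map
`Finsupp.mapRange`; the coefficients are `D (P.coeff i)` (`D 0 = 0`). Linearity over `k₀` and the Leibniz rule are checked on
coefficients (`Polynomial.coeff_mul`, `Finset.antidiagonal`). Mathlib's `Derivation.mapCoeff` may help
(compose with `PolynomialModule.equivPolynomialSelf`).
-/

open Polynomial

namespace Pool.Agent.GEL

theorem der_poly {k₀ κ : Type*} [Field k₀] [Field κ] [Algebra k₀ κ] (D : Derivation k₀ κ κ) :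
    ∃ D' : Derivation k₀ κ[X] κ[X], ∀ (P : κ[X]) (i : ℕ), (D' P).coeff i = D (P.coeff i) :=
  ⟨PolynomialModule.equivPolynomialSelf.compDer D.mapCoeffs, fun _ _ => rfl⟩

end Pool.Agent.GEL
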