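import Mathlib

/-!
# From local divisibility to a common factor

PLAN. Let `g` be a gcd of all `v j` (`Finset.univ.gcd v`, `κ[X]` is a normalized GCD domain; or a generator of the ideal
`Ideal.span (range v)`, principal: `Submodule.IsPrincipal`), `v j = g v'_j`, `∑ a_j v'_j = 1` (from
`g = ∑ a_j v_j`, `g ≠ 0`). From `m i * v j = m j * v i`: `m i v'_j = m j v'_i`. Put `ψ₀ = ∑ a_j m j`; then
`ψ₀ v'_i = ∑ a_j m j v'_i = ∑ a_j v'_j m i = m i`. Claim `g ∣ ψ₀`: in the UFD `κ[X]` it is enough that every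
prime power `θ^r ∣ g` divides `ψ₀` (for instance by induction on the number of irreducible factors, or by
multiplicities `UniqueFactorizationMonoid.dvd_iff_...`, `pow_dvd_iff`; a direct way: let `g' = gcd g ψ₀`; if `g ∤ ψ₀` there is
an irreducible `θ` dividing `g / g'`; with `r` = multiplicity of `θ` in `g'`, `θ^(r+1) ∣ g`, hence
`θ^(r+1) ∣ ψ₀` by `hloc`, so `θ^(r+1) ∣ g'`, contradiction): `θ^r ∣ g` gives `θ^r ∣ v j` for all `j`, so
`θ^r ∣ m i` for all `i` (`hloc`) and `θ^r ∣ ψ₀`. So `ψ₀ = g ψ` and `m i = g ψ v'_i = ψ v i`.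
-/

open Polynomial

namespace Pool.Agent.GEL

private theorem dvd_of_loc {κ : Type*} [Field κ] (g ψ : κ[X])
    (h : ∀ θ : κ[X], Irreducible θ → ∀ r : ℕ, θ ^ r ∣ g → θ ^ r ∣ ψ) : g ∣ ψ := by
  revert h
  refine UniqueFactorizationMonoid.induction_on_coprime g ?_ ?_ ?_ ?_
  · intro h
    have h1 : ∀ r : ℕ, (X : κ[X]) ^ r ∣ ψ := fun r => h X irreducible_X r (dvd_zero _)
    have h2 : ψ = 0 := by
      by_contra hne
      have h3 := Polynomial.natDegree_le_of_dvd (h1 (ψ.natDegree + 1)) hne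
      rw [natDegree_X_pow] at h3
      omega
    rw [h2]
  · intro x hx _
    exact hx.dvd
  · intro p i hp h
    exact h p hp.irreducible i dvd_rfl
  · intro x y hxy h1 h2 h
    exact hxy.mul_dvd (h1 fun θ hθ r hr => h θ hθ r (hr.mul_right y))
      (h2 fun θ hθ r hr => h θ hθ r (hr.mul_left x))

theorem exists_factor {κ : Type*} [Field κ] {N : ℕ} (m v : Fin N → κ[X]) (hv : v ≠ 0)
    (hprop : ∀ i j, m i * v j = m j * v i)
    (hloc : ∀ θ : κ[X], Irreducible θ → ∀ r : ℕ, (∀ j, θ ^ r ∣ v j) → ∀ i, θ ^ r ∣ m i) :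
    ∃ ψ : κ[X], ∀ i, m i = ψ * v i := by
  classical
  obtain ⟨g, hg⟩ : ∃ g : κ[X], Ideal.span (Set.range v) = Ideal.span {g} :=
    (IsPrincipalIdealRing.principal (Ideal.span (Set.range v))).principal
  have hdv : ∀ j, g ∣ v j := by
    intro j
    have h1 : v j ∈ Ideal.span (Set.range v) := Ideal.subset_span ⟨j, rfl⟩
    rw [hg, Ideal.mem_span_singleton] at h1
    exact h1
  have hgm : g ∈ Ideal.span (Set.range v) := by
    rw [hg]
    exact Ideal.mem_span_singleton_self g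
  obtain ⟨a, ha⟩ := Ideal.mem_span_range_iff_exists_fun.1 hgm
  have hg0 : g ≠ 0 := by
    rintro rfl
    apply hv
    funext j
    exact zero_dvd_iff.1 (hdv j)
  choose v' hv' using hdv
  have h1 : ∑ j, a j * v' j = 1 := by
    apply mul_left_cancel₀ hg0
    rw [mul_one, Finset.mul_sum]
    conv_rhs => rw [← ha]
    exact Finset.sum_congr rfl fun j _ => by rw [hv' j]; ring
  have h2 : ∀ i j, m i * v' j = m j * v' i := by
    intro i j
    apply mul_left_cancel₀ hg0
    have h3 := hprop i j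
    rw [hv' i, hv' j] at h3
    linear_combination h3
  have h3 : ∀ i, (∑ j, a j * m j) * v' i = m i := by
    intro i
    rw [Finset.sum_mul]
    calc ∑ j, a j * m j * v' i = ∑ j, m i * (a j * v' j) :=
          Finset.sum_congr rfl fun j _ => by linear_combination (-a j) * h2 i j
      _ = m i := by rw [← Finset.mul_sum, h1, mul_one]
  have h4 : ∀ θ : κ[X], Irreducible θ → ∀ r : ℕ, θ ^ r ∣ g → θ ^ r ∣ ∑ j, a j * m j := by
    intro θ hθ r hr
    have h5 := hloc θ hθ r (fun j => hr.trans ⟨v' j, hv' j⟩)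
    exact Finset.dvd_sum fun j _ => (h5 j).mul_left _
  have h5 : g ∣ ∑ j, a j * m j := dvd_of_loc g _ h4
  obtain ⟨ψ, hψ⟩ := h5
  refine ⟨ψ, fun i => ?_⟩
  rw [← h3 i, hψ, hv' i]
  ring

end Pool.Agent.GEL
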