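import Pool.Agent.GEL.MinA

/-!
# The order of vanishing of the minors

PLAN (`θ` is a prime element of the domain `A`; `mnr_comb` is used twice). For vectors (index `i` suppressed)
`rows l₀ = ξ₀ ζ + θ^(r+1) w`, `rows l₁ = b₁ ζ + θ^r c₁ w + θ^(r+1) s₁`, `rows l₂ = b₂ ζ + θ^r c₂ w + θ^(r+1) s₂`.
Case 1: `θ ∣ c₁`, `c₁ = θ c'`. Then `ξ₀ rows l₁ - b₁ rows l₀ = θ^(r+1) (ξ₀ c' w + ξ₀ s₁ - b₁ w)`, so `mnr_comb` with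
`γ = ξ₀` at `l₁`, `-b₁` at `l₀`, 0 elsewhere: `θ^(r+1) ∣ ξ₀ * mnr rows i`, and
`θ ∤ ξ₀` (`Prime.pow_dvd_of_dvd_mul_left`).
Case 2: `θ ∤ c₁`. Then
`ξ₀ c₁ rows l₂ - ξ₀ c₂ rows l₁ - (b₂ c₁ - b₁ c₂) rows l₀ = θ^(r+1) (ξ₀ c₁ s₂ - ξ₀ c₂ s₁ - (b₂ c₁ - b₁ c₂) w)`, so
`θ^(r+1) ∣ (ξ₀ c₁) * mnr rows i`, and `θ ∤ ξ₀ c₁`.
-/

namespace Pool.Agent.GEL

theorem minor_order {A : Type*} [CommRing A] [IsDomain A] {N : ℕ} (θ : A) (hθ : Prime θ)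
    (rows : Fin N → Fin (N + 1) → A) (l₀ l₁ l₂ : Fin N) (h01 : l₀ ≠ l₁) (h02 : l₀ ≠ l₂)
    (h12 : l₁ ≠ l₂) (r : ℕ) (ξ₀ b₁ b₂ c₁ c₂ : A) (ζ w s₁ s₂ : Fin (N + 1) → A) (hξ₀ : ¬ θ ∣ ξ₀)
    (e₀ : ∀ i, rows l₀ i = ξ₀ * ζ i + θ ^ (r + 1) * w i)
    (e₁ : ∀ i, rows l₁ i = b₁ * ζ i + θ ^ r * (c₁ * w i) + θ ^ (r + 1) * s₁ i)
    (e₂ : ∀ i, rows l₂ i = b₂ * ζ i + θ ^ r * (c₂ * w i) + θ ^ (r + 1) * s₂ i) (i : Fin (N + 1)) :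
    θ ^ (r + 1) ∣ mnr rows i := by
  have hsum : ∀ (a b c : A) (i : Fin (N + 1)),
      ∑ l, ((Pi.single l₂ a + Pi.single l₁ b + Pi.single l₀ c : Fin N → A) l) * rows l i =
        a * rows l₂ i + b * rows l₁ i + c * rows l₀ i := by
    intro a b c i
    simp only [Pi.add_apply, add_mul, Finset.sum_add_distrib, Pi.single_apply, ite_mul, zero_mul,
      Finset.sum_ite_eq', Finset.mem_univ, if_true]
  by_cases hc : θ ∣ c₁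
  · obtain ⟨c', rfl⟩ := hc
    have h1 := mnr_comb rows (Pi.single l₂ 0 + Pi.single l₁ ξ₀ + Pi.single l₀ (-b₁)) (θ ^ (r + 1))
      (fun i => ξ₀ * c' * w i + ξ₀ * s₁ i - b₁ * w i) (by
        intro i
        rw [hsum, e₀, e₁]
        ring) l₁ i
    have h2 : (Pi.single l₂ 0 + Pi.single l₁ ξ₀ + Pi.single l₀ (-b₁) : Fin N → A) l₁ = ξ₀ := by
      rw [Pi.add_apply, Pi.add_apply, Pi.single_eq_of_ne h12, Pi.single_eq_same, Pi.single_eq_of_ne h01.symm,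
        zero_add, add_zero]
    rw [h2] at h1
    exact hθ.pow_dvd_of_dvd_mul_left _ hξ₀ h1
  · have h1 := mnr_comb rows (Pi.single l₂ (ξ₀ * c₁) + Pi.single l₁ (-(ξ₀ * c₂)) +
        Pi.single l₀ (-(b₂ * c₁ - b₁ * c₂))) (θ ^ (r + 1))
      (fun i => ξ₀ * c₁ * s₂ i - ξ₀ * c₂ * s₁ i - (b₂ * c₁ - b₁ * c₂) * w i) (by
        intro i
        rw [hsum, e₀, e₁, e₂]
        ring) l₂ i
    have h2 : (Pi.single l₂ (ξ₀ * c₁) + Pi.single l₁ (-(ξ₀ * c₂)) +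
        Pi.single l₀ (-(b₂ * c₁ - b₁ * c₂)) : Fin N → A) l₂ = ξ₀ * c₁ := by
      rw [Pi.add_apply, Pi.add_apply, Pi.single_eq_same, Pi.single_eq_of_ne h12.symm,
        Pi.single_eq_of_ne h02.symm, add_zero, add_zero]
    rw [h2] at h1
    exact hθ.pow_dvd_of_dvd_mul_left _ (fun h => (hθ.dvd_or_dvd h).elim hξ₀ hc) h1

end Pool.Agent.GEL
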