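import Pool.Agent.GEL.Tools

/-!
# A nonzero minor

PLAN. Show that the rows of the `(m+2) × (m+2)` matrix (`e_1` on top of `rows`) are linearly independent
(then `det ≠ 0`: `Matrix.linearIndependent_rows_iff_isUnit`, or: if `det = 0` there is a nonzero vector
`c` with `c ᵥ* M = 0` (`Matrix.exists_vecMul_eq_zero_iff`)). Let
`α e_1 + β c x + ∑ l, γ_l (c'_l x + c (g₁ e_(l+2) - h_l e_1)) = 0`. Coordinate 0 (`x 0 = 1`; the unit vectors
`e_1`, `e_(l+2)` vanish there): `β c + ∑ γ_l c'_l = 0`. Then the total coefficient of `x` is 0, so the vector is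
`α e_1 + ∑ γ_l c (g₁ e_(l+2) - h_l e_1) = 0`. Coordinate `l + 2`: `γ_l c g₁ = 0`, so `γ_l = 0`; then `β = 0`, `α = 0`.
-/

namespace Pool.Agent.GEL

theorem minor_ne {κ : Type*} [Field κ] {m : ℕ} (x : Fin (m + 2) → κ) (hx : x 0 = 1) (g₁ c : κ)
    (hg : g₁ ≠ 0) (hc : c ≠ 0) (h c' : Fin m → κ) (rows : Fin (m + 1) → Fin (m + 2) → κ)
    (h0 : ∀ i, rows 0 i = c * x i)
    (h1 : ∀ l i, rows l.succ i =
      c' l * x i + c * (if i = l.succ.succ then g₁ else if i = 1 then - h l else 0)) :
    mnr rows 1 ≠ 0 := by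
  intro hdet
  obtain ⟨v, hv, hvM⟩ := Matrix.exists_vecMul_eq_zero_iff.2 hdet
  have key : ∀ i : Fin (m + 2), v 0 * (Pi.single 1 (1 : κ) : Fin (m + 2) → κ) i + (v 1 * (c * x i) +
      ∑ l : Fin m, v l.succ.succ *
        (c' l * x i + c * (if i = l.succ.succ then g₁ else if i = 1 then - h l else 0))) = 0 := by
    intro i
    have h2 := congrFun hvM i
    change ∑ k, v k * (Matrix.of (Fin.cons (Pi.single 1 (1 : κ)) rows : Fin (m + 2) → Fin (m + 2) → κ)) k i = 0
      at h2
    rw [Fin.sum_univ_succ, Fin.sum_univ_succ] at h2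
    refine Eq.trans ?_ h2
    have e1 : (Matrix.of (Fin.cons (Pi.single 1 (1 : κ)) rows : Fin (m + 2) → Fin (m + 2) → κ)) 0 i =
        (Pi.single 1 (1 : κ) : Fin (m + 2) → κ) i := rfl
    have e2 : (Matrix.of (Fin.cons (Pi.single 1 (1 : κ)) rows : Fin (m + 2) → Fin (m + 2) → κ)) (Fin.succ 0) i =
        c * x i := h0 i
    have e3 : ∀ l : Fin m, (Matrix.of (Fin.cons (Pi.single 1 (1 : κ)) rows : Fin (m + 2) → Fin (m + 2) → κ))
        l.succ.succ i =
        c' l * x i + c * (if i = l.succ.succ then g₁ else if i = 1 then - h l else 0) := fun l => h1 l i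
    rw [e1, e2]
    simp only [e3]
    rfl
  have k0 := key 0
  have hn1 : ∀ l : Fin m, (0 : Fin (m + 2)) ≠ l.succ.succ := fun l => (Fin.succ_ne_zero _).symm
  have hn2 : (0 : Fin (m + 2)) ≠ 1 := by
    intro h
    exact absurd h (Fin.zero_ne_one)
  have hn3 : ∀ l : Fin m, (l.succ.succ : Fin (m + 2)) ≠ 1 := by
    intro l hl
    have h2 : (l.succ.succ : Fin (m + 2)) = Fin.succ 0 := hl
    exact Fin.succ_ne_zero l (Fin.succ_injective _ h2)
  rw [Pi.single_eq_of_ne hn2, mul_zero, zero_add, hx] at k0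
  have k0' : v 1 * c + ∑ l : Fin m, v l.succ.succ * c' l = 0 := by
    rw [← k0, mul_one]
    congr 1
    refine Finset.sum_congr rfl fun l _ => ?_
    rw [if_neg (hn1 l), if_neg hn2, mul_zero, add_zero, mul_one]
  have key2 : ∀ i : Fin (m + 2), v 0 * (Pi.single 1 (1 : κ) : Fin (m + 2) → κ) i +
      ∑ l : Fin m, v l.succ.succ * (c * (if i = l.succ.succ then g₁ else if i = 1 then - h l else 0)) = 0 := by
    intro i
    have h3 := key i
    have h4 : ∑ l : Fin m, v l.succ.succ *
        (c' l * x i + c * (if i = l.succ.succ then g₁ else if i = 1 then - h l else 0)) =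
        (∑ l : Fin m, v l.succ.succ * c' l) * x i +
        ∑ l : Fin m, v l.succ.succ * (c * (if i = l.succ.succ then g₁ else if i = 1 then - h l else 0)) := by
      rw [Finset.sum_mul, ← Finset.sum_add_distrib]
      exact Finset.sum_congr rfl fun l _ => by ring
    rw [h4] at h3
    linear_combination h3 - x i * k0'
  have hγ : ∀ l : Fin m, v l.succ.succ = 0 := by
    intro l
    have h3 := key2 l.succ.succ
    rw [Pi.single_eq_of_ne (hn3 l), mul_zero, zero_add, Finset.sum_eq_single l] at h3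
    · rw [if_pos rfl] at h3
      rcases mul_eq_zero.1 h3 with h4 | h4
      · exact h4
      · exact absurd h4 (mul_ne_zero hc hg)
    · intro l' _ hl'
      have hne : (l.succ.succ : Fin (m + 2)) ≠ l'.succ.succ := by
        intro h5
        exact hl' (Fin.succ_injective _ (Fin.succ_injective _ h5)).symm
      rw [if_neg hne, if_neg (hn3 l), mul_zero, mul_zero]
    · intro h5
      exact absurd (Finset.mem_univ l) h5
  have hβ : v 1 = 0 := by
    have h5 : ∑ l : Fin m, v l.succ.succ * c' l = 0 :=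
      Finset.sum_eq_zero fun l _ => by rw [hγ l, zero_mul]
    rw [h5, add_zero] at k0'
    rcases mul_eq_zero.1 k0' with h4 | h4
    · exact h4
    · exact absurd h4 hc
  have hα : v 0 = 0 := by
    have h3 := key2 1
    have h5 : ∑ l : Fin m, v l.succ.succ *
        (c * (if (1 : Fin (m + 2)) = l.succ.succ then g₁ else if (1 : Fin (m + 2)) = 1 then - h l else 0)) = 0 :=
      Finset.sum_eq_zero fun l _ => by rw [hγ l, zero_mul]
    rw [h5, add_zero, Pi.single_eq_same, mul_one] at h3
    exact h3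
  apply hv
  funext k
  refine Fin.cases hα (fun k => ?_) k
  refine Fin.cases hβ (fun l => ?_) k
  exact hγ l

end Pool.Agent.GEL
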