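import Pool.Agent.GEL.KlE
import Pool.Agent.GEL.MinB
import Pool.Agent.GEL.MinC
import Pool.Agent.GEL.DerD
import Pool.Agent.GEL.DerE
import Pool.Agent.GEL.Fac
import Pool.Agent.GEL.Deg

/-!
# Curves in characteristic `p`: the reduced case

PLAN. If `e = 0`, all `ξ j` are constant, `ξ j = C (c x j)`, `ξ 0 = C c`, done. Let `e ≥ 1`; we derive a contradiction.
1. `g₁ := grad d x 1 = x 0^(d-1) - x 1^(d-2) x 2 = 1 - x 1^(d-2) x 2 ≠ 0` by algebraic independence of `x 1, x 2`
   (`m ≥ 2`; here `1, 2 : Fin (m + 2)`, `1 = (0 : Fin (m+1)).succ`, `2 = (1 : Fin (m + 1)).succ`).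
2. For `l : Fin m` let `v_l = g₁ e_(l+2) - (grad d x (l+2)) e_1`; `∑ grad d x j * v_l j = 0`, `v_l 0 = 0`. `der_exists`:
   derivations `D_l` with `D_l (x j) = v_l j`; `der_poly`: `D'_l` on `κ[X]`.
   `D'_l (C (algebraMap ζ)) = 0` for `ζ ∈ k₀`.
3. `rows = Fin.cons ξ (fun l => D'_l ξ)`, `v j = grad d ξ j`. `∑ i, rows l i * v i = 0`: `sum_mul_grad` for the first row;
   for the others `derivation_kl` and `D'_l (υ^p) = p υ^(p-1) D' υ = 0` (`Derivation.leibniz_pow`). So
   `mnr rows i * v j = mnr rows j * v i` (`mnr_mul`).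
4. `v ≠ 0` and `mnr rows 1 ≠ 0`: evaluate at 0 (`mnr_map` with `evalRingHom 0`): `grad d (c x) 1 = c^(d-1) g₁ ≠ 0`
   (`map_grad`, `grad_smul`); `minor_ne` with `c' l = D_l c`, `h l = grad d x (l+2)`.
5. `exists_factor`: let `θ` be irreducible and `θ^r ∣ v j` for all `j`, `r ≥ 1` (for `r = 0` trivial). `grad_order`
   (`hcop` from `hcop` with `q = θ`; `hne`: evaluate at 0: `c x_j = ζ_j c`, so `x_j ∈ k₀` for `j ≥ 1`, contradiction):
   `ξ j = ζ_j ξ 0 + θ^r' w_j`, `1 ≤ r'`, some `v j` is not divisible by `θ^(r'+1)`, so `r ≤ r'`.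
   `minor_order` (with `r' = r'' + 1`, `l₀ = 0`, `l₁ = 1`, `l₂ = 2` in `Fin (m + 1)`, `m ≥ 2`):
   `D' ξ_j = ζ_j D' ξ_0 + r' θ^(r'-1) (D' θ) w_j + θ^r' D' w_j`; so `θ^r' ∣ mnr rows i`, and `θ^r ∣ θ^r'`.
6. `degree_false` with `N = m + 1` (`(D' P).natDegree ≤ P.natDegree` by coefficients).
-/

open Polynomial

namespace Pool.Agent.GEL

private theorem cra_g1 {k₀ κ : Type*} [Field k₀] [Field κ] [Algebra k₀ κ] {m d : ℕ}
    (x : Fin (m + 4) → κ) (hx0 : x 0 = 1)
    (hind : AlgebraicIndependent k₀ fun i : Fin (m + 3) => x i.succ) : grad d x 1 ≠ 0 := by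
  intro h
  have e0 : (1 : Fin (m + 4)) - 1 = 0 := sub_self _
  have e1 : (1 : Fin (m + 4)) = (0 : Fin (m + 3)).succ := rfl
  have e2 : (1 : Fin (m + 4)) + 1 = (1 : Fin (m + 3)).succ := rfl
  have h1 : (1 : κ) - x (0 : Fin (m + 3)).succ ^ (d - 2) * x (1 : Fin (m + 3)).succ = 0 := by
    have h2 : grad d x 1 = x ((1 : Fin (m + 4)) - 1) ^ (d - 1) - x 1 ^ (d - 2) * x (1 + 1) := rfl
    rw [h2, e0, hx0, one_pow, e2] at h
    exact h
  have h3 : MvPolynomial.aeval (fun i : Fin (m + 3) => x i.succ)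
      ((1 : MvPolynomial (Fin (m + 3)) k₀) - MvPolynomial.X 0 ^ (d - 2) * MvPolynomial.X 1) =
      MvPolynomial.aeval (fun i : Fin (m + 3) => x i.succ) (0 : MvPolynomial (Fin (m + 3)) k₀) := by
    rw [map_sub, map_mul, map_pow, map_one, MvPolynomial.aeval_X, MvPolynomial.aeval_X, map_zero]
    exact h1
  have h4 := hind h3
  have h5 := congrArg (MvPolynomial.aeval (fun _ : Fin (m + 3) => (0 : k₀))) h4
  rw [map_sub, map_mul, map_pow, map_one, MvPolynomial.aeval_X, MvPolynomial.aeval_X, map_zero,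
    mul_zero, sub_zero] at h5
  exact one_ne_zero h5

private theorem cra_x1 {k₀ κ : Type*} [Field k₀] [Field κ] [Algebra k₀ κ] {m : ℕ}
    (x : Fin (m + 4) → κ) (hind : AlgebraicIndependent k₀ fun i : Fin (m + 3) => x i.succ)
    (a : k₀) : x 1 ≠ algebraMap k₀ κ a := by
  intro h
  have e1 : (1 : Fin (m + 4)) = (0 : Fin (m + 3)).succ := rfl
  have h3 : MvPolynomial.aeval (fun i : Fin (m + 3) => x i.succ)
      (MvPolynomial.X 0 : MvPolynomial (Fin (m + 3)) k₀) =
      MvPolynomial.aeval (fun i : Fin (m + 3) => x i.succ)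
        (MvPolynomial.C a : MvPolynomial (Fin (m + 3)) k₀) := by
    rw [MvPolynomial.aeval_X, MvPolynomial.aeval_C]
    exact h
  have h4 := hind h3
  have h5 := congrArg (MvPolynomial.aeval (fun _ : Fin (m + 3) => a + 1)) h4
  rw [MvPolynomial.aeval_X, MvPolynomial.aeval_C] at h5
  have h6 : a + 1 = a := h5
  exact one_ne_zero (left_eq_add.1 h6.symm)

private theorem cra_sum {κ : Type*} [Field κ] {m : ℕ} (g : Fin (m + 4) → κ) (l : Fin (m + 2)) :
    ∑ j, g j * (if j = l.succ.succ then g 1 else if j = 1 then - g l.succ.succ else 0) = 0 := by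
  have hne : (1 : Fin (m + 4)) ≠ l.succ.succ := by
    intro h
    have h2 : (0 : Fin (m + 3)).succ = l.succ.succ := h
    have h1 : (0 : Fin (m + 3)) = l.succ := Fin.succ_injective _ h2
    exact (Fin.succ_ne_zero l) h1.symm
  have h : ∀ j : Fin (m + 4), g j * (if j = l.succ.succ then g 1 else
      if j = 1 then - g l.succ.succ else 0) =
      (if j = l.succ.succ then g l.succ.succ * g 1 else 0) +
        (if j = 1 then - (g l.succ.succ * g 1) else 0) := by
    intro j
    by_cases h1 : j = l.succ.succ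
    · have h2 : j ≠ 1 := fun h3 => hne (h3.symm.trans h1)
      rw [if_pos h1, if_pos h1, if_neg h2, add_zero, h1]
    · by_cases h2 : j = 1
      · rw [if_neg h1, if_neg h1, if_pos h2, if_pos h2, h2]
        ring
      · rw [if_neg h1, if_neg h1, if_neg h2, if_neg h2]
        ring
  rw [Finset.sum_congr rfl fun j _ => h j, Finset.sum_add_distrib, Finset.sum_ite_eq',
    Finset.sum_ite_eq']
  simp

private theorem cra_deg {κ : Type*} [Field κ] (D : κ → κ) (hD0 : D 0 = 0) (P Q : κ[X])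
    (h : ∀ i, Q.coeff i = D (P.coeff i)) {e : ℕ} (he : P.natDegree ≤ e) : Q.natDegree ≤ e := by
  rw [natDegree_le_iff_coeff_eq_zero]
  intro i hi
  rw [h, coeff_eq_zero_of_natDegree_lt (lt_of_le_of_lt he hi), hD0]

private theorem cra_row {k₀ κ : Type*} [Field k₀] [Field κ] [Algebra k₀ κ]
    (D : Derivation k₀ κ[X] κ[X]) (a : k₀) (u θ w : κ[X]) (r : ℕ) :
    D (C (algebraMap k₀ κ a) * u + θ ^ (r + 1) * w) =
      D u * C (algebraMap k₀ κ a) + θ ^ r * ((((r : κ[X]) + 1) * D θ) * w) +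
        θ ^ (r + 1) * D w := by
  have h1 : D (C (algebraMap k₀ κ a)) = 0 := D.map_algebraMap a
  rw [map_add, Derivation.leibniz, Derivation.leibniz, Derivation.leibniz_pow, h1]
  simp only [smul_eq_mul, nsmul_eq_mul, mul_zero, add_zero, Nat.add_sub_cancel]
  push_cast
  ring

theorem curve_reduced {k₀ κ : Type*} [Field k₀] [IsAlgClosed k₀] [Field κ] [Algebra k₀ κ] {p : ℕ}
    [Fact p.Prime] [CharP κ p] {m d : ℕ} (hm : 2 ≤ m) (hd : p ∣ d) (hmd : m + 3 ≤ d)
    (hpn : ¬ p ∣ m + 2) (x : Fin (m + 2) → κ) (y : κ) (hx0 : x 0 = 1)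
    (hind : AlgebraicIndependent k₀ fun i : Fin (m + 1) => x i.succ) (hy : y ^ p = kl d x)
    (hsep : Algebra.IsSeparable ↥(IntermediateField.adjoin k₀ (insert y (Set.range x))) κ)
    (ξ : Fin (m + 2) → κ[X]) (υ : κ[X]) (hυ : υ ^ p = kl d ξ) (c : κ) (hc : c ≠ 0)
    (h0 : ∀ i, (ξ i).eval 0 = c * x i) (hcop : ∀ q : κ[X], (∀ i, q ∣ ξ i) → IsUnit q) (e : ℕ)
    (he : ∀ i, (ξ i).natDegree ≤ e) (hg : ∃ j, grad d (fun i => (ξ i).coeff e) j ≠ 0) (j : Fin (m + 2)) :
    ξ j = C (x j) * ξ 0 := by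
  obtain ⟨m, rfl⟩ : ∃ m', m = m' + 2 := ⟨m - 2, by omega⟩
  rcases Nat.eq_zero_or_pos e with he0 | hepos
  · -- constants
    have hcst : ∀ i, ξ i = C (c * x i) := by
      intro i
      have h1 : (ξ i).natDegree = 0 := by
        have := he i
        omega
      rw [eq_C_of_natDegree_eq_zero h1, coeff_zero_eq_eval_zero, h0 i]
    rw [hcst j, hcst 0, hx0, mul_one, ← C_mul, mul_comm]
  · exfalso
    have hd2 : 2 ≤ d := by omega
    have hd3 : 3 ≤ d := by omega
    have hg1 : grad d x 1 ≠ 0 := cra_g1 (k₀ := k₀) x hx0 hind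
    have hdκ : (d : κ[X]) = 0 := by
      obtain ⟨q, rfl⟩ := hd
      have h1 : (p : κ[X]) = 0 := CharP.cast_eq_zero κ[X] p
      rw [Nat.cast_mul, h1, zero_mul]
    have hpκ : (p : κ[X]) = 0 := CharP.cast_eq_zero κ[X] p
    -- derivations
    obtain ⟨vv, hvv⟩ : ∃ vv : Fin (m + 2) → Fin (m + 4) → κ, ∀ l j, vv l j =
        if j = l.succ.succ then grad d x 1 else if j = 1 then - grad d x l.succ.succ else 0 :=
      ⟨fun l j => if j = l.succ.succ then grad d x 1 else
        if j = 1 then - grad d x l.succ.succ else 0, fun l j => rfl⟩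
    have hDex : ∀ l : Fin (m + 2), ∃ D : Derivation k₀ κ κ, ∀ j, D (x j) = vv l j := by
      intro l
      refine der_exists hd hd2 x y hx0 hind hy hsep (vv l) ?_ ?_
      · rw [hvv, if_neg (fun h => (Fin.succ_ne_zero _) h.symm), if_neg (fun h => ?_)]
        have h2 : (0 : Fin (m + 4)) = (0 : Fin (m + 3)).succ := h
        exact (Fin.succ_ne_zero _) h2.symm
      · have h1 := cra_sum (grad d x) l
        rw [← h1]
        exact Finset.sum_congr rfl fun j _ => by rw [hvv]
    choose D hD using hDex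
    have hD'ex : ∀ l : Fin (m + 2), ∃ D' : Derivation k₀ κ[X] κ[X],
        ∀ (P : κ[X]) (i : ℕ), (D' P).coeff i = D l (P.coeff i) := fun l => der_poly (D l)
    choose D' hD' using hD'ex
    obtain ⟨rows, hrows0, hrowsS⟩ : ∃ rows : Fin (m + 3) → Fin (m + 4) → κ[X],
        (∀ i, rows 0 i = ξ i) ∧ (∀ l i, rows (Fin.succ l) i = D' l (ξ i)) := by
      refine ⟨Fin.cons ξ (fun l i => D' l (ξ i)), fun i => ?_, fun l i => ?_⟩
      · rw [Fin.cons_zero]
      · rw [Fin.cons_succ]
    -- orthogonality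
    have horth : ∀ l, ∑ i, rows l i * grad d ξ i = 0 := by
      intro l
      refine Fin.cases ?_ (fun l => ?_) l
      · rw [← sum_mul_grad hd2 ξ]
        exact Finset.sum_congr rfl fun i _ => by rw [hrows0]
      · have h1 := derivation_kl (D' l) hd2 hdκ ξ
        have h2 : D' l (kl d ξ) = 0 := by
          rw [← hυ, Derivation.leibniz_pow]
          rw [nsmul_eq_mul, hpκ, zero_mul]
        rw [h2] at h1
        rw [h1]
        refine Finset.sum_congr rfl fun i _ => ?_
        rw [hrowsS, smul_eq_mul, mul_comm]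
    have hprop : ∀ i j, mnr rows i * grad d ξ j = mnr rows j * grad d ξ i :=
      fun i j => mnr_mul rows (grad d ξ) horth i j
    -- values at 0
    have hev : ∀ i, evalRingHom (0 : κ) (ξ i) = c * x i := fun i => by
      rw [coe_evalRingHom]
      exact h0 i
    have hm1 : mnr rows 1 ≠ 0 := by
      intro h
      have h1 := mnr_map (evalRingHom (0 : κ)) rows 1
      rw [h, map_zero] at h1
      refine minor_ne (m := m + 2) x hx0 (grad d x 1) c hg1 hc
        (fun l => grad d x l.succ.succ) (fun l => D l c)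
        (fun l j => evalRingHom (0 : κ) (rows l j)) (fun i => ?_) (fun l i => ?_) h1.symm
      · rw [hrows0, hev]
      · rw [hrowsS, coe_evalRingHom, ← coeff_zero_eq_eval_zero, hD', coeff_zero_eq_eval_zero, h0,
          Derivation.leibniz, hD, hvv, smul_eq_mul, smul_eq_mul, add_comm]
        congr 1
        rw [mul_comm]
    have hv0 : grad d ξ ≠ 0 := by
      intro h
      have h1 := map_grad (evalRingHom (0 : κ)) d ξ 1
      rw [h, Pi.zero_apply, map_zero] at h1
      have h2 : grad d (fun j => evalRingHom (0 : κ) (ξ j)) 1 =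
          grad d (fun j => c * x j) 1 := by
        congr 1
        funext i
        exact hev i
      rw [h2, grad_smul hd2] at h1
      exact mul_ne_zero (pow_ne_zero _ hc) hg1 h1.symm
    -- local divisibility
    have hloc : ∀ θ : κ[X], Irreducible θ → ∀ r : ℕ, (∀ j, θ ^ r ∣ grad d ξ j) →
        ∀ i, θ ^ r ∣ mnr rows i := by
      intro θ hθ r hr i
      rcases Nat.eq_zero_or_pos r with hr0 | hr0
      · rw [hr0, pow_zero]
        exact one_dvd _
      · have hcop' : ∃ i, ¬ θ ∣ ξ i := by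
          by_contra hcon
          push Not at hcon
          exact hθ.not_isUnit (hcop θ hcon)
        have hdvd : ∀ j, θ ∣ grad d ξ j := fun j =>
          (dvd_pow_self θ (Nat.pos_iff_ne_zero.1 hr0)).trans (hr j)
        have hne : ∀ ζ : Fin (m + 4) → k₀, ∃ j, ξ j ≠ C (algebraMap k₀ κ (ζ j)) * ξ 0 := by
          intro ζ
          refine ⟨1, fun h => ?_⟩
          have h1 := congrArg (eval (0 : κ)) h
          rw [eval_mul, eval_C, h0, h0, hx0, mul_one, mul_comm] at h1
          exact cra_x1 x hind (ζ 1) (mul_right_cancel₀ hc h1)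
        obtain ⟨hθ0, ζ, r', w, hr1, hξw, j₁, hj₁⟩ :=
          grad_order hd hd3 hpn ξ θ hθ hcop' hdvd hne
        obtain ⟨r'', rfl⟩ : ∃ r'', r' = r'' + 1 := ⟨r' - 1, by omega⟩
        have hle : r ≤ r'' + 1 := by
          by_contra hcon
          push Not at hcon
          exact hj₁ ((pow_dvd_pow θ (by omega)).trans (hr j₁))
        refine (pow_dvd_pow θ hle).trans ?_
        refine minor_order θ hθ.prime rows 0 (Fin.succ 0) (Fin.succ 1)
          (fun h => (Fin.succ_ne_zero _) h.symm) (fun h => (Fin.succ_ne_zero _) h.symm)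
          (fun h => ?_) r'' (ξ 0) (D' 0 (ξ 0)) (D' 1 (ξ 0))
          (((r'' : κ[X]) + 1) * D' 0 θ) (((r'' : κ[X]) + 1) * D' 1 θ)
          (fun i => C (algebraMap k₀ κ (ζ i))) w (fun i => D' 0 (w i)) (fun i => D' 1 (w i)) hθ0
          (fun i => ?_) (fun i => ?_) (fun i => ?_) i
        · have h1 : (0 : Fin (m + 2)) = 1 := Fin.succ_injective _ h
          exact zero_ne_one h1
        · rw [hrows0, hξw i, mul_comm (ξ 0)]
        · rw [hrowsS, hξw i, cra_row]
        · rw [hrowsS, hξw i, cra_row]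
    obtain ⟨ψ, hψ⟩ := exists_factor (mnr rows) (grad d ξ) hv0 hprop hloc
    refine degree_false (N := m + 3) (d := d) (e := e) (by omega) hd2 hepos ξ he rows ?_ ψ hψ
      ⟨1, hm1⟩ hg
    intro l j
    refine Fin.cases ?_ (fun l => ?_) l
    · rw [hrows0]
      exact he j
    · rw [hrowsS]
      exact cra_deg (D l) (map_zero _) (ξ j) _ (hD' l (ξ j)) (he j)

end Pool.Agent.GEL
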