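import Pool.Agent.GEL.KlA

/-!
# Dividing a curve by the greatest common divisor of its coordinates
-/

open Polynomial

namespace Pool.Agent.GEL

theorem gcd_curve {κ : Type*} [Field κ] {n p a : ℕ} (hp : p ≠ 0) (ha : 1 ≤ p * a)
    (ξ : Fin (n + 1) → κ[X]) (hξ : ξ ≠ 0) (υ : κ[X]) (hυ : υ ^ p = kl (p * a) ξ) :
    ∃ (g : κ[X]) (ξ' : Fin (n + 1) → κ[X]) (υ' : κ[X]), g ≠ 0 ∧ (∀ i, ξ i = g * ξ' i) ∧
      υ' ^ p = kl (p * a) ξ' ∧ ∀ q : κ[X], (∀ i, q ∣ ξ' i) → IsUnit q := by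
  obtain ⟨g, hg⟩ := (IsPrincipalIdealRing.principal (Ideal.span (Set.range ξ))).principal
  have hg' : Ideal.span (Set.range ξ) = Ideal.span {g} := hg
  have hd : ∀ i, g ∣ ξ i := by
    intro i
    rw [← Ideal.mem_span_singleton, ← hg']
    exact Ideal.subset_span ⟨i, rfl⟩
  choose ξ' hξ' using hd
  have hg0 : g ≠ 0 := by
    rintro rfl
    apply hξ
    funext i
    rw [hξ' i, zero_mul]
    rfl
  have hgp : (g ^ a) ^ p ≠ 0 := pow_ne_zero _ (pow_ne_zero _ hg0)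
  have e1 : υ ^ p = (g ^ a) ^ p * kl (p * a) ξ' := by
    rw [hυ, ← pow_mul, mul_comm a p, ← kl_smul ha]
    congr 1
    funext j
    exact hξ' j
  have h2 : g ^ a ∣ υ := by
    rw [← IsIntegrallyClosed.pow_dvd_pow_iff hp, e1]
    exact dvd_mul_right _ _
  obtain ⟨υ', hυ'⟩ := h2
  refine ⟨g, ξ', υ', hg0, hξ', ?_, ?_⟩
  · rw [hυ', mul_pow] at e1
    exact mul_left_cancel₀ hgp e1
  · intro q hq
    have h3 : Ideal.span (Set.range ξ) ≤ Ideal.span {q * g} := by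
      rw [Ideal.span_le]
      rintro _ ⟨i, rfl⟩
      obtain ⟨r, hr⟩ := hq i
      rw [SetLike.mem_coe, Ideal.mem_span_singleton, hξ' i, hr]
      exact ⟨r, by ring⟩
    have h4 : g ∈ Ideal.span {q * g} := h3 (hg' ▸ Ideal.mem_span_singleton_self g)
    rw [Ideal.mem_span_singleton] at h4
    obtain ⟨r, hr⟩ := h4
    refine IsUnit.of_mul_eq_one r ?_
    apply mul_left_cancel₀ hg0
    rw [mul_one]
    conv_rhs => rw [hr]
    ring

end Pool.Agent.GEL
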