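import Pool.Agent.GEL.Tools

/-!
# Moebius transformations of polynomials

`moeb b e P = ∑_{l ≤ e} P_l s^l (1 + b s)^(e - l) = (1 + b s)^e P(s / (1 + b s))` for `natDegree P ≤ e`
(`moeb_eval`); identities between polynomials are checked at the infinitely many `s` with `1 + b s ≠ 0`.
-/

open Polynomial

namespace Pool.Agent.GEL

private lemma moe_lin {F : Type*} [Field F] (b : F) : (1 + C b * X : F[X]).natDegree ≤ 1 := by
  refine (natDegree_add_le _ _).trans (max_le ?_ ?_)
  · rw [natDegree_one]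
    exact Nat.zero_le 1
  · exact (natDegree_C_mul_le b X).trans natDegree_X_le

private lemma moe_inf {F : Type*} [Field F] [Infinite F] (b : F) {S : Set F}
    (h : ∀ s, 1 + b * s ≠ 0 → s ∈ S) : S.Infinite := by
  refine Set.Infinite.mono ?_ (Set.finite_singleton (-b⁻¹)).infinite_compl
  intro s hs
  refine h s fun h0 => hs ?_
  rw [Set.mem_singleton_iff]
  have hb : b ≠ 0 := by
    rintro rfl
    rw [zero_mul, add_zero] at h0
    exact one_ne_zero h0
  field_simp
  linear_combination h0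

theorem moeb_eval_zero {F : Type*} [Field F] (b : F) (e : ℕ) (P : F[X]) :
    (moeb b e P).eval 0 = P.eval 0 := by
  unfold moeb
  rw [eval_finsetSum, Finset.sum_eq_single 0]
  · simp [coeff_zero_eq_eval_zero]
  · intro l _ hl
    simp [hl]
  · intro h
    exact absurd (Finset.mem_range.2 (Nat.succ_pos e)) h

theorem moeb_natDegree_le {F : Type*} [Field F] (b : F) (e : ℕ) (P : F[X]) :
    (moeb b e P).natDegree ≤ e := by
  unfold moeb
  refine natDegree_sum_le_of_forall_le _ _ fun l hl => ?_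
  have hl' : l ≤ e := Nat.lt_succ_iff.1 (Finset.mem_range.1 hl)
  refine natDegree_mul_le.trans ?_
  have h1 : (C (P.coeff l) * X ^ l : F[X]).natDegree ≤ l := natDegree_C_mul_X_pow_le _ _
  have h2 : ((1 + C b * X : F[X]) ^ (e - l)).natDegree ≤ (e - l) * 1 :=
    natDegree_pow_le_of_le (e - l) (moe_lin b)
  omega

theorem moeb_C_mul {F : Type*} [Field F] (b : F) (e : ℕ) (c : F) (P : F[X]) :
    moeb b e (C c * P) = C c * moeb b e P := by
  unfold moeb
  rw [Finset.mul_sum]
  refine Finset.sum_congr rfl fun l _ => ?_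
  rw [coeff_C_mul, C_mul]
  ring

private lemma moeb_ev {F : Type*} [Field F] (b : F) (e : ℕ) (P : F[X]) (s : F) :
    (moeb b e P).eval s =
      ∑ l ∈ Finset.range (e + 1), P.coeff l * s ^ l * (1 + b * s) ^ (e - l) := by
  unfold moeb
  rw [eval_finsetSum]
  refine Finset.sum_congr rfl fun l _ => ?_
  simp

theorem moeb_eval {F : Type*} [Field F] (b : F) (e : ℕ) (P : F[X]) (hP : P.natDegree ≤ e) (s : F)
    (hs : 1 + b * s ≠ 0) : (moeb b e P).eval s = (1 + b * s) ^ e * P.eval (s / (1 + b * s)) := by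
  rw [moeb_ev, eval_eq_sum_range' (Nat.lt_succ_iff.2 hP), Finset.mul_sum]
  refine Finset.sum_congr rfl fun l hl => ?_
  have hl' : l ≤ e := Nat.lt_succ_iff.1 (Finset.mem_range.1 hl)
  have h1 : (1 + b * s) ^ e = (1 + b * s) ^ (e - l) * (1 + b * s) ^ l := by
    rw [← pow_add, Nat.sub_add_cancel hl']
  have h2 : (1 + b * s) ^ l ≠ 0 := pow_ne_zero _ hs
  rw [h1, div_pow]
  field_simp

theorem moeb_eval_one {F : Type*} [Field F] (e : ℕ) (P : F[X]) :
    (moeb (-1) e P).eval 1 = P.coeff e := by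
  rw [moeb_ev, Finset.sum_eq_single e]
  · simp
  · intro l hl hle
    have hl' : l ≤ e := Nat.lt_succ_iff.1 (Finset.mem_range.1 hl)
    have h1 : e - l ≠ 0 := by omega
    rw [mul_one, add_neg_cancel, zero_pow h1, mul_zero]
  · intro h
    exact absurd (Finset.mem_range.2 (Nat.lt_succ_self e)) h

theorem moeb_coeff {F : Type*} [Field F] (b : F) (hb : b ≠ 0) (e : ℕ) (P : F[X])
    (hP : P.natDegree ≤ e) : (moeb b e P).coeff e = b ^ e * P.eval b⁻¹ := by
  unfold moeb
  rw [finsetSum_coeff, eval_eq_sum_range' (Nat.lt_succ_iff.2 hP), Finset.mul_sum]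
  refine Finset.sum_congr rfl fun l hl => ?_
  have hl' : l ≤ e := Nat.lt_succ_iff.1 (Finset.mem_range.1 hl)
  have h1 : ((1 + C b * X : F[X]) ^ (e - l)).coeff (e - l) = b ^ (e - l) := by
    have h2 := coeff_pow_of_natDegree_le (m := e - l) (moe_lin b)
    rw [mul_one] at h2
    rw [h2]
    simp [coeff_one]
  rw [mul_assoc, coeff_C_mul, coeff_X_pow_mul', if_pos hl', h1]
  have h3 : b ^ e = b ^ (e - l) * b ^ l := by rw [← pow_add, Nat.sub_add_cancel hl']
  have h4 : b ^ l ≠ 0 := pow_ne_zero _ hb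
  rw [h3, inv_pow]
  field_simp

theorem moeb_injective {F : Type*} [Field F] [Infinite F] (b : F) (e : ℕ) (P Q : F[X])
    (hP : P.natDegree ≤ e) (hQ : Q.natDegree ≤ e) (h : moeb b e P = moeb b e Q) : P = Q := by
  refine eq_of_infinite_eval_eq P Q (moe_inf (-b) fun t ht => ?_)
  obtain ⟨u, hu⟩ : ∃ u, u = 1 + -b * t := ⟨_, rfl⟩
  rw [← hu] at ht
  have h1 : 1 + b * (t / u) = u⁻¹ := by
    field_simp
    linear_combination hu
  have h2 : 1 + b * (t / u) ≠ 0 := by
    rw [h1]
    exact inv_ne_zero ht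
  have h3 : t / u / (1 + b * (t / u)) = t := by
    rw [h1]
    field_simp
  have h4 := moeb_eval b e P hP _ h2
  have h5 := moeb_eval b e Q hQ _ h2
  rw [h3] at h4 h5
  rw [h, h5] at h4
  exact (mul_left_cancel₀ (pow_ne_zero _ h2) h4).symm

private lemma hom_sum {R : Type*} [CommRing R] {n N : ℕ} {f : MvPolynomial (Fin (n + 1)) R}
    (hf : f.IsHomogeneous N) {d : Fin (n + 1) →₀ ℕ} (hd : d ∈ f.support) : ∑ i, d i = N := by
  have h1 := hf (MvPolynomial.mem_support_iff.1 hd)
  rw [← h1, Finsupp.weight_apply, Finsupp.sum_fintype]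
  · simp
  · simp

private lemma hom_eval {R A : Type*} [CommRing R] [CommRing A] {n N : ℕ}
    {f : MvPolynomial (Fin (n + 1)) R} (hf : f.IsHomogeneous N) (g : R →+* A) (c : A)
    (x : Fin (n + 1) → A) :
    MvPolynomial.eval₂ g (fun i => c * x i) f = c ^ N * MvPolynomial.eval₂ g x f := by
  rw [MvPolynomial.eval₂_eq', MvPolynomial.eval₂_eq', Finset.mul_sum]
  refine Finset.sum_congr rfl fun d hd => ?_
  rw [← hom_sum hf hd]
  simp only [mul_pow]
  rw [Finset.prod_mul_distrib, Finset.prod_pow_eq_pow_sum]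
  ring

private lemma hom_deg {R F : Type*} [CommRing R] [Field F] [Algebra R F] {n N : ℕ}
    {f : MvPolynomial (Fin (n + 1)) R} (hf : f.IsHomogeneous N) (X : Fin (n + 1) → F[X]) (e : ℕ)
    (hX : ∀ i, (X i).natDegree ≤ e) : (MvPolynomial.aeval X f).natDegree ≤ N * e := by
  rw [MvPolynomial.aeval_def, MvPolynomial.eval₂_eq']
  refine natDegree_sum_le_of_forall_le _ _ fun d hd => ?_
  have h1 : ((algebraMap R F[X]) (MvPolynomial.coeff d f)).natDegree = 0 := by
    rw [Polynomial.algebraMap_apply]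
    exact natDegree_C _
  refine natDegree_mul_le.trans ?_
  rw [h1, zero_add, ← hom_sum hf hd, Finset.sum_mul]
  refine (natDegree_prod_le _ _).trans (Finset.sum_le_sum fun i _ => ?_)
  exact natDegree_pow_le_of_le (d i) (hX i)

private lemma eval_aev {R F : Type*} [CommRing R] [Field F] [Algebra R F] {n : ℕ}
    (f : MvPolynomial (Fin (n + 1)) R) (X : Fin (n + 1) → F[X]) (s : F) :
    (MvPolynomial.aeval X f).eval s =
      MvPolynomial.eval₂ (algebraMap R F) (fun i => (X i).eval s) f := by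
  rw [MvPolynomial.aeval_def]
  have h := MvPolynomial.eval₂_comp_left (evalRingHom s) (algebraMap R F[X]) X f
  rw [coe_evalRingHom] at h
  rw [h]
  have h1 : (evalRingHom s).comp (algebraMap R F[X]) = algebraMap R F := by
    ext r
    rw [RingHom.comp_apply, Polynomial.algebraMap_apply, coe_evalRingHom, eval_C]
  rw [h1]
  rfl

theorem moeb_curve {R F : Type*} [CommRing R] [Field F] [Infinite F] [Algebra R F] {n p a : ℕ}
    (hp : 0 < p) (f : MvPolynomial (Fin (n + 1)) R) (hf : f.IsHomogeneous (p * a))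
    (X : Fin (n + 1) → F[X]) (Y : F[X]) (hY : Y ^ p = MvPolynomial.aeval X f) (e : ℕ)
    (hX : ∀ i, (X i).natDegree ≤ e) (b : F) :
    Y.natDegree ≤ a * e ∧
      (moeb b (a * e) Y) ^ p = MvPolynomial.aeval (fun i => moeb b e (X i)) f := by
  have hdeg : Y.natDegree ≤ a * e := by
    have h1 := hom_deg hf X e hX
    rw [← hY, natDegree_pow, mul_assoc] at h1
    exact Nat.le_of_mul_le_mul_left h1 hp
  refine ⟨hdeg, eq_of_infinite_eval_eq _ _ (moe_inf b fun s hs => ?_)⟩
  show eval s ((moeb b (a * e) Y) ^ p) = eval s (MvPolynomial.aeval (fun i => moeb b e (X i)) f)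
  rw [eval_pow, moeb_eval b _ Y hdeg s hs, eval_aev]
  have h2 : (fun i => (moeb b e (X i)).eval s) =
      fun i => (1 + b * s) ^ e * (X i).eval (s / (1 + b * s)) := by
    funext i
    exact moeb_eval b e (X i) (hX i) s hs
  rw [h2, hom_eval hf, ← eval_aev, ← hY, eval_pow, mul_pow, ← pow_mul, ← pow_mul]
  congr 2
  ring

end Pool.Agent.GEL
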