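import Pool.Agent.GEL.CurA
import Pool.Agent.GEL.Moe
import Pool.Agent.GEL.GcdC

/-!
# Curves in characteristic `p` through the generic point of a purely inseparable covering

A Moebius transformation makes the gradient at infinity nonzero, then the curve is divided by the greatest
common divisor of its coordinates, and `curve_reduced` applies.
-/

open Polynomial

namespace Pool.Agent.GEL

private theorem crb_g1 {k₀ κ : Type*} [Field k₀] [Field κ] [Algebra k₀ κ] {m d : ℕ}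
    (x : Fin (m + 4) → κ) (hx0 : x 0 = 1)
    (hind : AlgebraicIndependent k₀ fun i : Fin (m + 3) => x i.succ) : grad d x 1 ≠ 0 := by
  intro h
  have e0 : (1 : Fin (m + 4)) - 1 = 0 := sub_self _
  have e2 : (1 : Fin (m + 4)) + 1 = (1 : Fin (m + 3)).succ := rfl
  have h1 : (1 : κ) - x (0 : Fin (m + 3)).succ ^ (d - 2) * x (1 : Fin (m + 3)).succ = 0 := by
    have h2 : grad d x 1 = x ((1 : Fin (m + 4)) - 1) ^ (d - 1) - x 1 ^ (d - 2) * x (1 + 1) := rfl
    rw [h2, e0, hx0, one_pow, e2] at h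
    exact h
  have h3 : MvPolynomial.aeval (fun i : Fin (m + 3) => x i.succ)
      ((1 : MvPolynomial (Fin (m + 3)) k₀) - MvPolynomial.X 0 ^ (d - 2) * MvPolynomial.X 1) =
      MvPolynomial.aeval (fun i : Fin (m + 3) => x i.succ) (0 : MvPolynomial (Fin (m + 3)) k₀) := by
    rw [map_sub, map_mul, map_pow, map_one, MvPolynomial.aeval_X, MvPolynomial.aeval_X, map_zero]
    exact h1
  have h4 := hind h3
  have h5 := congrArg (MvPolynomial.aeval (fun _ : Fin (m + 3) => (0 : k₀))) h4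
  rw [map_sub, map_mul, map_pow, map_one, MvPolynomial.aeval_X, MvPolynomial.aeval_X, map_zero,
    mul_zero, sub_zero] at h5
  exact one_ne_zero h5

theorem curve_charp {k₀ κ : Type*} [Field k₀] [IsAlgClosed k₀] [Field κ] [Algebra k₀ κ] {p : ℕ}
    [Fact p.Prime] [CharP κ p] {n a : ℕ} (hn : 3 ≤ n) (ha : n + 2 ≤ p * a) (hpn : ¬ p ∣ n + 1)
    (x : Fin (n + 1) → κ) (y : κ) (hx0 : x 0 = 1)
    (hind : AlgebraicIndependent k₀ fun i : Fin n => x i.succ) (hy : y ^ p = kl (p * a) x)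
    (hsep : Algebra.IsSeparable ↥(IntermediateField.adjoin k₀ (insert y (Set.range x))) κ)
    (ξ : Fin (n + 1) → κ[X]) (υ : κ[X]) (hυ : υ ^ p = kl (p * a) ξ) (c : κ) (hc : c ≠ 0)
    (h0 : ∀ i, (ξ i).eval 0 = c * x i) (j : Fin (n + 1)) : ξ j = C (x j) * ξ 0 := by
  obtain ⟨m, rfl⟩ : ∃ m, n = m + 3 := ⟨n - 3, by omega⟩
  have hinf : Infinite κ := by
    have : Infinite k₀ := inferInstance
    exact Infinite.of_injective _ (algebraMap k₀ κ).injective
  have hp0 : 0 < p := (Fact.out : p.Prime).pos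
  have hd2 : 2 ≤ p * a := by omega
  have hg1 : grad (p * a) x 1 ≠ 0 := crb_g1 (k₀ := k₀) x hx0 hind
  -- the point `b₀`
  have hG : grad (p * a) ξ 1 ≠ 0 := by
    intro h
    have h1 := map_grad (evalRingHom (0 : κ)) (p * a) ξ 1
    rw [h, map_zero] at h1
    have h2 : (fun j => evalRingHom (0 : κ) (ξ j)) = fun j => c * x j := by
      funext i
      rw [coe_evalRingHom]
      exact h0 i
    rw [h2, grad_smul hd2] at h1
    exact mul_ne_zero (pow_ne_zero _ hc) hg1 h1.symm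
  obtain ⟨b₀, hb₀, hGb⟩ : ∃ b₀ : κ, b₀ ≠ 0 ∧ (grad (p * a) ξ 1).eval b₀ ≠ 0 := by
    by_contra hcon
    push Not at hcon
    have h1 : X * grad (p * a) ξ 1 = 0 := by
      refine Polynomial.funext fun r => ?_
      rw [eval_mul, eval_X, eval_zero]
      by_cases hr : r = 0
      · rw [hr, zero_mul]
      · rw [hcon r hr, mul_zero]
    exact mul_ne_zero X_ne_zero hG h1
  obtain ⟨e, he⟩ : ∃ e : ℕ, ∀ i, (ξ i).natDegree ≤ e :=
    ⟨Finset.univ.sup fun i => (ξ i).natDegree, fun i =>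
      Finset.le_sup (f := fun i => (ξ i).natDegree) (Finset.mem_univ i)⟩
  have hb : b₀⁻¹ ≠ 0 := inv_ne_zero hb₀
  -- the Moebius transformation
  obtain ⟨ξ₁, hξ₁⟩ : ∃ ξ₁ : Fin (m + 3 + 1) → κ[X], ∀ i, ξ₁ i = moeb b₀⁻¹ e (ξ i) :=
    ⟨fun i => moeb b₀⁻¹ e (ξ i), fun i => rfl⟩
  have hυ₁ : (moeb b₀⁻¹ (a * e) υ) ^ p = kl (p * a) ξ₁ := by
    have h1 := (moeb_curve (R := κ) (n := m + 3) (p := p) (a := a) hp0
      (klein κ (m + 3) (p * a)) (klein_isHomogeneous (m + 3) (by omega)) ξ υ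
      (by rw [aeval_klein]; exact hυ) e he b₀⁻¹).2
    rw [aeval_klein] at h1
    have h2 : ξ₁ = fun i => moeb b₀⁻¹ e (ξ i) := funext hξ₁
    rw [h2]
    exact h1
  have h0₁ : ∀ i, (ξ₁ i).eval 0 = c * x i := fun i => by
    rw [hξ₁, moeb_eval_zero, h0]
  have hdeg₁ : ∀ i, (ξ₁ i).natDegree ≤ e := fun i => by
    rw [hξ₁]
    exact moeb_natDegree_le _ _ _
  have hgr₁ : grad (p * a) (fun i => (ξ₁ i).coeff e) 1 ≠ 0 := by
    have h1 : (fun i => (ξ₁ i).coeff e) = fun i => b₀⁻¹ ^ e * evalRingHom b₀ (ξ i) := by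
      funext i
      rw [hξ₁, moeb_coeff _ hb _ _ (he i), inv_inv, coe_evalRingHom]
    rw [h1, grad_smul hd2, ← map_grad, coe_evalRingHom]
    exact mul_ne_zero (pow_ne_zero _ (pow_ne_zero _ hb)) hGb
  -- division by the greatest common divisor
  have hne0 : ξ₁ 0 ≠ 0 := by
    intro h
    have h1 := h0₁ 0
    rw [h, eval_zero, hx0, mul_one] at h1
    exact hc h1.symm
  have hne : ξ₁ ≠ 0 := fun h => hne0 (by rw [h]; rfl)
  obtain ⟨g, ξ₂, υ₂, hg, hξ₂, hυ₂, hcop⟩ := gcd_curve (n := m + 3) hp0.ne' (by omega) ξ₁ hne _ hυ₁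
  have hg0 : g.eval 0 ≠ 0 := by
    intro h
    have h1 := h0₁ 0
    rw [hξ₂, eval_mul, h, zero_mul, hx0, mul_one] at h1
    exact hc h1.symm
  have h0₂ : ∀ i, (ξ₂ i).eval 0 = c / g.eval 0 * x i := fun i => by
    have h1 := h0₁ i
    rw [hξ₂, eval_mul] at h1
    rw [div_mul_eq_mul_div, eq_div_iff hg0, mul_comm]
    exact h1
  have hge : g.natDegree ≤ e := by
    have h1 := hdeg₁ 0
    rw [hξ₂, natDegree_mul hg (fun h => hne0 (by rw [hξ₂, h, mul_zero]))] at h1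
    omega
  obtain ⟨e₂, he₂⟩ : ∃ e₂, e = g.natDegree + e₂ := ⟨e - g.natDegree, by omega⟩
  have hdeg₂ : ∀ i, (ξ₂ i).natDegree ≤ e₂ := by
    intro i
    by_cases hi : ξ₂ i = 0
    · rw [hi, natDegree_zero]
      exact Nat.zero_le _
    · have h1 := hdeg₁ i
      rw [hξ₂, natDegree_mul hg hi] at h1
      omega
  have hgr₂ : grad (p * a) (fun i => (ξ₂ i).coeff e₂) 1 ≠ 0 := by
    intro h
    apply hgr₁
    have h1 : (fun i => (ξ₁ i).coeff e) = fun i => g.coeff g.natDegree * (ξ₂ i).coeff e₂ := by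
      funext i
      rw [hξ₂, he₂, coeff_mul_add_eq_of_natDegree_le le_rfl (hdeg₂ i)]
    rw [h1, grad_smul hd2, h, mul_zero]
  have key := curve_reduced (m := m + 2) (d := p * a) (by omega) (dvd_mul_right p a) (by omega)
    hpn x y hx0 hind hy hsep ξ₂ υ₂ hυ₂ (c / g.eval 0) (div_ne_zero hc hg0) h0₂ hcop e₂ hdeg₂
    ⟨1, hgr₂⟩ j
  -- back
  refine moeb_injective b₀⁻¹ e _ _ (he j) ((natDegree_C_mul_le _ _).trans (he 0)) ?_
  rw [moeb_C_mul, ← hξ₁, ← hξ₁, hξ₂ j, hξ₂ 0, key]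
  ring

end Pool.Agent.GEL
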