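import Mathlib

/-!
# Curves through the generic point of a cyclic covering of projective space: definitions

Definitions for the result `MP_872d76_ag.CyclicCovers`.
-/

open MvPolynomial

universe u

namespace Pool.Agent.GEL

/-- The Klein form `x_0^(d-1) x_1 + x_1^(d-1) x_2 + ⋯ + x_n^(d-1) x_0` (the indices are taken
modulo `n + 1`). -/
noncomputable def klein (R : Type*) [CommRing R] (n d : ℕ) : MvPolynomial (Fin (n + 1)) R :=
  ∑ j : Fin (n + 1), X j ^ (d - 1) * X (j + 1)

variable {k : Type u} [Field k] {n : ℕ}

/-- The `L`-points `(x_0 : ⋯ : x_n : y)` of the `p`-cyclic covering `X : y^p = f(x_0, …, x_n)` of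
projective space. If `f` is a form of degree `p * a`, then `(x : y) = (c x : c^a y)`. -/
structure Pt (p : ℕ) (f : MvPolynomial (Fin (n + 1)) k) (L : Type u) [Field L] [Algebra k L] where
  x : Fin (n + 1) → L
  y : L
  ne : x ≠ 0
  eq : y ^ p = aeval x f

variable {p : ℕ} {f : MvPolynomial (Fin (n + 1)) k} {L : Type u} [Field L] [Algebra k L]

/-- `(x : y)` are homogeneous coordinates of the point `P`. -/
def Pt.HasCoords (a : ℕ) (P : Pt p f L) (x : Fin (n + 1) → L) (y : L) : Prop :=
  ∃ c : L, c ≠ 0 ∧ (∀ i, x i = c * P.x i) ∧ y = c ^ a * P.y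

/-- `P` and `P'` are joined by a rational curve over `L`: there is a rational curve
`t ↦ (X_0(t) : ⋯ : X_n(t) : Y(t))` on `X`, defined over `L`, with value `P` at `t = 0` and `P'` at
`t = 1`. -/
def Joined (a : ℕ) (P P' : Pt p f L) : Prop :=
  ∃ (X : Fin (n + 1) → Polynomial L) (Y : Polynomial L), Y ^ p = aeval X f ∧
    P.HasCoords a (fun i => (X i).eval 0) (Y.eval 0) ∧
    P'.HasCoords a (fun i => (X i).eval 1) (Y.eval 1)

/-- R-equivalence of `L`-points: the equivalence relation generated by `Joined`. -/
def REquiv (a : ℕ) : Pt p f L → Pt p f L → Prop := Relation.EqvGen (Joined a)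

/-- `P` is the generic point of `X`, with coordinates `(1, x_1, …, x_n, y)`. -/
structure Pt.IsGeneric (P : Pt p f L) : Prop where
  one : P.x 0 = 1
  indep : AlgebraicIndependent k (fun i : Fin n => P.x i.succ)

/-- The subfield `k(x_0, …, x_n, y)` of `L`. If `P` is the generic point of `X`, this is the
function field `k(X)`. -/
noncomputable def Pt.funField (P : Pt p f L) : IntermediateField k L :=
  IntermediateField.adjoin k (insert P.y (Set.range P.x))

/-- `P` is not contained in a proper closed subset of `X` defined over `k` (equivalently, no form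
over `k` vanishes in the image of `P` in projective space). -/
def Pt.Dominant (P : Pt p f L) : Prop :=
  ∀ (N : ℕ) (g : MvPolynomial (Fin (n + 1)) k), g.IsHomogeneous N → g ≠ 0 → aeval P.x g ≠ 0

/-- `f` is congruent to the Klein form modulo the maximal ideal of a valuation ring of `k` with
residue characteristic `p`. -/
def NearKlein (p a : ℕ) (f : MvPolynomial (Fin (n + 1)) k) : Prop :=
  ∃ V : ValuationSubring k, (p : k) ∈ V.nonunits ∧
    ∀ m, coeff m f - coeff m (klein k n (p * a)) ∈ V.nonunits

/-- Let `P` be the generic point of `X`, with coordinates in the field `L`, so `k(X) ⊆ L`. A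
valuation ring `V` of `L` with residue characteristic `p` is called adapted to `P` if `f` is
congruent to the Klein form, the reductions of `x_1, …, x_n` are algebraically independent over the
residue field of `V ∩ k` (`gauss`: a polynomial over `V ∩ k` whose value at `(x_1, …, x_n)` is in the
maximal ideal has its coefficients in the maximal ideal), and the residue field of `V` is
separable algebraic over the residue field of `V ∩ k(X)` (`sep`: the reduction of each element `α`
is a simple root of the reduction of a polynomial with coefficients in `V ∩ k(X)`). -/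
structure Adapted (a : ℕ) (P : Pt p f L) (V : ValuationSubring L) : Prop where
  char : (p : L) ∈ V.nonunits
  near : ∀ m, algebraMap k L (coeff m f - coeff m (klein k n (p * a))) ∈ V.nonunits
  mem : ∀ i, P.x i ∈ V
  gauss : ∀ g : MvPolynomial (Fin n) k, (∀ m, algebraMap k L (coeff m g) ∈ V) →
    aeval (fun i : Fin n => P.x i.succ) g ∈ V.nonunits →
      ∀ m, algebraMap k L (coeff m g) ∈ V.nonunits
  sep : ∀ α ∈ V, ∃ G : Polynomial L, (∀ i, G.coeff i ∈ P.funField ∧ G.coeff i ∈ V) ∧
    G.eval α ∈ V.nonunits ∧ G.derivative.eval α ∉ V.nonunits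

/-- `P'` and `P` reduce to the same point of `X` modulo the maximal ideal of `V` (for a point `P` with
coordinates in `V` and first coordinate 1): `P'` has homogeneous coordinates which are congruent to
those of `P`. -/
def SameReduction (a : ℕ) (V : ValuationSubring L) (P P' : Pt p f L) : Prop :=
  ∃ c : L, c ≠ 0 ∧ (∀ i, c * P'.x i - P.x i ∈ V.nonunits) ∧ c ^ a * P'.y - P.y ∈ V.nonunits

end Pool.Agent.GEL
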