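import Mathlib

/-!
# Extension of derivations to separable algebraic extensions

PLAN. `κ / E` is separable algebraic, so `Algebra.FormallyEtale E κ` (`Algebra.FormallyEtale.of_isSeparable`),
hence `Ω[κ⁄k₀] = κ ⊗[E] Ω[E⁄k₀]` (`KaehlerDifferential.isBaseChange_of_formallyEtale` or
`KaehlerDifferential.tensorKaehlerEquivOfFormallyEtale`, Mathlib/RingTheory/Etale/Kaehler.lean). The derivation
`δ : E → κ` is an `E`-linear map `Ω[E⁄k₀] → κ` (`Derivation.liftKaehlerDifferential`), extend it to a `κ`-linear map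
`Ω[κ⁄k₀] → κ` and compose with `KaehlerDifferential.D k₀ κ`.
-/

namespace Pool.Agent.GEL

theorem ext_sep {k₀ E κ : Type*} [Field k₀] [Field E] [Field κ] [Algebra k₀ E] [Algebra E κ]
    [Algebra k₀ κ] [IsScalarTower k₀ E κ] [Algebra.IsSeparable E κ] (δ : Derivation k₀ E κ) :
    ∃ D : Derivation k₀ κ κ, ∀ e : E, D (algebraMap E κ e) = δ e := by
  have : Algebra.FormallyEtale E κ := Algebra.FormallyEtale.of_isSeparable E κ
  have hb := KaehlerDifferential.isBaseChange_of_formallyEtale k₀ E κ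
  refine ⟨(hb.lift δ.liftKaehlerDifferential).compDer (KaehlerDifferential.D k₀ κ), fun e => ?_⟩
  have h1 : KaehlerDifferential.D k₀ κ (algebraMap E κ e) =
      KaehlerDifferential.map k₀ k₀ E κ (KaehlerDifferential.D k₀ E e) :=
    (KaehlerDifferential.map_D k₀ k₀ E κ e).symm
  show hb.lift δ.liftKaehlerDifferential (KaehlerDifferential.D k₀ κ (algebraMap E κ e)) = δ e
  rw [h1, hb.lift_eq]
  exact δ.liftKaehlerDifferential_comp_D e

end Pool.Agent.GEL
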