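import Pool.Agent.GEL.GFr

/-!
# Points with the same reduction as the generic point are dominant

A form `g ≠ 0` over `k` is divided by its coefficient of largest valuation; if it vanishes at `P'.x` then
its value at `P.x` is in the maximal ideal, so by `gauss` all coefficients of `g(1, X_1, …, X_n)` are in the
maximal ideal; these are the coefficients of the form `g`, one of which is 1.
-/

open MvPolynomial

universe u

namespace Pool.Agent.GEL

private lemma dom_deg {R : Type*} [CommRing R] {n N : ℕ} {f : MvPolynomial (Fin (n + 1)) R}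
    (hf : f.IsHomogeneous N) {d : Fin (n + 1) →₀ ℕ} (hd : d ∈ f.support) : ∑ i, d i = N := by
  have h1 := hf (MvPolynomial.mem_support_iff.1 hd)
  rw [← h1, Finsupp.weight_apply, Finsupp.sum_fintype]
  · simp
  · simp

/-- the value at a point with coordinates in `V` of the form with the coefficients `c` -/
private noncomputable def EV {L : Type u} [Field L] (V : ValuationSubring L) {n : ℕ}
    (s : Finset (Fin (n + 1) →₀ ℕ)) (c : (Fin (n + 1) →₀ ℕ) → V) (z : Fin (n + 1) → V) : V :=
  ∑ m ∈ s, c m * ∏ i, z i ^ m i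

private lemma EV_res {L : Type u} [Field L] (V : ValuationSubring L) {n : ℕ}
    (s : Finset (Fin (n + 1) →₀ ℕ)) (c : (Fin (n + 1) →₀ ℕ) → V) (z z' : Fin (n + 1) → V)
    (h : ∀ i, IsLocalRing.residue V (z i) = IsLocalRing.residue V (z' i)) :
    IsLocalRing.residue V (EV V s c z) = IsLocalRing.residue V (EV V s c z') := by
  unfold EV
  rw [map_sum, map_sum]
  refine Finset.sum_congr rfl fun m _ => ?_
  rw [map_mul, map_mul, map_prod, map_prod]
  congr 1
  refine Finset.prod_congr rfl fun i _ => ?_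
  rw [map_pow, map_pow, h i]

private lemma EV_coe {L : Type u} [Field L] (V : ValuationSubring L) {n : ℕ}
    (s : Finset (Fin (n + 1) →₀ ℕ)) (c : (Fin (n + 1) →₀ ℕ) → V) (z : Fin (n + 1) → V) :
    ((EV V s c z : V) : L) = ∑ m ∈ s, (c m : L) * ∏ i, (z i : L) ^ m i := by
  unfold EV
  have h1 : ∀ w : V, (w : L) = V.subtype w := fun _ => rfl
  rw [h1, map_sum]
  refine Finset.sum_congr rfl fun m _ => ?_
  rw [map_mul, map_prod]
  congr 1

theorem dominant_of_sameReduction {k : Type u} [Field k] {n p a : ℕ}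
    {f : MvPolynomial (Fin (n + 1)) k} {L : Type u} [Field L] [Algebra k L] {P : Pt p f L}
    {V : ValuationSubring L} (hP : P.IsGeneric) (hV : Adapted a P V) (P' : Pt p f L)
    (h : SameReduction a V P P') : P'.Dominant := by
  classical
  intro N g hg hg0 hzero
  obtain ⟨c, hc, hcx, -⟩ := h
  have hxV : ∀ i, P.x i ∈ V := hV.mem
  have hnV : ∀ z ∈ V.nonunits, z ∈ V := fun z hz => V.nonunits_subset hz
  have hcV : ∀ i, c * P'.x i ∈ V := fun i => by
    have h1 := V.add_mem _ _ (hnV _ (hcx i)) (hxV i)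
    rwa [sub_add_cancel] at h1
  obtain ⟨m0, hm0, hmax⟩ := g.support.exists_max_image
    (fun m => V.valuation (algebraMap k L (coeff m g))) (support_nonempty.2 hg0)
  have ha0 : coeff m0 g ≠ 0 := mem_support_iff.1 hm0
  have hval0 : V.valuation (algebraMap k L (coeff m0 g)) ≠ 0 := by
    rw [Ne, map_eq_zero, map_eq_zero]
    exact ha0
  have hcoV : ∀ m, algebraMap k L ((coeff m0 g)⁻¹ * coeff m g) ∈ V := by
    intro m
    by_cases hm : m ∈ g.support
    · rw [← V.valuation_le_one_iff, map_mul, map_inv₀, map_mul, map_inv₀]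
      calc (V.valuation (algebraMap k L (coeff m0 g)))⁻¹ * V.valuation (algebraMap k L (coeff m g))
          ≤ (V.valuation (algebraMap k L (coeff m0 g)))⁻¹ *
            V.valuation (algebraMap k L (coeff m0 g)) := mul_le_mul_right (hmax m hm) _
        _ = 1 := inv_mul_cancel₀ hval0
    · rw [notMem_support_iff.1 hm, mul_zero, map_zero]
      exact V.zero_mem
  obtain ⟨co, hco⟩ : ∃ co : (Fin (n + 1) →₀ ℕ) → V,
      ∀ m, (co m : L) = algebraMap k L ((coeff m0 g)⁻¹ * coeff m g) :=
    ⟨fun m => ⟨_, hcoV m⟩, fun _ => rfl⟩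
  have hE : ∀ z : Fin (n + 1) → V, ((EV V g.support co z : V) : L) =
      algebraMap k L (coeff m0 g)⁻¹ * aeval (fun i => (z i : L)) g := by
    intro z
    rw [EV_coe, aeval_def, eval₂_eq', Finset.mul_sum]
    refine Finset.sum_congr rfl fun m _ => ?_
    rw [hco, map_mul, mul_assoc]
  -- the value at `P'.x` is zero
  have h0 : aeval (fun i => c * P'.x i) g = 0 := by
    have h1 : aeval (fun i => c * P'.x i) g = c ^ N * aeval P'.x g := by
      rw [aeval_def, aeval_def, eval₂_eq', eval₂_eq', Finset.mul_sum]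
      refine Finset.sum_congr rfl fun d hd => ?_
      rw [← dom_deg hg hd]
      simp only [mul_pow]
      rw [Finset.prod_mul_distrib, Finset.prod_pow_eq_pow_sum]
      ring
    rw [h1, hzero, mul_zero]
  have hres : ∀ i, IsLocalRing.residue V ⟨P.x i, hxV i⟩ =
      IsLocalRing.residue V ⟨c * P'.x i, hcV i⟩ := by
    intro i
    rw [← sub_eq_zero, ← map_sub, IsLocalRing.residue_eq_zero_iff,
      ← ValuationSubring.coe_mem_nonunits_iff]
    show P.x i - c * P'.x i ∈ V.nonunits
    have h1 : (⟨c * P'.x i, hcV i⟩ - ⟨P.x i, hxV i⟩ : V) ∈ IsLocalRing.maximalIdeal V := by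
      rw [← ValuationSubring.coe_mem_nonunits_iff]
      exact hcx i
    have h2 := (IsLocalRing.maximalIdeal V).neg_mem h1
    rw [neg_sub, ← ValuationSubring.coe_mem_nonunits_iff] at h2
    exact h2
  have hEP : ((EV V g.support co (fun i => ⟨P.x i, hxV i⟩) : V) : L) ∈ V.nonunits := by
    rw [ValuationSubring.coe_mem_nonunits_iff, ← IsLocalRing.residue_eq_zero_iff,
      EV_res V g.support co _ _ hres, IsLocalRing.residue_eq_zero_iff,
      ← ValuationSubring.coe_mem_nonunits_iff, hE]
    show algebraMap k L (coeff m0 g)⁻¹ * aeval (fun i => c * P'.x i) g ∈ V.nonunits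
    rw [h0, mul_zero]
    have h3 : ((0 : V) : L) ∈ V.nonunits := by
      rw [ValuationSubring.coe_mem_nonunits_iff]
      exact Ideal.zero_mem _
    exact h3
  -- dehomogenization
  obtain ⟨g₁, hg₁⟩ : ∃ g₁ : MvPolynomial (Fin n) k,
      g₁ = ∑ m ∈ g.support, monomial (Finsupp.tail m) ((coeff m0 g)⁻¹ * coeff m g) := ⟨_, rfl⟩
  have hcoeff : ∀ μ, coeff μ g₁ =
      ∑ m ∈ g.support, if Finsupp.tail m = μ then (coeff m0 g)⁻¹ * coeff m g else 0 := by
    intro μ
    rw [hg₁, coeff_sum]
    refine Finset.sum_congr rfl fun m _ => ?_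
    rw [coeff_monomial]
  have hV1 : ∀ μ, algebraMap k L (coeff μ g₁) ∈ V := by
    intro μ
    rw [hcoeff, map_sum]
    refine sum_mem fun m _ => ?_
    split_ifs
    · exact hcoV m
    · rw [map_zero]
      exact V.zero_mem
  have hval : aeval (fun i : Fin n => P.x i.succ) g₁ =
      ((EV V g.support co (fun i => ⟨P.x i, hxV i⟩) : V) : L) := by
    rw [EV_coe, hg₁, map_sum]
    refine Finset.sum_congr rfl fun m _ => ?_
    rw [aeval_monomial, hco, Fin.prod_univ_succ]
    show _ = _ * (P.x 0 ^ m 0 * ∏ i : Fin n, P.x i.succ ^ m i.succ)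
    rw [hP.one, one_pow, one_mul, Finsupp.prod_fintype]
    · rfl
    · intro i
      exact pow_zero _
  have hfin := hV.gauss g₁ hV1 (by rw [hval]; exact hEP) (Finsupp.tail m0)
  have hone : coeff (Finsupp.tail m0) g₁ = 1 := by
    rw [hcoeff, Finset.sum_eq_single m0]
    · rw [if_pos rfl, inv_mul_cancel₀ ha0]
    · intro m hm hne
      refine if_neg fun ht => hne ?_
      have h1 := dom_deg hg hm
      have h2 := dom_deg hg hm0
      rw [Fin.sum_univ_succ] at h1 h2
      have h3 : ∀ i : Fin n, m i.succ = m0 i.succ := fun i => by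
        have := DFunLike.congr_fun ht i
        simpa [Finsupp.tail_apply] using this
      rw [Finset.sum_congr rfl fun i _ => h3 i] at h1
      ext i
      refine Fin.cases ?_ (fun i => ?_) i
      · omega
      · exact h3 i
    · intro h1
      exact absurd hm0 h1
  rw [hone, map_one] at hfin
  have h4 : ((1 : V) : L) ∈ V.nonunits := hfin
  rw [ValuationSubring.coe_mem_nonunits_iff] at h4
  exact (IsLocalRing.maximalIdeal.isMaximal V).ne_top ((Ideal.eq_top_iff_one _).2 h4)

end Pool.Agent.GEL
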