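import Pool.Agent.GEL.Tools

/-!
# The residue field of an algebraically closed field

PLAN. `IsAlgClosed.of_exists_root`: let `g` be a monic irreducible polynomial over `k₀ = resSub V (range of k)`. Lift it to a
monic polynomial `g'` over `k` of the same degree, whose coefficients have image in `V`. `g'` has a root `u ∈ k`; its image in `L`
is integral over the valuation ring `V`, so it is in `V` (`V` is integrally closed), and the residue of `u` is in `k₀` and is a
root of `g`.
-/

namespace Pool.Agent.GEL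

open Polynomial

private theorem gac_eval {R : Type*} [CommRing R] (n : ℕ) (a : Fin n → R) (x : R) :
    (X ^ n + ∑ i : Fin n, C (a i) * X ^ (i : ℕ) : R[X]).eval x =
      x ^ n + ∑ i : Fin n, a i * x ^ (i : ℕ) := by
  rw [eval_add, eval_pow, eval_X, eval_finsetSum]
  congr 1
  refine Finset.sum_congr rfl fun i _ => ?_
  rw [eval_mul, eval_C, eval_pow, eval_X]

theorem resSub_isAlgClosed {k L : Type*} [Field k] [IsAlgClosed k] [Field L] [Algebra k L]
    (V : ValuationSubring L) : IsAlgClosed ↥(resSub V (algebraMap k L).fieldRange) := by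
  refine IsAlgClosed.of_exists_root _ fun g hg hirr => ?_
  obtain ⟨n, hn⟩ : ∃ n, g.natDegree = n := ⟨_, rfl⟩
  have hn0 : 0 < n := by
    rw [← hn]
    exact natDegree_pos_iff_degree_pos.2 (degree_pos_of_irreducible hirr)
  have hc : ∀ i : Fin n, ∃ (a : k) (α : V), (α : L) = algebraMap k L a ∧
      IsLocalRing.residue V α = (g.coeff i : IsLocalRing.ResidueField V) := by
    intro i
    obtain ⟨u, ⟨a, ha⟩, hu⟩ := (g.coeff i).2
    exact ⟨a, u, ha.symm, hu⟩
  choose a α hα1 hα2 using hc
  have hdeg : (X ^ n + ∑ i : Fin n, C (a i) * X ^ (i : ℕ) : k[X]).degree ≠ 0 := by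
    rw [degree_add_eq_left_of_degree_lt (by rw [degree_X_pow]; exact degree_sum_fin_lt a),
      degree_X_pow]
    intro h
    rw [Nat.cast_eq_zero] at h
    omega
  obtain ⟨u, hu⟩ := IsAlgClosed.exists_root _ hdeg
  rw [IsRoot.def, gac_eval] at hu
  have hU : (algebraMap k L u) ^ n + ∑ i : Fin n, (α i : L) * (algebraMap k L u) ^ (i : ℕ) = 0 := by
    have h1 := congrArg (algebraMap k L) hu
    rw [map_add, map_pow, map_sum, map_zero] at h1
    rw [← h1]
    congr 1
    refine Finset.sum_congr rfl fun i _ => ?_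
    rw [map_mul, map_pow, hα1]
  have hint : IsIntegral V (algebraMap k L u) := by
    refine ⟨X ^ n + ∑ i : Fin n, C (α i) * X ^ (i : ℕ), monic_X_pow_add (degree_sum_fin_lt α), ?_⟩
    rw [eval₂_add, eval₂_pow, eval₂_X, eval₂_finsetSum, ← hU]
    congr 1
    refine Finset.sum_congr rfl fun i _ => ?_
    rw [eval₂_mul, eval₂_C, eval₂_pow, eval₂_X]
    rfl
  obtain ⟨y, hy⟩ := IsIntegrallyClosed.isIntegral_iff.1 hint
  have hy' : (y : L) = algebraMap k L u := hy
  have hyV : y ^ n + ∑ i : Fin n, α i * y ^ (i : ℕ) = 0 := by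
    apply Subtype.ext
    have h1 : ((y ^ n + ∑ i : Fin n, α i * y ^ (i : ℕ) : V) : L) =
        (y : L) ^ n + ∑ i : Fin n, (α i : L) * (y : L) ^ (i : ℕ) := by
      push_cast
      rfl
    rw [h1, hy', hU]
    rfl
  have hres : IsLocalRing.residue V y ∈ resSub V (algebraMap k L).fieldRange :=
    ⟨y, ⟨u, hy'.symm⟩, rfl⟩
  refine ⟨⟨IsLocalRing.residue V y, hres⟩, ?_⟩
  rw [eval_eq_sum_range, hn, Finset.sum_range_succ]
  have hlead : g.coeff n = 1 := by
    rw [← hn]
    exact hg
  rw [hlead, one_mul, Finset.sum_range (fun i => g.coeff i * _ ^ i)]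
  apply Subtype.ext
  have h2 := congrArg (IsLocalRing.residue V) hyV
  rw [map_add, map_pow, map_sum, map_zero] at h2
  have h3 : (((∑ i : Fin n, g.coeff (i : ℕ) *
      (⟨IsLocalRing.residue V y, hres⟩ : resSub V (algebraMap k L).fieldRange) ^ (i : ℕ)) +
      (⟨IsLocalRing.residue V y, hres⟩ : resSub V (algebraMap k L).fieldRange) ^ n :
        resSub V (algebraMap k L).fieldRange) : IsLocalRing.ResidueField V) =
      (∑ i : Fin n, (g.coeff (i : ℕ) : IsLocalRing.ResidueField V) *
        (IsLocalRing.residue V y) ^ (i : ℕ)) + (IsLocalRing.residue V y) ^ n := by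
    push_cast
    rfl
  rw [h3, add_comm]
  refine Eq.trans ?_ h2
  congr 1
  refine Finset.sum_congr rfl fun i _ => ?_
  rw [map_mul, map_pow, hα2]

end Pool.Agent.GEL
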