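import Pool.Agent.GEL.Tools

/-!
# Residues of conjugates, I

`κ₀ = resSub W K` is the residue field of `K ∩ W`.
-/

namespace Pool.Agent.GEL

theorem residue_algebraic {K Ω : Type*} [Field K] [Field Ω] [Algebra K Ω]
    (W : ValuationSubring Ω) (u : W) (hu : IsAlgebraic K (u : Ω)) :
    IsAlgebraic ↥(resSub W (algebraMap K Ω).fieldRange) (IsLocalRing.residue W u) := by
  classical
  obtain ⟨P, hP, hPu⟩ := hu
  have hne : P.support.Nonempty := Polynomial.nonempty_support_iff.2 hP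
  obtain ⟨i₀, hi₀, hmax⟩ := P.support.exists_max_image
    (fun i => W.valuation (algebraMap K Ω (P.coeff i))) hne
  have hc0 : P.coeff i₀ ≠ 0 := Polynomial.mem_support_iff.1 hi₀
  have hm0 : algebraMap K Ω (P.coeff i₀) ≠ 0 := fun h =>
    hc0 ((algebraMap K Ω).injective (by rw [h, map_zero]))
  have hW : ∀ i, algebraMap K Ω (P.coeff i / P.coeff i₀) ∈ W := by
    intro i
    by_cases hi : i ∈ P.support
    · rw [← W.valuation_le_one_iff, map_div₀, map_div₀]
      refine div_le_one_of_le₀ (hmax i hi) zero_le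
    · rw [Polynomial.notMem_support_iff.1 hi, zero_div, map_zero]
      exact W.zero_mem
  let q : ℕ → ↥(resSub W (algebraMap K Ω).fieldRange) := fun i =>
    ⟨IsLocalRing.residue W ⟨algebraMap K Ω (P.coeff i / P.coeff i₀), hW i⟩,
      ⟨⟨algebraMap K Ω (P.coeff i / P.coeff i₀), hW i⟩, ⟨_, rfl⟩, rfl⟩⟩
  let Q : Polynomial ↥(resSub W (algebraMap K Ω).fieldRange) :=
    ∑ i ∈ P.support, Polynomial.monomial i (q i)
  have hq0 : q i₀ = 1 := by
    apply Subtype.ext
    show IsLocalRing.residue W ⟨algebraMap K Ω (P.coeff i₀ / P.coeff i₀), hW i₀⟩ = 1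
    have h1 : (⟨algebraMap K Ω (P.coeff i₀ / P.coeff i₀), hW i₀⟩ : W) = 1 := by
      apply Subtype.ext
      show algebraMap K Ω (P.coeff i₀ / P.coeff i₀) = 1
      rw [div_self hc0, map_one]
    rw [h1, map_one]
  refine ⟨Q, ?_, ?_⟩
  · intro hQ
    have h1 : Q.coeff i₀ = q i₀ := by
      show (∑ i ∈ P.support, Polynomial.monomial i (q i)).coeff i₀ = q i₀
      rw [Polynomial.finsetSum_coeff, Finset.sum_eq_single i₀]
      · rw [Polynomial.coeff_monomial, if_pos rfl]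
      · intro i _ hi
        rw [Polynomial.coeff_monomial, if_neg hi]
      · intro h
        exact absurd hi₀ h
    rw [hQ, Polynomial.coeff_zero, hq0] at h1
    exact zero_ne_one h1
  · show Polynomial.aeval (IsLocalRing.residue W u) (∑ i ∈ P.support, Polynomial.monomial i (q i)) = 0
    rw [map_sum]
    have h2 : ∀ i, Polynomial.aeval (IsLocalRing.residue W u) (Polynomial.monomial i (q i)) =
        IsLocalRing.residue W (⟨algebraMap K Ω (P.coeff i / P.coeff i₀), hW i⟩ * u ^ i) := by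
      intro i
      rw [Polynomial.aeval_monomial, map_mul, map_pow]
      rfl
    simp only [h2]
    rw [← map_sum]
    have h3 : (∑ i ∈ P.support, (⟨algebraMap K Ω (P.coeff i / P.coeff i₀), hW i⟩ * u ^ i : W)) = 0 := by
      apply Subtype.ext
      have h4 : ((∑ i ∈ P.support, (⟨algebraMap K Ω (P.coeff i / P.coeff i₀), hW i⟩ * u ^ i : W) : W) : Ω) =
          ∑ i ∈ P.support, algebraMap K Ω (P.coeff i / P.coeff i₀) * (u : Ω) ^ i := by
        push_cast
        rfl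
      rw [h4]
      have h5 : Polynomial.aeval (u : Ω) P = ∑ i ∈ P.support, algebraMap K Ω (P.coeff i) * (u : Ω) ^ i := by
        rw [Polynomial.aeval_eq_sum_range, ← Polynomial.sum_over_range (f := fun i c => c • (u : Ω) ^ i)
          _ (fun i => by rw [zero_smul]), Polynomial.sum_def]
        refine Finset.sum_congr rfl fun i _ => ?_
        rw [Algebra.smul_def]
      rw [hPu] at h5
      have h6 : ∀ i, algebraMap K Ω (P.coeff i / P.coeff i₀) * (u : Ω) ^ i =
          (algebraMap K Ω (P.coeff i₀))⁻¹ * (algebraMap K Ω (P.coeff i) * (u : Ω) ^ i) := by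
        intro i
        rw [map_div₀]
        ring
      simp only [h6]
      rw [← Finset.mul_sum, ← h5, mul_zero]
      rfl
    rw [h3, map_zero]

private theorem exists_pow_sep {F E : Type*} [Field F] [Field E] [Algebra F E] {p : ℕ}
    [Fact p.Prime] [CharP E p] {β : E} (hβ : IsAlgebraic F β) :
    ∃ N : ℕ, 1 ≤ N ∧ β ^ (N + 1) ∈ separableClosure F E := by
  have hp : p.Prime := Fact.out
  have : CharP F p := (algebraMap F E).charP (algebraMap F E).injective p
  obtain ⟨n, g, hg, hgf⟩ := Polynomial.exists_separable_of_irreducible p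
    (minpoly.irreducible hβ.isIntegral) hp.ne_zero
  have h1 : Polynomial.aeval (β ^ p ^ n) g = 0 := by
    rw [← Polynomial.expand_aeval, hgf, minpoly.aeval]
  have h2 : β ^ p ^ n ∈ separableClosure F E := by
    rw [mem_separableClosure_iff]
    exact hg.of_dvd (minpoly.dvd F _ h1)
  refine ⟨p ^ n * p - 1, ?_, ?_⟩
  · have h3 : 1 ≤ p ^ n := Nat.one_le_pow _ _ hp.pos
    have h4 := hp.two_le
    have h5 : 2 ≤ p ^ n * p := by nlinarith
    omega
  · have h3 : 1 ≤ p ^ n * p := Nat.mul_pos (Nat.pow_pos hp.pos) hp.pos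
    rw [Nat.sub_add_cancel h3, pow_mul]
    exact pow_mem h2 p

private theorem inv_mem_of_residue {Ω : Type*} [Field Ω] (W : ValuationSubring Ω) {x : Ω} (hx : x ∈ W)
    (h : IsLocalRing.residue W ⟨x, hx⟩ ≠ 0) : x⁻¹ ∈ W := by
  have h1 : IsUnit (⟨x, hx⟩ : W) := by
    by_contra h2
    exact h ((IsLocalRing.residue_eq_zero_iff _).2 ((IsLocalRing.mem_maximalIdeal _).2 h2))
  obtain ⟨v, hv⟩ := h1
  have h2 : ((v⁻¹ : Wˣ) : W) * (⟨x, hx⟩ : W) = 1 := by
    rw [← hv]
    exact Units.inv_mul v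
  have h3 : (((v⁻¹ : Wˣ) : W) : Ω) * x = 1 := congrArg Subtype.val h2
  rw [← eq_inv_of_mul_eq_one_left h3]
  exact Subtype.property _

theorem conj_integral {K L Ω : Type*} [Field K] [Field L] [Field Ω] [Algebra K L] [Algebra K Ω]
    [FiniteDimensional K L] (W : ValuationSubring Ω) {p : ℕ} [Fact p.Prime]
    [CharP (IsLocalRing.ResidueField W) p]
    [Infinite ↥(resSub W (algebraMap K Ω).fieldRange)] (σ₀ : L →ₐ[K] Ω) (w : L) (hw : σ₀ w ∈ W)
    (hins : ¬ IsSeparable ↥(resSub W (algebraMap K Ω).fieldRange)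
      (IsLocalRing.residue W ⟨σ₀ w, hw⟩)) :
    ∃ (w' : L) (h : ∀ τ : L →ₐ[K] Ω, τ w' ∈ W),
      ¬ IsSeparable ↥(resSub W (algebraMap K Ω).fieldRange)
        (IsLocalRing.residue W ⟨σ₀ w', h σ₀⟩) := by
  classical
  have halg : IsAlgebraic ↥(resSub W (algebraMap K Ω).fieldRange)
      (IsLocalRing.residue W ⟨σ₀ w, hw⟩) := by
    refine residue_algebraic W ⟨σ₀ w, hw⟩ ?_
    exact (Algebra.IsAlgebraic.isAlgebraic (R := K) w).algHom σ₀
  obtain ⟨n, hn, hN⟩ := exists_pow_sep (p := p) halg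
  -- the finite set of bad residues
  let bad : (L →ₐ[K] Ω) → IsLocalRing.ResidueField W := fun τ =>
    if h : τ w ∈ W then -((IsLocalRing.residue W ⟨τ w, h⟩) ^ (n + 1))⁻¹ else 0
  have hfin : (insert 0 (Set.range bad)).Finite := (Set.finite_range bad).insert 0
  have hinf : ((resSub W (algebraMap K Ω).fieldRange : Subfield _) :
      Set (IsLocalRing.ResidueField W)).Infinite := Set.infinite_coe_iff.1 inferInstance
  obtain ⟨μ, hμ, hμb⟩ := hinf.exists_notMem_finite hfin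
  obtain ⟨u, ⟨m, hm⟩, hu⟩ : ∃ u : W, (u : Ω) ∈ (algebraMap K Ω).fieldRange ∧
    IsLocalRing.residue W u = μ := hμ
  have hμ0 : μ ≠ 0 := fun h => hμb (Or.inl h)
  have hμτ : ∀ τ : L →ₐ[K] Ω, ∀ h : τ w ∈ W,
      1 + μ * (IsLocalRing.residue W ⟨τ w, h⟩) ^ (n + 1) ≠ 0 := by
    intro τ h h0
    apply hμb
    right
    refine ⟨τ, ?_⟩
    show (if h : τ w ∈ W then -((IsLocalRing.residue W ⟨τ w, h⟩) ^ (n + 1))⁻¹ else 0) = μ
    rw [dif_pos h]
    have h1 : (IsLocalRing.residue W ⟨τ w, h⟩) ^ (n + 1) ≠ 0 := by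
      intro h2
      rw [h2, mul_zero, add_zero] at h0
      exact one_ne_zero h0
    have h2 : μ * (IsLocalRing.residue W ⟨τ w, h⟩) ^ (n + 1) = -1 := by
      linear_combination h0
    calc -((IsLocalRing.residue W ⟨τ w, h⟩) ^ (n + 1))⁻¹
        = (-1) * ((IsLocalRing.residue W ⟨τ w, h⟩) ^ (n + 1))⁻¹ := by ring
      _ = μ := by rw [← h2, mul_inv_cancel_right₀ h1]
  have hmW : algebraMap K Ω m ∈ W := by
    rw [hm]
    exact u.2
  have hmu : IsLocalRing.residue W ⟨algebraMap K Ω m, hmW⟩ = μ := by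
    rw [← hu]
    congr 1
    exact Subtype.ext hm
  -- the denominators
  have hden : ∀ τ : L →ₐ[K] Ω, ∀ h : τ w ∈ W,
      ∃ hd : 1 + algebraMap K Ω m * (τ w) ^ (n + 1) ∈ W,
        IsLocalRing.residue W ⟨1 + algebraMap K Ω m * (τ w) ^ (n + 1), hd⟩ =
          1 + μ * (IsLocalRing.residue W ⟨τ w, h⟩) ^ (n + 1) := by
    intro τ h
    refine ⟨W.add_mem _ _ W.one_mem (W.mul_mem _ _ hmW (pow_mem h _)), ?_⟩
    have h1 : (⟨1 + algebraMap K Ω m * (τ w) ^ (n + 1), _⟩ : W) =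
        1 + ⟨algebraMap K Ω m, hmW⟩ * ⟨τ w, h⟩ ^ (n + 1) := rfl
    rw [h1, map_add, map_one, map_mul, map_pow, hmu]
  have hτ : ∀ τ : L →ₐ[K] Ω, τ (w / (1 + algebraMap K L m * w ^ (n + 1))) =
      τ w / (1 + algebraMap K Ω m * (τ w) ^ (n + 1)) := by
    intro τ
    rw [map_div₀, map_add, map_one, map_mul, map_pow, AlgHom.commutes]
  have hmem : ∀ τ : L →ₐ[K] Ω, τ (w / (1 + algebraMap K L m * w ^ (n + 1))) ∈ W := by
    intro τ
    rw [hτ τ]
    by_cases h : τ w ∈ W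
    · obtain ⟨hd, hdr⟩ := hden τ h
      have h1 := inv_mem_of_residue W hd (by rw [hdr]; exact hμτ τ h)
      rw [div_eq_mul_inv]
      exact W.mul_mem _ _ h h1
    · have hinv : (τ w)⁻¹ ∈ W := (W.mem_or_inv_mem _).resolve_left h
      have hc0 : τ w ≠ 0 := fun h0 => h (by rw [h0]; exact W.zero_mem)
      have hd : ((τ w)⁻¹) ^ (n + 1) + algebraMap K Ω m ∈ W := W.add_mem _ _ (pow_mem hinv _) hmW
      have hr0 : IsLocalRing.residue W ⟨(τ w)⁻¹, hinv⟩ = 0 := by
        by_contra h0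
        have h1 := inv_mem_of_residue W hinv h0
        rw [inv_inv] at h1
        exact h h1
      have hdr : IsLocalRing.residue W ⟨((τ w)⁻¹) ^ (n + 1) + algebraMap K Ω m, hd⟩ = μ := by
        have h1 : (⟨((τ w)⁻¹) ^ (n + 1) + algebraMap K Ω m, hd⟩ : W) =
            ⟨(τ w)⁻¹, hinv⟩ ^ (n + 1) + ⟨algebraMap K Ω m, hmW⟩ := rfl
        rw [h1, map_add, map_pow, hr0, hmu, zero_pow (Nat.succ_ne_zero n), zero_add]
      have h1 := inv_mem_of_residue W hd (by rw [hdr]; exact hμ0)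
      have hd0 : ((τ w)⁻¹) ^ (n + 1) + algebraMap K Ω m ≠ 0 := by
        intro h0
        apply hμ0
        rw [← hdr]
        have h2 : (⟨((τ w)⁻¹) ^ (n + 1) + algebraMap K Ω m, hd⟩ : W) = 0 := Subtype.ext h0
        rw [h2, map_zero]
      have h2 : τ w / (1 + algebraMap K Ω m * (τ w) ^ (n + 1)) =
          ((τ w)⁻¹) ^ n * (((τ w)⁻¹) ^ (n + 1) + algebraMap K Ω m)⁻¹ := by
        have h3 : 1 + algebraMap K Ω m * (τ w) ^ (n + 1) =
            (τ w) ^ (n + 1) * (((τ w)⁻¹) ^ (n + 1) + algebraMap K Ω m) := by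
          rw [mul_add, ← mul_pow, mul_inv_cancel₀ hc0, one_pow]
          ring
        rw [h3, div_eq_mul_inv, mul_inv, ← mul_assoc]
        congr 1
        rw [pow_succ, mul_inv, inv_pow]
        rw [mul_comm ((τ w ^ n)⁻¹), ← mul_assoc, mul_inv_cancel₀ hc0, one_mul]
      rw [h2]
      exact W.mul_mem _ _ (pow_mem hinv _) h1
  refine ⟨w / (1 + algebraMap K L m * w ^ (n + 1)), hmem, fun hsep => hins ?_⟩
  obtain ⟨hd, hdr⟩ := hden σ₀ hw
  have hd0 : 1 + algebraMap K Ω m * (σ₀ w) ^ (n + 1) ≠ 0 := by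
    intro h0
    apply hμτ σ₀ hw
    rw [← hdr]
    have h2 : (⟨1 + algebraMap K Ω m * (σ₀ w) ^ (n + 1), hd⟩ : W) = 0 := Subtype.ext h0
    rw [h2, map_zero]
  have hprod : (⟨σ₀ w, hw⟩ : W) =
      ⟨σ₀ (w / (1 + algebraMap K L m * w ^ (n + 1))), hmem σ₀⟩ *
        ⟨1 + algebraMap K Ω m * (σ₀ w) ^ (n + 1), hd⟩ := by
    apply Subtype.ext
    show σ₀ w = σ₀ (w / (1 + algebraMap K L m * w ^ (n + 1))) *
      (1 + algebraMap K Ω m * (σ₀ w) ^ (n + 1))
    rw [hτ σ₀, div_mul_cancel₀ _ hd0]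
  have hres : IsLocalRing.residue W ⟨σ₀ w, hw⟩ =
      IsLocalRing.residue W ⟨σ₀ (w / (1 + algebraMap K L m * w ^ (n + 1))), hmem σ₀⟩ *
        (1 + μ * (IsLocalRing.residue W ⟨σ₀ w, hw⟩) ^ (n + 1)) := by
    rw [← hdr, ← map_mul, ← hprod]
  have hμs : μ ∈ separableClosure ↥(resSub W (algebraMap K Ω).fieldRange)
      (IsLocalRing.ResidueField W) :=
    (separableClosure ↥(resSub W (algebraMap K Ω).fieldRange)
      (IsLocalRing.ResidueField W)).algebraMap_mem ⟨μ, ⟨u, ⟨m, hm⟩, hu⟩⟩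
  rw [← mem_separableClosure_iff] at hsep ⊢
  rw [hres]
  exact mul_mem hsep (add_mem (one_mem _) (mul_mem hμs hN))

end Pool.Agent.GEL
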