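import Pool.Agent.GEL.PIns
import Pool.Agent.GEL.PInt

/-!
# Residues of conjugates, III

PLAN. Let `P = minpoly K w`. Its roots in the algebraically closed field `Ω` are the `τ w`, `τ : L →ₐ[K] Ω` (`K(w) ⊆ L` is
algebraic and `Ω` is algebraically closed, embeddings extend: `IntermediateField.exists_algHom_adjoin_of_splits`,
`IsAlgClosed.lift`, or `Algebra.IsAlgebraic.range_eval_eq_rootSet_minpoly`), so they lie in `W`; `P` is monic and
splits over `Ω`, so its coefficients (images in `Ω`) are in `W`, and have residues in `κ₀`: there is a monic `g ∈ κ₀[T]` with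
`natDegree g = natDegree P`, whose image in the residue field `κ` of `W` is `∏_(roots) (T - residue)`. An irreducible factor `q` of `g`
over `κ₀` divides this product, hence has a root in `κ` (`q` has positive degree), which is the residue of some `τ w`; `q` is (up to a
unit) the minimal polynomial of this root, which is not separable. So `p ∣ natDegree g` by `dvd_natDegree`, and
`natDegree (minpoly K w) ∣ finrank K L` (`minpoly.degree_dvd`). (`CharP κ₀ p`: subfield of `κ`.)
-/

namespace Pool.Agent.GEL

theorem conj_dvd {K L Ω : Type*} [Field K] [Field L] [Field Ω] [Algebra K L] [Algebra K Ω]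
    [FiniteDimensional K L] [IsAlgClosed Ω] (W : ValuationSubring Ω) {p : ℕ} [Fact p.Prime]
    [CharP (IsLocalRing.ResidueField W) p] (w : L) (h : ∀ τ : L →ₐ[K] Ω, τ w ∈ W)
    (hins : ∀ τ : L →ₐ[K] Ω, ¬ IsSeparable ↥(resSub W (algebraMap K Ω).fieldRange)
      (IsLocalRing.residue W ⟨τ w, h τ⟩)) : p ∣ Module.finrank K L := by
  classical
  set S : Subfield Ω := (algebraMap K Ω).fieldRange with hS
  have hint : IsIntegral K w := Algebra.IsIntegral.isIntegral w
  set P : Polynomial K := minpoly K w with hP
  have hPm : P.Monic := minpoly.monic hint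
  set PΩ : Polynomial Ω := P.map (algebraMap K Ω) with hPΩ
  have hPΩm : PΩ.Monic := hPm.map _
  have hroot : ∀ r ∈ PΩ.roots, ∃ τ : L →ₐ[K] Ω, τ w = r := by
    intro r hr
    have h1 : r ∈ (minpoly K w).rootSet Ω := by
      rw [Polynomial.rootSet_def]
      rw [Finset.mem_coe, Multiset.mem_toFinset]
      exact hr
    rw [← Algebra.IsAlgebraic.range_eval_eq_rootSet_minpoly (F := K) (A := Ω) w] at h1
    exact h1
  have hmem : ∀ r ∈ PΩ.roots, r ∈ W := by
    intro r hr
    obtain ⟨τ, hτ⟩ := hroot r hr
    rw [← hτ]
    exact h τ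
  set s : Multiset W := PΩ.roots.pmap (fun r hr => (⟨r, hr⟩ : W)) hmem with hs
  have hsmap : s.map (fun r : W => (r : Ω)) = PΩ.roots := by
    rw [hs, Multiset.map_pmap]
    simp only [Multiset.pmap_eq_map, Multiset.map_id']
  set Q : Polynomial W := (s.map (fun r => Polynomial.X - Polynomial.C r)).prod with hQ
  have hQm : Q.Monic := Polynomial.monic_multiset_prod_of_monic _ _
    (fun r _ => Polynomial.monic_X_sub_C r)
  have hQmap : Q.map W.subtype = PΩ := by
    rw [(IsAlgClosed.splits PΩ).eq_prod_roots_of_monic hPΩm, hQ, Polynomial.map_multiset_prod,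
      ← hsmap, Multiset.map_map, Multiset.map_map]
    congr 1
    apply Multiset.map_congr rfl
    intro r _
    simp only [Function.comp_apply, Polynomial.map_sub, Polynomial.map_X, Polynomial.map_C]
    rfl
  set Qb : Polynomial (IsLocalRing.ResidueField W) := Q.map (IsLocalRing.residue W) with hQb
  have hQbm : Qb.Monic := hQm.map _
  have hQbprod : Qb = (s.map (fun r => Polynomial.X - Polynomial.C (IsLocalRing.residue W r))).prod := by
    rw [hQb, hQ, Polynomial.map_multiset_prod, Multiset.map_map]
    congr 1
    apply Multiset.map_congr rfl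
    intro r _
    simp only [Function.comp_apply, Polynomial.map_sub, Polynomial.map_X, Polynomial.map_C]
  have hcoef : ∀ n, Qb.coeff n ∈ resSub W S := by
    intro n
    rw [mem_resSub]
    refine ⟨Q.coeff n, ?_, ?_⟩
    · have h1 : ((Q.coeff n : W) : Ω) = algebraMap K Ω (P.coeff n) := by
        have h2 := congrArg (fun q : Polynomial Ω => q.coeff n) hQmap
        simp only [hPΩ, Polynomial.coeff_map] at h2
        exact h2
      rw [h1, hS]
      exact ⟨P.coeff n, rfl⟩
    · rw [hQb, Polynomial.coeff_map]
  have hlift : Qb ∈ Polynomial.lifts (algebraMap (resSub W S) (IsLocalRing.ResidueField W)) := by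
    rw [Polynomial.lifts_iff_coeff_lifts]
    intro n
    exact ⟨⟨Qb.coeff n, hcoef n⟩, rfl⟩
  obtain ⟨g, hg1, hg2, hg3⟩ := Polynomial.lifts_and_natDegree_eq_and_monic hlift hQbm
  haveI hchar : CharP (resSub W S) p :=
    (RingHom.charP_iff (algebraMap (resSub W S) (IsLocalRing.ResidueField W))
      (algebraMap (resSub W S) (IsLocalRing.ResidueField W)).injective p).2 inferInstance
  have hdvd : p ∣ g.natDegree := by
    refine dvd_natDegree g hg3.ne_zero ?_
    intro q hq hqg hqs
    have h1 : q.map (algebraMap (resSub W S) (IsLocalRing.ResidueField W)) ∣ Qb := by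
      rw [← hg1]
      exact Polynomial.map_dvd _ hqg
    have hQbs : Qb.Splits := by
      rw [hQbprod]
      apply Polynomial.Splits.multisetProd
      intro f hf
      rw [Multiset.mem_map] at hf
      obtain ⟨r, _, rfl⟩ := hf
      exact Polynomial.Splits.X_sub_C _
    have h2 : (q.map (algebraMap (resSub W S) (IsLocalRing.ResidueField W))).Splits :=
      hQbs.of_dvd hQbm.ne_zero h1
    have h3 : (q.map (algebraMap (resSub W S) (IsLocalRing.ResidueField W))).degree ≠ 0 := by
      rw [Polynomial.degree_map]
      exact (Polynomial.degree_pos_of_irreducible hq).ne'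
    obtain ⟨β, hβ⟩ := h2.exists_eval_eq_zero h3
    have hβq : Polynomial.aeval β q = 0 := by
      rw [Polynomial.aeval_def, ← Polynomial.eval_map]
      exact hβ
    have h4 : Polynomial.eval β Qb = 0 := by
      obtain ⟨t, ht⟩ := h1
      rw [ht, Polynomial.eval_mul, hβ, zero_mul]
    rw [hQbprod, Polynomial.eval_multiset_prod, Multiset.prod_eq_zero_iff, Multiset.map_map,
      Multiset.mem_map] at h4
    obtain ⟨r, hr, hr0⟩ := h4
    simp only [Function.comp_apply, Polynomial.eval_sub, Polynomial.eval_X, Polynomial.eval_C] at hr0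
    have hβr : β = IsLocalRing.residue W r := sub_eq_zero.1 hr0
    have hr' : (r : Ω) ∈ PΩ.roots := by
      rw [← hsmap]
      exact Multiset.mem_map_of_mem _ hr
    obtain ⟨τ, hτ⟩ := hroot _ hr'
    have hrτ : r = ⟨τ w, h τ⟩ := Subtype.ext hτ.symm
    apply hins τ
    rw [← hrτ, ← hβr]
    exact hqs.of_dvd (minpoly.dvd _ _ hβq)
  have hdeg : g.natDegree = P.natDegree := by
    rw [hg2, hQb, hQm.natDegree_map]
    have h1 : (Q.map W.subtype).natDegree = Q.natDegree := hQm.natDegree_map _
    rw [← h1, hQmap, hPΩ, hPm.natDegree_map]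
  rw [hdeg] at hdvd
  exact hdvd.trans (minpoly.degree_dvd hint)

end Pool.Agent.GEL
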