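import Pool.Agent.GEL.PCom
import Pool.Agent.GEL.PDvd

/-!
# An extension of degree prime to `p` has a place with separable residue extension
-/

namespace Pool.Agent.GEL

theorem exists_embedding {K L Ω : Type*} [Field K] [Field L] [Field Ω] [Algebra K L] [Algebra K Ω]
    [FiniteDimensional K L] [IsAlgClosed Ω] (W : ValuationSubring Ω) {p : ℕ} [Fact p.Prime]
    [CharP (IsLocalRing.ResidueField W) p] [Infinite ↥(resSub W (algebraMap K Ω).fieldRange)]
    (hp : ¬ p ∣ Module.finrank K L) :
    ∃ σ : L →ₐ[K] Ω, ∀ (w : L) (hw : σ w ∈ W),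
      IsSeparable ↥(resSub W (algebraMap K Ω).fieldRange) (IsLocalRing.residue W ⟨σ w, hw⟩) := by
  by_contra hcon
  push Not at hcon
  obtain ⟨w, h, hw⟩ := conj_combine (K := K) (L := L) W fun σ => by
    obtain ⟨w, hw, hins⟩ := hcon σ
    exact conj_integral W σ w hw hins
  exact hp (conj_dvd W w h hw)

end Pool.Agent.GEL
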