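import Pool.Agent.GEL.Tools

/-!
# Small lemmas on polynomials over valuation rings

Roots of polynomials over valuation rings, descent of reductions, scaling, extension of valuations.
-/

open Polynomial

namespace Pool.Agent.GEL

theorem root_mem {Ω : Type*} [Field Ω] (W : ValuationSubring Ω) {p : ℕ} (hp : 0 < p) (P : Polynomial Ω)
    (R : Polynomial W) (h : P ^ p = R.map W.subtype) : ∃ Q : Polynomial W, Q.map W.subtype = P := by
  letI := Polynomial.algebra W Ω
  have h1 : IsIntegral W[X] (P ^ p) := by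
    have h2 : P ^ p = algebraMap (Polynomial W) (Polynomial Ω) R := h
    rw [h2]
    exact isIntegral_algebraMap
  have h3 : IsIntegral W[X] P := IsIntegral.of_pow hp h1
  have h4 : ∀ n, P.coeff n ∈ Set.range (algebraMap W Ω) := fun n =>
    IsIntegrallyClosed.isIntegral_iff.1 (h3.coeff n)
  have h5 : P ∈ Polynomial.lifts (algebraMap W Ω) := (Polynomial.lifts_iff_coeff_lifts _).2 h4
  exact (Polynomial.mem_lifts _).1 h5

theorem descend {L Ω : Type*} [Field L] [Field Ω] [Algebra L Ω] (W : ValuationSubring Ω)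
    (P : Polynomial W) (h : ∀ l, ((P.coeff l : W) : Ω) ∉ W.nonunits →
      ((P.coeff l : W) : Ω) ∈ Set.range (algebraMap L Ω)) :
    ∃ R : Polynomial (IsLocalRing.ResidueField (W.comap (algebraMap L Ω))),
      R.map (resMap W) = P.map (IsLocalRing.residue W) := by
  rw [← Polynomial.mem_lifts, Polynomial.lifts_iff_coeff_lifts]
  intro l
  rw [Polynomial.coeff_map]
  by_cases hl : ((P.coeff l : W) : Ω) ∈ W.nonunits
  · refine ⟨0, ?_⟩
    rw [map_zero]
    symm
    rw [IsLocalRing.residue_eq_zero_iff, ← ValuationSubring.coe_mem_nonunits_iff]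
    exact hl
  · obtain ⟨u, hu⟩ := h l hl
    have hu' : algebraMap L Ω u ∈ W := by
      rw [hu]
      exact (P.coeff l).2
    refine ⟨IsLocalRing.residue (W.comap (algebraMap L Ω)) ⟨u, hu'⟩, ?_⟩
    rw [resMap_residue W u hu']
    congr 1
    exact Subtype.ext hu

private theorem vr_scale {k A : Type*} [Field k] [CommRing A] [Algebra k A] {n N : ℕ}
    (f : MvPolynomial (Fin (n + 1)) k) (hf : f.IsHomogeneous N) (ξ : Fin (n + 1) → A) (b : A) :
    MvPolynomial.aeval (fun i => b * ξ i) f = b ^ N * MvPolynomial.aeval ξ f := by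
  rw [MvPolynomial.aeval_def, MvPolynomial.aeval_def, MvPolynomial.eval₂_eq',
    MvPolynomial.eval₂_eq', Finset.mul_sum]
  refine Finset.sum_congr rfl fun d hd => ?_
  have h1 : ∑ i, d i = N := by
    have h2 := hf (MvPolynomial.mem_support_iff.1 hd)
    rw [← h2, ← Finsupp.degree_eq_sum]
    exact DFunLike.congr_fun Finsupp.degree_eq_weight_one d
  have h3 : ∏ i, (b * ξ i) ^ d i = b ^ N * ∏ i, ξ i ^ d i := by
    simp only [mul_pow, Finset.prod_mul_distrib]
    rw [Finset.prod_pow_eq_pow_sum, h1]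
  rw [h3]
  ring

theorem scale_curve {k L Ω : Type*} [Field k] [Field L] [Field Ω] [Algebra k L] [Algebra L Ω]
    [Algebra k Ω] [IsScalarTower k L Ω] {n p a : ℕ} (f : MvPolynomial (Fin (n + 1)) k)
    (hf : f.IsHomogeneous (p * a)) (X : Fin (n + 1) → L[X]) (Y : L[X])
    (hY : Y ^ p = MvPolynomial.aeval X f) (lam c : Ω) :
    (Polynomial.C (c⁻¹ ^ a) * (Y.map (algebraMap L Ω)).comp (Polynomial.C lam * Polynomial.X)) ^ p =
      MvPolynomial.aeval (fun i =>
        Polynomial.C c⁻¹ * ((X i).map (algebraMap L Ω)).comp (Polynomial.C lam * Polynomial.X)) f := by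
  set φ : L[X] →+* (Polynomial Ω) := (Polynomial.compRingHom (Polynomial.C lam * Polynomial.X)).comp
    (Polynomial.mapRingHom (algebraMap L Ω)) with hφ
  have hφa : ∀ P : L[X], φ P = (P.map (algebraMap L Ω)).comp (Polynomial.C lam * Polynomial.X) :=
    fun P => rfl
  have h1 : φ.comp (algebraMap k L[X]) = algebraMap k (Polynomial Ω) := by
    ext1 r
    rw [RingHom.comp_apply, hφa, Polynomial.algebraMap_apply, Polynomial.algebraMap_apply,
      Polynomial.map_C, Polynomial.C_comp, ← IsScalarTower.algebraMap_apply k L Ω]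
  have h2 : φ (MvPolynomial.aeval X f) = MvPolynomial.aeval (fun i => φ (X i)) f := by
    rw [MvPolynomial.map_aeval, h1]
    rfl
  rw [vr_scale f hf (fun i => ((X i).map (algebraMap L Ω)).comp
    (Polynomial.C lam * Polynomial.X)) (Polynomial.C c⁻¹)]
  have h3 : MvPolynomial.aeval (fun i => ((X i).map (algebraMap L Ω)).comp
      (Polynomial.C lam * Polynomial.X)) f = φ Y ^ p := by
    rw [← map_pow, hY, h2]
    simp only [hφa]
  rw [h3, ← hφa, mul_pow, Polynomial.C_pow, ← pow_mul, mul_comm a p]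

theorem ext_valuation {L Ω : Type*} [Field L] [Field Ω] [Algebra L Ω] (V : ValuationSubring L) :
    ∃ W : ValuationSubring Ω, W.comap (algebraMap L Ω) = V := by
  obtain ⟨A, h, hloc⟩ := IsLocalRing.exists_factor_valuationRing (R := V)
    ((algebraMap L Ω).comp V.subtype)
  refine ⟨A, ?_⟩
  ext u
  rw [ValuationSubring.mem_comap]
  constructor
  · intro hu
    by_contra hV
    have hi : u⁻¹ ∈ V := (V.mem_or_inv_mem u).resolve_left hV
    have hu0 : u ≠ 0 := by
      rintro rfl
      exact hV V.zero_mem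
    have hunit : IsUnit ((((algebraMap L Ω).comp V.subtype).codRestrict A.toSubring h)
        ⟨u⁻¹, hi⟩) := by
      refine IsUnit.of_mul_eq_one ⟨algebraMap L Ω u, hu⟩ ?_
      apply Subtype.ext
      show algebraMap L Ω u⁻¹ * algebraMap L Ω u = 1
      rw [← map_mul, inv_mul_cancel₀ hu0, map_one]
    have h2 : IsUnit (⟨u⁻¹, hi⟩ : V) := hloc.map_nonunit _ hunit
    obtain ⟨w, hw⟩ := h2.exists_right_inv
    have h3 : u⁻¹ * (w : L) = 1 := congrArg Subtype.val hw
    have h4 : (w : L) = u := by
      have h5 := congrArg (fun z => u * z) h3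
      simp only [mul_one] at h5
      rw [← mul_assoc, mul_inv_cancel₀ hu0, one_mul] at h5
      exact h5
    rw [← h4] at hV
    exact hV w.2
  · intro hu
    exact h ⟨u, hu⟩

theorem residue_charP {L : Type*} [Field L] (V : ValuationSubring L) (p : ℕ) [Fact p.Prime]
    (h : (p : L) ∈ V.nonunits) : CharP (IsLocalRing.ResidueField V) p := by
  have h0 : ((p : ℕ) : IsLocalRing.ResidueField V) = 0 := by
    have h1 : IsLocalRing.residue V ((p : ℕ) : V) = 0 := by
      rw [IsLocalRing.residue_eq_zero_iff, ← ValuationSubring.coe_mem_nonunits_iff]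
      simpa using h
    rw [map_natCast] at h1
    exact h1
  obtain ⟨q, hq⟩ := CharP.exists (IsLocalRing.ResidueField V)
  have h2 : q ∣ p := (CharP.cast_eq_zero_iff _ q p).1 h0
  rcases (Nat.dvd_prime (Fact.out : p.Prime)).1 h2 with h3 | h3
  · exact absurd h3 (CharP.char_ne_one (IsLocalRing.ResidueField V) q)
  · rw [← h3]
    exact hq

end Pool.Agent.GEL
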