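import Pool.Agent.GEL.GEx
import Pool.Agent.GEL.GAC
import Pool.Agent.GEL.VRoot
import Pool.Agent.GEL.PAsm

/-!
# Existence of adapted valuation rings

The valuation ring is the inverse image of a Gauss extension of `V₀` to the algebraic closure of `L`
under an embedding over the function field with separable residue extension (`exists_embedding`).
-/

open MvPolynomial

universe u

namespace Pool.Agent.GEL

private theorem exa_comap_nonunits {F Ω : Type*} [Field F] [Field Ω] (g : F →+* Ω)
    (W : ValuationSubring Ω) (u : F) : u ∈ (W.comap g).nonunits ↔ g u ∈ W.nonunits := by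
  rw [ValuationSubring.mem_nonunits_iff_or, ValuationSubring.mem_nonunits_iff_or,
    ValuationSubring.mem_comap, map_inv₀, map_eq_zero]

private theorem exa_residue {Ω : Type*} [Field Ω] (W : ValuationSubring Ω) (w : W) :
    (w : Ω) ∈ W.nonunits ↔ IsLocalRing.residue W w = 0 := by
  rw [ValuationSubring.coe_mem_nonunits_iff, IsLocalRing.residue_eq_zero_iff]

/-- the simple root of the reduction of a polynomial over the smaller field -/
private theorem exa_sep {L Ω : Type*} [Field L] [Field Ω] (S : Subfield L) (σ : L →+* Ω)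
    (W : ValuationSubring Ω) (S' : Subfield Ω) (hS : ∀ v ∈ S', ∃ s ∈ S, σ s = v) (α : L)
    (hα : σ α ∈ W)
    (hsep : IsSeparable ↥(resSub W S') (IsLocalRing.residue W ⟨σ α, hα⟩)) :
    ∃ G : Polynomial L, (∀ i, G.coeff i ∈ S ∧ σ (G.coeff i) ∈ W) ∧
      σ (G.eval α) ∈ W.nonunits ∧ σ (G.derivative.eval α) ∉ W.nonunits := by
  obtain ⟨β, hβ⟩ : ∃ β, β = IsLocalRing.residue W ⟨σ α, hα⟩ := ⟨_, rfl⟩
  rw [← hβ] at hsep
  obtain ⟨m, hm⟩ : ∃ m, m = minpoly ↥(resSub W S') β := ⟨_, rfl⟩
  have hex : ∀ i : ℕ, ∃ (v : L) (u : W), v ∈ S ∧ σ v = (u : Ω) ∧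
      IsLocalRing.residue W u = ((m.coeff i : ↥(resSub W S')) : IsLocalRing.ResidueField W) := by
    intro i
    obtain ⟨u, hu, hr⟩ := mem_resSub.1 (m.coeff i).2
    obtain ⟨s, hs, hsu⟩ := hS _ hu
    exact ⟨s, u, hs, hsu, hr⟩
  choose v u hv hvu hur using hex
  obtain ⟨G, hG⟩ : ∃ G : Polynomial L, G = ∑ i ∈ Finset.range (m.natDegree + 1),
    Polynomial.monomial i (v i) := ⟨_, rfl⟩
  obtain ⟨H, hH⟩ : ∃ H : Polynomial W, H = ∑ i ∈ Finset.range (m.natDegree + 1),
    Polynomial.monomial i (u i) := ⟨_, rfl⟩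
  have h1 : G.map σ = H.map W.subtype := by
    rw [hG, hH, Polynomial.map_sum, Polynomial.map_sum]
    refine Finset.sum_congr rfl fun i _ => ?_
    rw [Polynomial.map_monomial, Polynomial.map_monomial]
    exact congrArg (Polynomial.monomial i) (hvu i)
  have h2 : H.map (IsLocalRing.residue W) =
      m.map (algebraMap ↥(resSub W S') (IsLocalRing.ResidueField W)) := by
    conv_rhs => rw [m.as_sum_range]
    rw [hH, Polynomial.map_sum, Polynomial.map_sum]
    refine Finset.sum_congr rfl fun i _ => ?_
    rw [Polynomial.map_monomial, Polynomial.map_monomial]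
    exact congrArg (Polynomial.monomial i) (hur i)
  have h3 : ∀ (G : Polynomial L) (H : Polynomial W), G.map σ = H.map W.subtype →
      σ (G.eval α) = ((H.eval ⟨σ α, hα⟩ : W) : Ω) := by
    intro G H h
    have e1 : σ (G.eval α) = (G.map σ).eval (σ α) := (Polynomial.eval_map_apply σ α).symm
    have e2 : ((H.eval ⟨σ α, hα⟩ : W) : Ω) = (H.map W.subtype).eval (σ α) := by
      have := (Polynomial.eval_map_apply (p := H) W.subtype (⟨σ α, hα⟩ : W)).symm
      exact this
    rw [e1, e2, h]
  have h4 : ∀ (H : Polynomial W), IsLocalRing.residue W (H.eval ⟨σ α, hα⟩) =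
      (H.map (IsLocalRing.residue W)).eval β := by
    intro H
    rw [hβ, Polynomial.eval_map_apply]
  have h1' : G.derivative.map σ = H.derivative.map W.subtype := by
    rw [← Polynomial.derivative_map, ← Polynomial.derivative_map, h1]
  have h2' : H.derivative.map (IsLocalRing.residue W) =
      m.derivative.map (algebraMap ↥(resSub W S') (IsLocalRing.ResidueField W)) := by
    rw [← Polynomial.derivative_map, ← Polynomial.derivative_map, h2]
  refine ⟨G, ?_, ?_, ?_⟩
  · intro i
    have hc : G.coeff i = if i ∈ Finset.range (m.natDegree + 1) then v i else 0 := by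
      rw [hG, Polynomial.finsetSum_coeff]
      simp only [Polynomial.coeff_monomial]
      rw [Finset.sum_ite_eq' (Finset.range (m.natDegree + 1)) i v]
    rw [hc]
    split_ifs
    · exact ⟨hv i, by rw [hvu i]; exact (u i).2⟩
    · exact ⟨S.zero_mem, by rw [map_zero]; exact W.zero_mem⟩
  · rw [h3 G H h1, exa_residue, h4, h2, Polynomial.eval_map_algebraMap, hm]
    exact minpoly.aeval _ _
  · rw [h3 G.derivative H.derivative h1', exa_residue, h4, h2', Polynomial.eval_map_algebraMap]
    refine Polynomial.Separable.aeval_derivative_ne_zero ?_ ?_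
    · rw [hm]; exact hsep
    · rw [hm]; exact minpoly.aeval _ _

theorem exists_adapted {k : Type u} [Field k] [IsAlgClosed k] {n p a : ℕ} (hpr : p.Prime)
    {f : MvPolynomial (Fin (n + 1)) k} {L : Type u} [Field L] [Algebra k L] (P : Pt p f L)
    (hP : P.IsGeneric) (hK : ¬ p ∣ Module.finrank ↥P.funField L) (h : NearKlein p a f) :
    ∃ V : ValuationSubring L, Adapted a P V := by
  obtain ⟨V₀, hV1, hV2⟩ := h
  have hfin : FiniteDimensional ↥P.funField L := by
    refine Module.finite_of_finrank_pos (Nat.pos_of_ne_zero fun h0 => ?_)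
    exact hK (by rw [h0]; exact dvd_zero p)
  have hfact : Fact p.Prime := ⟨hpr⟩
  obtain ⟨z, hz⟩ : ∃ z : Fin n → AlgebraicClosure L,
    z = fun i => algebraMap L (AlgebraicClosure L) (P.x i.succ) := ⟨_, rfl⟩
  have hzi : AlgebraicIndependent k z := by
    rw [hz]
    exact hP.indep.map' (f := IsScalarTower.toAlgHom k L (AlgebraicClosure L))
      (algebraMap L (AlgebraicClosure L)).injective
  obtain ⟨W, hW1, hW2, hW3⟩ := gauss_exists V₀ z hzi
  have hk : ∀ c : k, c ∈ V₀.nonunits ↔ algebraMap k (AlgebraicClosure L) c ∈ W.nonunits := by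
    intro c
    rw [← hW1]
    exact exa_comap_nonunits _ W c
  have hpW : (p : AlgebraicClosure L) ∈ W.nonunits := by
    have := (hk p).1 hV1
    rwa [map_natCast] at this
  have hchar : CharP (IsLocalRing.ResidueField W) p := residue_charP W p hpW
  have hle : (algebraMap k (AlgebraicClosure L)).fieldRange ≤
      (algebraMap ↥P.funField (AlgebraicClosure L)).fieldRange := by
    rintro _ ⟨c, rfl⟩
    exact ⟨algebraMap k ↥P.funField c,
      (IsScalarTower.algebraMap_apply k ↥P.funField (AlgebraicClosure L) c).symm⟩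
  have hle2 : resSub W (algebraMap k (AlgebraicClosure L)).fieldRange ≤
      resSub W (algebraMap ↥P.funField (AlgebraicClosure L)).fieldRange := by
    rintro _ ⟨u, hu, rfl⟩
    exact ⟨u, hle hu, rfl⟩
  have hinf : Infinite ↥(resSub W (algebraMap ↥P.funField (AlgebraicClosure L)).fieldRange) := by
    have h1 : IsAlgClosed ↥(resSub W (algebraMap k (AlgebraicClosure L)).fieldRange) :=
      resSub_isAlgClosed W
    have h2 : Infinite ↥(resSub W (algebraMap k (AlgebraicClosure L)).fieldRange) :=
      IsAlgClosed.instInfinite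
    exact Infinite.of_injective (Subfield.inclusion hle2) (Subfield.inclusion hle2).injective
  obtain ⟨σ, hσ⟩ := exists_embedding (K := ↥P.funField) (L := L) (Ω := AlgebraicClosure L) W hK
  have hσK : ∀ v ∈ P.funField, σ v = algebraMap L (AlgebraicClosure L) v := by
    intro v hv
    have h1 := σ.commutes (⟨v, hv⟩ : ↥P.funField)
    have h2 := IsScalarTower.algebraMap_apply ↥P.funField L (AlgebraicClosure L) ⟨v, hv⟩
    rw [h2] at h1
    exact h1
  have hσk : ∀ c : k, σ (algebraMap k L c) = algebraMap k (AlgebraicClosure L) c := by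
    intro c
    rw [hσK _ (P.funField.algebraMap_mem c)]
    exact (IsScalarTower.algebraMap_apply k L (AlgebraicClosure L) c).symm
  have hxmem : ∀ i, P.x i ∈ P.funField := fun i =>
    IntermediateField.subset_adjoin k _ (Set.mem_insert_of_mem _ (Set.mem_range_self i))
  have hnu : ∀ u : L, u ∈ (W.comap (σ : L →+* AlgebraicClosure L)).nonunits ↔
      σ u ∈ W.nonunits := fun u => exa_comap_nonunits _ W u
  refine ⟨W.comap (σ : L →+* AlgebraicClosure L), ?_, ?_, ?_, ?_, ?_⟩
  · rw [hnu, map_natCast]
    exact hpW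
  · intro m
    rw [hnu, hσk, ← hk]
    exact hV2 m
  · intro i
    rw [ValuationSubring.mem_comap]
    show σ (P.x i) ∈ W
    refine Fin.cases ?_ (fun j => ?_) i
    · rw [hP.one, map_one]
      exact W.one_mem
    · rw [hσK _ (hxmem _)]
      have := hW2 j
      rw [hz] at this
      exact this
  · intro g hg1 hg2 m
    rw [hnu] at hg2
    rw [hnu, hσk]
    refine hW3 g (fun m => ?_) ?_ m
    · have := hg1 m
      rw [ValuationSubring.mem_comap] at this
      have h2 : σ (algebraMap k L (coeff m g)) ∈ W := this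
      rwa [hσk] at h2
    · have h3 : σ (aeval (fun i : Fin n => P.x i.succ) g) = aeval z g := by
        have h4 : σ (aeval (fun i : Fin n => P.x i.succ) g) =
            (AlgHom.restrictScalars k σ) (aeval (fun i : Fin n => P.x i.succ) g) := rfl
        rw [h4, MvPolynomial.comp_aeval_apply]
        congr 2
        rw [hz]
        funext i
        exact hσK _ (hxmem _)
      rw [h3] at hg2
      exact hg2
  · intro α hα
    have hα' : σ α ∈ W := hα
    obtain ⟨G, hG1, hG2, hG3⟩ := exa_sep P.funField.toSubfield (σ : L →+* AlgebraicClosure L) W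
      (algebraMap ↥P.funField (AlgebraicClosure L)).fieldRange (by
        rintro _ ⟨c, rfl⟩
        exact ⟨(c : L), c.2, σ.commutes c⟩) α hα' (hσ α hα')
    exact ⟨G, fun i => ⟨(hG1 i).1, (hG1 i).2⟩, (hnu _).2 hG2, fun hc => hG3 ((hnu _).1 hc)⟩

end Pool.Agent.GEL
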