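import Pool.Agent.GEL.Tools

/-!
# The residue field of an extension with inseparable residue extension of degree `p`

PLAN. Let `E₀ = resSub W E` and `ȳ` the residue of `y`. `ȳ^p ∈ E₀`, `ȳ ∉ E₀`. `T^p - ȳ^p` is irreducible over `E₀`
(`X_pow_sub_C_irreducible_of_prime`; a `p`-th root `b ∈ E₀` of `ȳ^p` is equal to `ȳ`, characteristic `p`), hence
`1, ȳ, …, ȳ^(p-1)` are linearly independent over `E₀` (degree of the minimal polynomial;
`linearIndependent_pow` / `minpoly`). The elements of `E(y)` (= `Subfield.closure (insert y E)`) are of the form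
`∑_{i<p} c_i y^i`, `c_i ∈ E` (`y` is algebraic over `E` with `y^p ∈ E`: `IntermediateField.adjoin`/`Algebra.adjoin` of an
integral element; reduce exponents). Let `u ∈ W` be such an element, `u ≠ 0`, and let `c_j` have the largest valuation.
`u / c_j = ∑ (c_i/c_j) y^i ∈ W` has residue `∑ (residue of c_i/c_j) ȳ^i ≠ 0` (coefficient 1 at `j`), so `u / c_j` is a unit of
`W`, so `c_j ∈ W`, all `c_i ∈ W`, and the residue of `u` is `∑ c̄_i ȳ^i`.
-/

namespace Pool.Agent.GEL

private theorem exists_coeffs {L : Type*} [Field L] (E : Subfield L) (y : L) {p : ℕ} (hp : 1 < p)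
    (hy : y ^ p ∈ E) (u : L) (hu : u ∈ Subfield.closure (insert y (E : Set L))) :
    ∃ c : ℕ → L, (∀ i, c i ∈ E) ∧ u = ∑ i ∈ Finset.range p, c i * y ^ i := by
  set q : Polynomial E := Polynomial.X ^ p - Polynomial.C ⟨y ^ p, hy⟩ with hq
  have hqm : q.Monic := Polynomial.monic_X_pow_sub_C _ (by omega)
  have hqd : q.natDegree = p := Polynomial.natDegree_X_pow_sub_C
  have hqr : Polynomial.aeval y q = 0 := by
    rw [hq, map_sub, map_pow, Polynomial.aeval_X, Polynomial.aeval_C]
    exact sub_self _
  have hint : IsIntegral E y := ⟨q, hqm, by rw [← Polynomial.aeval_def]; exact hqr⟩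
  have h1 : Subfield.closure (insert y (E : Set L)) ≤
      (IntermediateField.adjoin E {y}).toSubfield := by
    rw [Subfield.closure_le]
    rintro z (rfl | hz)
    · exact IntermediateField.mem_adjoin_simple_self E z
    · exact (IntermediateField.adjoin E {y}).algebraMap_mem ⟨z, hz⟩
  have h3 : u ∈ Algebra.adjoin E {y} := by
    rw [← IntermediateField.adjoin_simple_toSubalgebra_of_isAlgebraic hint.isAlgebraic]
    exact h1 hu
  rw [Algebra.adjoin_singleton_eq_range_aeval] at h3
  obtain ⟨P, hP⟩ := h3
  have hP' : Polynomial.aeval y P = u := hP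
  have hQ : Polynomial.aeval y (P %ₘ q) = u := by
    rw [Polynomial.aeval_modByMonic_eq_self_of_root hqr, hP']
  have hQd : (P %ₘ q).natDegree < p := by
    have := Polynomial.natDegree_modByMonic_lt P hqm (by
      intro h
      rw [h, Polynomial.natDegree_one] at hqd
      omega)
    rwa [hqd] at this
  refine ⟨fun i => ((P %ₘ q).coeff i : L), fun i => ((P %ₘ q).coeff i).2, ?_⟩
  rw [← hQ, Polynomial.aeval_eq_sum_range' hQd]
  rfl

private theorem indep {κ : Type*} [Field κ] {p : ℕ} [Fact p.Prime] [CharP κ p] (E : Subfield κ)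
    (y : κ) (hy : y ^ p ∈ E) (h : y ∉ E) (c : ℕ → κ) (hc : ∀ i, c i ∈ E)
    (h0 : ∑ i ∈ Finset.range p, c i * y ^ i = 0) : ∀ i ∈ Finset.range p, c i = 0 := by
  have hp : p.Prime := Fact.out
  set q : Polynomial E := Polynomial.X ^ p - Polynomial.C ⟨y ^ p, hy⟩ with hq
  have hqm : q.Monic := Polynomial.monic_X_pow_sub_C _ hp.ne_zero
  have hqr : Polynomial.aeval y q = 0 := by
    rw [hq, map_sub, map_pow, Polynomial.aeval_X, Polynomial.aeval_C]
    exact sub_self _
  have hirr : Irreducible q := by
    apply X_pow_sub_C_irreducible_of_prime hp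
    intro b hb
    apply h
    have h1 : (b : κ) ^ p = y ^ p := congrArg (Subtype.val) hb
    have h2 : ((b : κ) - y) ^ p = 0 := by
      rw [sub_pow_char (b : κ) y, h1, sub_self]
    have h3 : (b : κ) = y := sub_eq_zero.1 (pow_eq_zero_iff hp.ne_zero |>.1 h2)
    rw [← h3]
    exact b.2
  have hmin : minpoly E y = q := (minpoly.eq_of_irreducible_of_monic hirr hqr hqm).symm
  set Q : Polynomial E := ∑ i ∈ Finset.range p, Polynomial.monomial i (⟨c i, hc i⟩ : E) with hQ
  have hQc : ∀ i ∈ Finset.range p, Q.coeff i = ⟨c i, hc i⟩ := by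
    intro i hi
    rw [hQ, Polynomial.finsetSum_coeff]
    simp only [Polynomial.coeff_monomial]
    rw [Finset.sum_ite_eq' (Finset.range p) i, if_pos hi]
  have hQd : Q.degree < p := by
    rw [hQ]
    refine lt_of_le_of_lt (Polynomial.degree_sum_le _ _) ?_
    rw [Finset.sup_lt_iff (by exact WithBot.bot_lt_coe p)]
    intro i hi
    refine lt_of_le_of_lt (Polynomial.degree_monomial_le _ _) ?_
    exact_mod_cast Finset.mem_range.1 hi
  have hQr : Polynomial.aeval y Q = 0 := by
    rw [hQ, map_sum, ← h0]
    refine Finset.sum_congr rfl fun i _ => ?_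
    rw [Polynomial.aeval_monomial]
    rfl
  have hQ0 : Q = 0 := by
    by_contra hne
    have h1 := minpoly.degree_le_of_ne_zero E y hne hQr
    rw [hmin, hq, Polynomial.degree_X_pow_sub_C hp.pos] at h1
    exact absurd (lt_of_le_of_lt h1 hQd) (lt_irrefl _)
  intro i hi
  have h1 := hQc i hi
  rw [hQ0, Polynomial.coeff_zero] at h1
  exact (congrArg (Subtype.val) h1).symm

theorem residue_insep {L : Type*} [Field L] (W : ValuationSubring L) {p : ℕ} [Fact p.Prime]
    [CharP (IsLocalRing.ResidueField W) p] (E : Subfield L) (y : L) (hyW : y ∈ W)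
    (hy : y ^ p ∈ E) (h : IsLocalRing.residue W ⟨y, hyW⟩ ∉ resSub W E) (u : W)
    (hu : (u : L) ∈ Subfield.closure (insert y (E : Set L))) :
    IsLocalRing.residue W u ∈ Subfield.closure
      (insert (IsLocalRing.residue W ⟨y, hyW⟩) (resSub W E : Set (IsLocalRing.ResidueField W))) := by
  have hp : p.Prime := Fact.out
  obtain ⟨c, hcE, hc⟩ := exists_coeffs E y hp.one_lt hy u hu
  set yb := IsLocalRing.residue W ⟨y, hyW⟩ with hyb
  -- residues of sums with coefficients in the valuation ring
  have hres : ∀ (d : ℕ → L) (hd : ∀ i, i ∈ Finset.range p → d i ∈ W) (v : W),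
      (v : L) = ∑ i ∈ Finset.range p, d i * y ^ i →
      IsLocalRing.residue W v = ∑ i ∈ Finset.range p,
        (if hi : i ∈ Finset.range p then IsLocalRing.residue W ⟨d i, hd i hi⟩ else 0) * yb ^ i := by
    intro d hd v hv
    have h1 : v = ∑ i ∈ Finset.range p,
        (if hi : i ∈ Finset.range p then (⟨d i, hd i hi⟩ : W) else 0) * (⟨y, hyW⟩ : W) ^ i := by
      apply Subtype.ext
      rw [hv]
      push_cast
      refine Finset.sum_congr rfl fun i hi => ?_
      rw [dif_pos hi]
    rw [h1, map_sum]
    refine Finset.sum_congr rfl fun i hi => ?_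
    rw [dif_pos hi, dif_pos hi, map_mul, map_pow]
  have hsub : ∀ z, z ∈ resSub W E → z ∈ Subfield.closure (insert yb
      (resSub W E : Set (IsLocalRing.ResidueField W))) := fun z hz =>
    Subfield.subset_closure (Set.mem_insert_of_mem _ hz)
  have hycl : yb ∈ Subfield.closure (insert yb
      (resSub W E : Set (IsLocalRing.ResidueField W))) :=
    Subfield.subset_closure (Set.mem_insert _ _)
  -- all coefficients are in the valuation ring
  have hcW : ∀ i ∈ Finset.range p, c i ∈ W := by
    obtain ⟨j, hj, hmax⟩ := Finset.exists_max_image (Finset.range p)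
      (fun i => W.valuation (c i)) ⟨0, Finset.mem_range.2 hp.pos⟩
    by_cases hcj : c j = 0
    · intro i hi
      have h1 := hmax i hi
      rw [hcj, map_zero] at h1
      have h2 : c i = 0 := (W.valuation.zero_iff).1 (le_antisymm h1 zero_le)
      rw [h2]
      exact W.zero_mem
    · have hvj : W.valuation (c j) ≠ 0 := (Valuation.ne_zero_iff _).2 hcj
      have hd : ∀ i, i ∈ Finset.range p → c i / c j ∈ W := by
        intro i hi
        rw [← W.valuation_le_one_iff, map_div₀]
        exact div_le_one_of_le₀ (hmax i hi) zero_le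
      have hvW : ∑ i ∈ Finset.range p, c i / c j * y ^ i ∈ W :=
        sum_mem fun i hi => W.mul_mem _ _ (hd i hi) (pow_mem hyW i)
      have hr := hres (fun i => c i / c j) hd ⟨_, hvW⟩ rfl
      have hne : IsLocalRing.residue W ⟨_, hvW⟩ ≠ 0 := by
        intro h0
        rw [hr] at h0
        have hypb : yb ^ p ∈ resSub W E :=
          ⟨⟨y, hyW⟩ ^ p, by push_cast; exact hy, by rw [map_pow]⟩
        have h1 := indep (resSub W E) yb hypb h _ (fun i => ?_) h0 j hj
        · rw [dif_pos hj] at h1
          have h2 : (⟨c j / c j, hd j hj⟩ : W) = 1 := Subtype.ext (div_self hcj)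
          rw [h2, map_one] at h1
          exact one_ne_zero h1
        · split_ifs with hi
          · exact ⟨_, E.div_mem (hcE i) (hcE j), rfl⟩
          · exact (resSub W E).zero_mem
      have hval : W.valuation (∑ i ∈ Finset.range p, c i / c j * y ^ i) = 1 := by
        have h1 : IsUnit (⟨_, hvW⟩ : W) := by
          by_contra hn
          exact hne ((IsLocalRing.residue_eq_zero_iff _).2 ((IsLocalRing.mem_maximalIdeal _).2 hn))
        exact (W.valuation_eq_one_iff ⟨_, hvW⟩).1 h1
      have hsum : ∑ i ∈ Finset.range p, c i / c j * y ^ i = u / c j := by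
        rw [hc, Finset.sum_div]
        exact Finset.sum_congr rfl fun i _ => by ring
      have hcjW : c j ∈ W := by
        rw [← W.valuation_le_one_iff]
        rw [hsum, map_div₀] at hval
        have h2 : W.valuation (u : L) = W.valuation (c j) := by
          rw [div_eq_one_iff_eq hvj] at hval
          exact hval
        rw [← h2, W.valuation_le_one_iff]
        exact u.2
      intro i hi
      have h1 := W.mul_mem _ _ (hd i hi) hcjW
      rwa [div_mul_cancel₀ _ hcj] at h1
  rw [hres c hcW u hc]
  refine sum_mem fun i hi => ?_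
  refine Subfield.mul_mem _ ?_ (pow_mem hycl i)
  rw [dif_pos hi]
  exact hsub _ ⟨_, hcE i, rfl⟩

end Pool.Agent.GEL
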