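import Pool.Agent.GEL.DerC
import Pool.Agent.GEL.KlA

/-!
# The Klein form is not a `p`-th power

PLAN. `E = adjoin k₀ (range (x ∘ succ))`. `der_pure` with `v = Pi.single 0 1` (so `δ (x 1) = 1`, `δ (x j) = 0` for the other
`j ≥ 1`; `δ (x 0) = δ 1 = 0`). If `b^p = kl d x` in `E`, then `0 = δ (b^p)` (characteristic `p`: `Derivation.leibniz_pow`) and
`δ (kl d x) = ∑ grad d x j • δ (x j) = grad d x 1` (`derivation_kl`, `map_grad`), `grad d x 1 = 1 - x 1^(d-2) x 2 ≠ 0` by
algebraic independence (`n ≥ 2`; here `1 - 1 = 0` and `1 + 1 = 2` in `Fin (n + 1)`).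
-/

namespace Pool.Agent.GEL

theorem kl_ne_pow {k₀ κ : Type*} [Field k₀] [Field κ] [Algebra k₀ κ] {p : ℕ} [Fact p.Prime]
    [CharP κ p] {n d : ℕ} (hd : p ∣ d) (hd3 : 3 ≤ d) (hn : 2 ≤ n) (x : Fin (n + 1) → κ)
    (hx0 : x 0 = 1) (hind : AlgebraicIndependent k₀ fun i : Fin n => x i.succ) (b : κ)
    (hb : b ∈ IntermediateField.adjoin k₀ (Set.range fun i : Fin n => x i.succ)) :
    b ^ p ≠ kl d x := by
  classical
  intro hbp
  have hmem : ∀ j, x j ∈ IntermediateField.adjoin k₀ (Set.range fun i : Fin n => x i.succ) := by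
    intro j
    refine Fin.cases ?_ (fun i => ?_) j
    · rw [hx0]
      exact one_mem _
    · exact IntermediateField.subset_adjoin k₀ _ ⟨i, rfl⟩
  obtain ⟨i₀, hi₀⟩ : ∃ i₀ : Fin n, i₀.val = 0 := ⟨⟨0, by omega⟩, rfl⟩
  obtain ⟨i₁, hi₁⟩ : ∃ i₁ : Fin n, i₁.val = 1 := ⟨⟨1, by omega⟩, rfl⟩
  obtain ⟨δ, hδ⟩ := der_pure (fun i : Fin n => x i.succ) hind (fun i => if i = i₀ then 1 else 0)
  obtain ⟨ξ, hξ⟩ : ∃ ξ : Fin (n + 1) →
      ↥(IntermediateField.adjoin k₀ (Set.range fun i : Fin n => x i.succ)),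
      ∀ j, ξ j = ⟨x j, hmem j⟩ := ⟨fun j => ⟨x j, hmem j⟩, fun j => rfl⟩
  have hξc : ∀ j, ((ξ j : ↥(IntermediateField.adjoin k₀
      (Set.range fun i : Fin n => x i.succ))) : κ) = x j := by
    intro j
    rw [hξ]
  have hdκ : (d : κ) = 0 := (CharP.cast_eq_zero_iff κ p d).2 hd
  have hdE : (d : ↥(IntermediateField.adjoin k₀ (Set.range fun i : Fin n => x i.succ))) = 0 := by
    apply Subtype.ext
    push_cast
    exact hdκ
  have hkl : (⟨b, hb⟩ : ↥(IntermediateField.adjoin k₀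
      (Set.range fun i : Fin n => x i.succ))) ^ p = kl d ξ := by
    apply Subtype.ext
    have h1 := map_kl (IntermediateField.adjoin k₀
      (Set.range fun i : Fin n => x i.succ)).val.toRingHom d ξ
    have h2 : (fun j => (IntermediateField.adjoin k₀
      (Set.range fun i : Fin n => x i.succ)).val.toRingHom (ξ j)) = x := funext hξc
    rw [h2, ← hbp] at h1
    push_cast
    exact h1.symm
  have h3 := congrArg δ hkl
  rw [Derivation.leibniz_pow, derivation_kl δ (by omega) hdE, nsmul_eq_mul,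
    CharP.cast_eq_zero, zero_mul, Fin.sum_univ_succ] at h3
  have h4 : δ (ξ 0) = 0 := by
    have h5 : ξ 0 = 1 := by
      apply Subtype.ext
      rw [hξc, hx0]
      rfl
    rw [h5, Derivation.map_one_eq_zero]
  have h6 : ∀ i : Fin n, grad d ξ i.succ • δ (ξ i.succ) =
      if i = i₀ then grad d x i₀.succ else 0 := by
    intro i
    rw [hξ i.succ, hδ i]
    by_cases hi : i = i₀
    · rw [if_pos hi, if_pos hi, hi]
      have h7 := map_grad (IntermediateField.adjoin k₀
        (Set.range fun i : Fin n => x i.succ)).val.toRingHom d ξ i₀.succ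
      have h2 : (fun j => (IntermediateField.adjoin k₀
        (Set.range fun i : Fin n => x i.succ)).val.toRingHom (ξ j)) = x := funext hξc
      rw [h2] at h7
      rw [← h7, IntermediateField.smul_def, smul_eq_mul, mul_one]
      rfl
    · rw [if_neg hi, if_neg hi, smul_zero]
  rw [h4, smul_zero, zero_add, Finset.sum_congr rfl fun i _ => h6 i, Finset.sum_ite_eq' Finset.univ,
    if_pos (Finset.mem_univ _)] at h3
  have hs1 : i₀.succ = (1 : Fin (n + 1)) := by
    apply Fin.ext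
    rw [Fin.val_succ, hi₀, Fin.val_one' (n + 1), Nat.mod_eq_of_lt (by omega)]
  have hs2 : (1 : Fin (n + 1)) + 1 = i₁.succ := by
    apply Fin.ext
    rw [Fin.val_add, Fin.val_one' (n + 1), Nat.mod_eq_of_lt (by omega : 1 < n + 1),
      Nat.mod_eq_of_lt (by omega : 1 + 1 < n + 1), Fin.val_succ, hi₁]
  have h8 : grad d x i₀.succ = 1 - x i₀.succ ^ (d - 2) * x i₁.succ := by
    unfold grad
    rw [hs1, sub_self, hx0, one_pow, hs2]
  rw [h8] at h3
  have h9 : MvPolynomial.aeval (fun i : Fin n => x i.succ)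
      (1 - MvPolynomial.X i₀ ^ (d - 2) * MvPolynomial.X i₁ : MvPolynomial (Fin n) k₀) = 0 := by
    rw [map_sub, map_one, map_mul, map_pow, MvPolynomial.aeval_X, MvPolynomial.aeval_X]
    exact h3.symm
  have h10 : (1 - MvPolynomial.X i₀ ^ (d - 2) * MvPolynomial.X i₁ :
      MvPolynomial (Fin n) k₀) = 0 := hind (by rw [h9, map_zero])
  have h11 := congrArg (MvPolynomial.eval fun _ => (0 : k₀)) h10
  rw [map_sub, map_one, map_mul, map_pow, MvPolynomial.eval_X, MvPolynomial.eval_X, mul_zero,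
    sub_zero, map_zero] at h11
  exact one_ne_zero h11

end Pool.Agent.GEL
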