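import Pool.Agent.GEL.KlA

/-!
# Reduction of the equation
-/

open MvPolynomial

namespace Pool.Agent.GEL

private theorem push {W Ω A B σ : Type*} [CommRing W] [CommRing Ω] [CommRing A] [CommRing B]
    (φ : W →+* Ω) (cA : W →+* A) (cB : Ω →+* B) (s : A →+* B) (h : s.comp cA = cB.comp φ)
    (Z : σ → A) (f : MvPolynomial σ W) :
    s (eval₂ cA Z f) = eval₂ cB (fun i => s (Z i)) (map φ f) := by
  rw [eval₂_map, ← h]
  exact eval₂_comp_left s cA Z f

private theorem map_klein {R S : Type*} [CommRing R] [CommRing S] (φ : R →+* S) (n d : ℕ) :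
    map φ (klein R n d) = klein S n d := by
  unfold klein
  rw [map_sum]
  refine Finset.sum_congr rfl fun j _ => ?_
  rw [map_mul, map_pow, map_X, map_X]

private theorem eval₂_klein {R A : Type*} [CommRing R] [CommRing A] (φ : R →+* A) {n : ℕ} (d : ℕ)
    (ξ : Fin (n + 1) → A) : eval₂ φ ξ (klein R n d) = kl d ξ := by
  have h : eval₂ φ ξ (klein R n d) = eval₂Hom φ ξ (klein R n d) := rfl
  rw [h]
  unfold klein kl
  rw [map_sum]
  refine Finset.sum_congr rfl fun j _ => ?_
  rw [map_mul, map_pow, eval₂Hom_X', eval₂Hom_X']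

private theorem exists_lift {k Ω : Type*} [Field k] [Field Ω] [Algebra k Ω]
    (W : ValuationSubring Ω) {n d : ℕ} (f : MvPolynomial (Fin (n + 1)) k)
    (near : ∀ m, algebraMap k Ω (coeff m f - coeff m (klein k n d)) ∈ W.nonunits) :
    ∃ f₁ : MvPolynomial (Fin (n + 1)) W, map W.subtype f₁ = map (algebraMap k Ω) f ∧
      map (IsLocalRing.residue W) f₁ = klein (IsLocalRing.ResidueField W) n d := by
  obtain ⟨p, hp⟩ : ∃ p, p = f - klein k n d := ⟨_, rfl⟩
  have h1 : ∀ m, ∃ ha : algebraMap k Ω (coeff m p) ∈ W,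
      (⟨algebraMap k Ω (coeff m p), ha⟩ : W) ∈ IsLocalRing.maximalIdeal W := by
    intro m
    have h2 := near m
    rw [← coeff_sub, ← hp] at h2
    exact ValuationSubring.mem_nonunits_iff_exists_mem_maximalIdeal.1 h2
  choose ha hm using h1
  refine ⟨klein W n d + ∑ m ∈ p.support,
    monomial m (⟨algebraMap k Ω (coeff m p), ha m⟩ : W), ?_, ?_⟩
  · rw [map_add, map_klein, map_sum]
    have h2 : ∑ m ∈ p.support, map W.subtype
        (monomial m (⟨algebraMap k Ω (coeff m p), ha m⟩ : W)) = map (algebraMap k Ω) p := by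
      conv_rhs => rw [← support_sum_monomial_coeff p]
      rw [map_sum]
      refine Finset.sum_congr rfl fun m _ => ?_
      rw [map_monomial, map_monomial]
      rfl
    rw [h2, hp, map_sub, map_klein, add_sub_cancel]
  · rw [map_add, map_klein, map_sum]
    have h2 : ∑ m ∈ p.support, map (IsLocalRing.residue W)
        (monomial m (⟨algebraMap k Ω (coeff m p), ha m⟩ : W)) = 0 := by
      refine Finset.sum_eq_zero fun m _ => ?_
      rw [map_monomial, (IsLocalRing.residue_eq_zero_iff _).2 (hm m), monomial_zero]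
    rw [h2, add_zero]

theorem reduce_curve {k Ω : Type*} [Field k] [Field Ω] [Algebra k Ω] (W : ValuationSubring Ω)
    {n d : ℕ} (f : MvPolynomial (Fin (n + 1)) k)
    (near : ∀ m, algebraMap k Ω (coeff m f - coeff m (klein k n d)) ∈ W.nonunits)
    (Z : Fin (n + 1) → Polynomial W) :
    ∃ R : Polynomial W, R.map W.subtype = aeval (fun i => (Z i).map W.subtype) f ∧
      R.map (IsLocalRing.residue W) = kl d fun i => (Z i).map (IsLocalRing.residue W) := by
  obtain ⟨f₁, h1, h2⟩ := exists_lift W f near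
  refine ⟨eval₂ Polynomial.C Z f₁, ?_, ?_⟩
  · have h3 := push W.subtype Polynomial.C Polynomial.C (Polynomial.mapRingHom W.subtype)
      (RingHom.ext fun a => Polynomial.map_C _) Z f₁
    rw [h1, eval₂_map] at h3
    exact h3
  · have h3 := push (IsLocalRing.residue W) Polynomial.C Polynomial.C
      (Polynomial.mapRingHom (IsLocalRing.residue W))
      (RingHom.ext fun a => Polynomial.map_C _) Z f₁
    rw [h2, eval₂_klein] at h3
    exact h3

theorem reduce_point {k Ω : Type*} [Field k] [Field Ω] [Algebra k Ω] (W : ValuationSubring Ω)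
    {n d : ℕ} (f : MvPolynomial (Fin (n + 1)) k)
    (near : ∀ m, algebraMap k Ω (coeff m f - coeff m (klein k n d)) ∈ W.nonunits)
    (z : Fin (n + 1) → W) :
    ∃ r : W, (r : Ω) = aeval (fun i => (z i : Ω)) f ∧
      IsLocalRing.residue W r = kl d fun i => IsLocalRing.residue W (z i) := by
  obtain ⟨f₁, h1, h2⟩ := exists_lift W f near
  refine ⟨eval₂ (RingHom.id W) z f₁, ?_, ?_⟩
  · have h3 := push W.subtype (RingHom.id W) (RingHom.id Ω) W.subtype
      (RingHom.ext fun a => rfl) z f₁
    rw [h1, eval₂_map] at h3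
    exact h3
  · have h3 := push (IsLocalRing.residue W) (RingHom.id W)
      (RingHom.id (IsLocalRing.ResidueField W)) (IsLocalRing.residue W)
      (RingHom.ext fun a => rfl) z f₁
    rw [h2, eval₂_klein] at h3
    exact h3

end Pool.Agent.GEL
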