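import Pool.Agent.GEL.GFr
import Pool.Agent.GEL.GIns
import Pool.Agent.GEL.GNp
import Pool.Agent.GEL.VAe
import Pool.Agent.GEL.VRoot

/-!
# The residue field of an adapted valuation ring

`k₀ = resSub V k`, `x̄_i`, `ȳ` the residues of the coordinates of the generic point `P`.
PLAN.
* `adapted_y_mem`: `y^p = f(x) ∈ V` (`reduce_point` with `z i = ⟨x i, _⟩`), and `V` is integrally closed
  (`v y^p ≤ 1` implies `v y ≤ 1`).
* `adapted_eq`: `reduce_point` for `z i = ⟨P.x i, _⟩`, `r = y^p`.
* `adapted_indep`: `gauss_indep` with `z = P.x ∘ succ` (`hV.gauss` is `Gauss V z`).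
* `adapted_field`: `E = (IntermediateField.adjoin k (range (P.x ∘ succ))).toSubfield`; `y^p = f(x) ∈ E` (`P.x 0 = 1`). The residue `ȳ` is not
  in `resSub V E`: otherwise, by `gauss_fraction`, `ȳ ∈ k₀(x̄)`, and `ȳ^p = kl (p a) x̄` contradicts `kl_ne_pow`
  (`CharP` by `residue_charP`; `hpa : 3 ≤ p * a`, `hn : 2 ≤ n`). `P.funField.toSubfield = Subfield.closure (insert y E)`.
  `residue_insep` and `gauss_fraction` (`resSub V E ⊆ k₀(x̄)`).
* `adapted_sep`: let `α` be the residue of `u ∈ V`, `G` from `hV.sep u`; its coefficients are in `V ∩ k(X)`, so their residues are in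
  `E₁ = adjoin k₀ (insert ȳ (range x̄))` by `adapted_field`: `g ∈ E₁[T]` with `g(α) = 0`, `g'(α) ≠ 0`. `minpoly E₁ α ∣ g`,
  `g = m h`, `g'(α) = m'(α) h(α)`, so `m' ≠ 0` and the irreducible polynomial `m` is separable.
-/

open MvPolynomial

universe u

namespace Pool.Agent.GEL

variable {k : Type u} [Field k] {n p a : ℕ} {f : MvPolynomial (Fin (n + 1)) k} {L : Type u}
  [Field L] [Algebra k L] {P : Pt p f L} {V : ValuationSubring L}

theorem adapted_y_mem (hp : 0 < p) (hV : Adapted a P V) : P.y ∈ V := by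
  obtain ⟨r, hr, -⟩ := reduce_point (d := p * a) V f hV.near fun i => ⟨P.x i, hV.mem i⟩
  have h1 : P.y ^ p ∈ V := by
    have h2 : P.y ^ p = (r : L) := by rw [hr]; exact P.eq
    rw [h2]
    exact r.2
  rw [← V.valuation_le_one_iff] at h1 ⊢
  rw [map_pow] at h1
  exact (pow_le_one_iff hp.ne').1 h1

theorem adapted_eq (hp : 0 < p) (hV : Adapted a P V) :
    IsLocalRing.residue V ⟨P.y, adapted_y_mem hp hV⟩ ^ p =
      kl (p * a) fun i => IsLocalRing.residue V ⟨P.x i, hV.mem i⟩ := by
  obtain ⟨r, hr, h1⟩ := reduce_point (d := p * a) V f hV.near fun i => ⟨P.x i, hV.mem i⟩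
  rw [← h1, ← map_pow]
  congr 1
  apply Subtype.ext
  rw [hr]
  exact P.eq

theorem adapted_indep (hV : Adapted a P V) :
    AlgebraicIndependent ↥(resSub V (algebraMap k L).fieldRange)
      fun i : Fin n => IsLocalRing.residue V ⟨P.x i.succ, hV.mem i.succ⟩ :=
  gauss_indep V (fun i : Fin n => P.x i.succ) (fun i => hV.mem i.succ) hV.gauss

private theorem gas_aeval_mem {E : IntermediateField k L} {x : Fin (n + 1) → L} (hx : ∀ i, x i ∈ E)
    (g : MvPolynomial (Fin (n + 1)) k) : aeval x g ∈ E := by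
  induction g using MvPolynomial.induction_on with
  | C c =>
    rw [aeval_C]
    exact E.algebraMap_mem c
  | add p q hp hq =>
    rw [map_add]
    exact E.add_mem hp hq
  | mul_X p i hp =>
    rw [map_mul, aeval_X]
    exact E.mul_mem hp (hx i)

theorem adapted_field (hp : 0 < p) (hpr : p.Prime) (hn : 2 ≤ n) (hpa : 3 ≤ p * a) (hP : P.IsGeneric)
    (hV : Adapted a P V) (α : IsLocalRing.ResidueField V)
    (hα : α ∈ resSub V P.funField.toSubfield) :
    α ∈ IntermediateField.adjoin ↥(resSub V (algebraMap k L).fieldRange)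
      (insert (IsLocalRing.residue V ⟨P.y, adapted_y_mem hp hV⟩)
        (Set.range fun i => IsLocalRing.residue V ⟨P.x i, hV.mem i⟩)) := by
  haveI : Fact p.Prime := ⟨hpr⟩
  haveI := residue_charP V p hV.char
  set E : IntermediateField k L :=
    IntermediateField.adjoin k (Set.range fun i : Fin n => P.x i.succ) with hE
  have hxE : ∀ i, P.x i ∈ E := by
    intro i
    refine Fin.cases ?_ (fun j => ?_) i
    · rw [hP.one]
      exact E.one_mem
    · exact IntermediateField.subset_adjoin k _ ⟨j, rfl⟩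
  have hyE : P.y ^ p ∈ E.toSubfield := by
    rw [P.eq]
    exact gas_aeval_mem hxE f
  have hfr : ∀ β, β ∈ resSub V E.toSubfield →
      β ∈ IntermediateField.adjoin ↥(resSub V (algebraMap k L).fieldRange)
        (Set.range fun i : Fin n => IsLocalRing.residue V ⟨P.x i.succ, hV.mem i.succ⟩) := by
    rintro β ⟨u, hu, rfl⟩
    exact gauss_fraction V (fun i : Fin n => P.x i.succ) (fun i => hV.mem i.succ) hV.gauss u hu
  have hnot : IsLocalRing.residue V ⟨P.y, adapted_y_mem hp hV⟩ ∉ resSub V E.toSubfield := by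
    intro h
    refine kl_ne_pow (k₀ := ↥(resSub V (algebraMap k L).fieldRange)) (p := p) (Dvd.intro a rfl) hpa hn
      (fun i => IsLocalRing.residue V ⟨P.x i, hV.mem i⟩) ?_ (adapted_indep hV) _ (hfr _ h)
      (adapted_eq hp hV)
    have h1 : (⟨P.x 0, hV.mem 0⟩ : V) = 1 := Subtype.ext hP.one
    show IsLocalRing.residue V ⟨P.x 0, hV.mem 0⟩ = 1
    rw [h1, map_one]
  obtain ⟨u, hu, rfl⟩ := hα
  have hu1 : (u : L) ∈ Subfield.closure (insert P.y (E.toSubfield : Set L)) := by
    have h1 : (u : L) ∈ Subfield.closure (Set.range (algebraMap k L) ∪ insert P.y (Set.range P.x)) :=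
      hu
    refine Subfield.closure_le.2 ?_ h1
    rintro z (⟨c, rfl⟩ | rfl | ⟨i, rfl⟩)
    · exact Subfield.subset_closure (Set.mem_insert_of_mem _ (E.algebraMap_mem c))
    · exact Subfield.subset_closure (Set.mem_insert _ _)
    · exact Subfield.subset_closure (Set.mem_insert_of_mem _ (hxE i))
  have h2 := residue_insep V (p := p) E.toSubfield P.y (adapted_y_mem hp hV) hyE hnot u hu1
  have h3 : Subfield.closure (insert (IsLocalRing.residue V ⟨P.y, adapted_y_mem hp hV⟩)
      (resSub V E.toSubfield : Set (IsLocalRing.ResidueField V))) ≤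
      (IntermediateField.adjoin ↥(resSub V (algebraMap k L).fieldRange)
      (insert (IsLocalRing.residue V ⟨P.y, adapted_y_mem hp hV⟩)
        (Set.range fun i => IsLocalRing.residue V ⟨P.x i, hV.mem i⟩))).toSubfield := by
    rw [Subfield.closure_le]
    rintro z (rfl | hz)
    · exact IntermediateField.subset_adjoin _ _ (Set.mem_insert _ _)
    · refine IntermediateField.adjoin.mono _ _ _ ?_ (hfr z hz)
      rintro _ ⟨i, rfl⟩
      exact Set.mem_insert_of_mem _ ⟨i.succ, rfl⟩
  exact h3 h2

private theorem gas_sep {F κ : Type*} [Field F] [Field κ] [Algebra F κ] (α : κ) (g : Polynomial F)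
    (h0 : Polynomial.aeval α g = 0) (h1 : Polynomial.aeval α (Polynomial.derivative g) ≠ 0) :
    IsSeparable F α := by
  have hg : g ≠ 0 := by
    rintro rfl
    exact h1 (by rw [Polynomial.derivative_zero, map_zero])
  have hint : IsIntegral F α := by
    have : IsAlgebraic F α := ⟨g, hg, h0⟩
    exact this.isIntegral
  have hirr : Irreducible (minpoly F α) := minpoly.irreducible hint
  show (minpoly F α).Separable
  rw [Polynomial.separable_iff_derivative_ne_zero hirr]
  intro hm
  obtain ⟨h, hh⟩ := minpoly.dvd F α h0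
  apply h1
  rw [hh, Polynomial.derivative_mul, hm, zero_mul, zero_add, map_mul, minpoly.aeval, zero_mul]

theorem adapted_sep (hp : 0 < p) (hpr : p.Prime) (hn : 2 ≤ n) (hpa : 3 ≤ p * a) (hP : P.IsGeneric)
    (hV : Adapted a P V) :
    Algebra.IsSeparable ↥(IntermediateField.adjoin ↥(resSub V (algebraMap k L).fieldRange)
      (insert (IsLocalRing.residue V ⟨P.y, adapted_y_mem hp hV⟩)
        (Set.range fun i => IsLocalRing.residue V ⟨P.x i, hV.mem i⟩)))
      (IsLocalRing.ResidueField V) := by
  refine ⟨fun α => ?_⟩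
  obtain ⟨u, rfl⟩ := IsLocalRing.residue_surjective α
  obtain ⟨G, hG, hG0, hG1⟩ := hV.sep (u : L) u.2
  obtain ⟨G', hG'⟩ : ∃ G' : Polynomial V, G'.map V.subtype = G := by
    have h1 : G ∈ Polynomial.lifts V.subtype := by
      rw [Polynomial.lifts_iff_coeff_lifts]
      exact fun i => ⟨⟨G.coeff i, (hG i).2⟩, rfl⟩
    exact (Polynomial.mem_lifts G).1 h1
  have hcoe : ∀ i, ((G'.coeff i : V) : L) = G.coeff i := by
    intro i
    rw [← hG', Polynomial.coeff_map]
    rfl
  obtain ⟨g, hg⟩ : ∃ g : Polynomial ↥(IntermediateField.adjoin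
      ↥(resSub V (algebraMap k L).fieldRange)
      (insert (IsLocalRing.residue V ⟨P.y, adapted_y_mem hp hV⟩)
        (Set.range fun i => IsLocalRing.residue V ⟨P.x i, hV.mem i⟩))),
      g.map (algebraMap _ (IsLocalRing.ResidueField V)) = G'.map (IsLocalRing.residue V) := by
    have h1 : G'.map (IsLocalRing.residue V) ∈ Polynomial.lifts (algebraMap
        ↥(IntermediateField.adjoin ↥(resSub V (algebraMap k L).fieldRange)
        (insert (IsLocalRing.residue V ⟨P.y, adapted_y_mem hp hV⟩)
        (Set.range fun i => IsLocalRing.residue V ⟨P.x i, hV.mem i⟩)))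
        (IsLocalRing.ResidueField V)) := by
      rw [Polynomial.lifts_iff_coeff_lifts]
      intro i
      rw [Polynomial.coeff_map]
      exact ⟨⟨_, adapted_field hp hpr hn hpa hP hV _
        ⟨G'.coeff i, by rw [hcoe]; exact (hG i).1, rfl⟩⟩, rfl⟩
    exact (Polynomial.mem_lifts _).1 h1
  have hev : ∀ Q : Polynomial V, (Q.map (IsLocalRing.residue V)).eval (IsLocalRing.residue V u) =
      IsLocalRing.residue V (Q.eval u) := fun Q => Polynomial.eval_map_apply _ _
  have hevL : ∀ Q : Polynomial V, ((Q.eval u : V) : L) = (Q.map V.subtype).eval (u : L) := by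
    intro Q
    exact (Polynomial.eval_map_apply V.subtype u).symm
  have hres : ∀ v : V, IsLocalRing.residue V v = 0 ↔ (v : L) ∈ V.nonunits := by
    intro v
    rw [IsLocalRing.residue_eq_zero_iff, ← ValuationSubring.coe_mem_nonunits_iff]
  refine gas_sep _ g ?_ ?_
  · rw [Polynomial.aeval_def, ← Polynomial.eval_map, hg, hev, hres, hevL, hG']
    exact hG0
  · rw [Polynomial.aeval_def, ← Polynomial.eval_map, ← Polynomial.derivative_map, hg,
      Polynomial.derivative_map, hev, Ne, hres, hevL, ← Polynomial.derivative_map, hG']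
    exact hG1

end Pool.Agent.GEL
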