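import Pool.Agent.GEL.Tools

/-!
# Gauss extensions of a valuation ring

PLAN. `A = MvPolynomial (Fin n) V₀`; `φ : A → Ω`, `X i ↦ z i` (`MvPolynomial.aeval`/`eval₂Hom`), is injective (`hz`,
`V₀ ⊆ k`). Let `𝔭` be the kernel of `A → MvPolynomial (Fin n) (ResidueField V₀)` (`MvPolynomial.map (residue V₀)`), a prime
ideal (the target is a domain): the polynomials all of whose coefficients are in the maximal ideal
(`MvPolynomial.mem_map_C_iff`-like). The localization `A_𝔭` (`Localization.AtPrime 𝔭`) maps to `Ω` (elements outside of `𝔭` are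
nonzero, so they have nonzero image in the field `Ω`), it is local, and
`IsLocalRing.exists_factor_valuationRing` gives `W` such that `A_𝔭 → W` is a local homomorphism. So for `g ∈ A`: `φ g ∈ W`, and
`φ g ∈ W.nonunits ↔ g ∈ 𝔭`.
* `W.comap (algebraMap k Ω) = V₀`: `⊇` clear; if `u ∉ V₀`, then `u⁻¹` is in the maximal ideal of `V₀`, `C u⁻¹ ∈ 𝔭`, so `u⁻¹` is a
  nonunit of `W` and `u ∉ W`.
* `Gauss`: if all coefficients of `g` are in `W`, they are in `V₀`, so `g` comes from `A`; if `aeval z g ∈ W.nonunits`, then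
  `g ∈ 𝔭`, so its coefficients are nonunits of `V₀`, hence of `W`.
-/

open MvPolynomial

namespace Pool.Agent.GEL

private noncomputable def gphi {k Ω : Type*} [Field k] [Field Ω] [Algebra k Ω]
    (V₀ : ValuationSubring k) {n : ℕ} (z : Fin n → Ω) : MvPolynomial (Fin n) V₀ →+* Ω :=
  eval₂Hom ((algebraMap k Ω).comp V₀.subtype) z

private theorem gphi_eq {k Ω : Type*} [Field k] [Field Ω] [Algebra k Ω]
    (V₀ : ValuationSubring k) {n : ℕ} (z : Fin n → Ω) (g : MvPolynomial (Fin n) V₀) :
    gphi V₀ z g = aeval z (map V₀.subtype g) := by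
  unfold gphi
  rw [aeval_def, eval₂_map]
  rfl

private theorem gphi_C {k Ω : Type*} [Field k] [Field Ω] [Algebra k Ω]
    (V₀ : ValuationSubring k) {n : ℕ} (z : Fin n → Ω) (u : V₀) :
    gphi V₀ z (C u) = algebraMap k Ω (u : k) := by
  rw [gphi_eq, map_C, aeval_C]
  rfl

private theorem gphi_ne {k Ω : Type*} [Field k] [Field Ω] [Algebra k Ω]
    (V₀ : ValuationSubring k) {n : ℕ} {z : Fin n → Ω} (hz : AlgebraicIndependent k z)
    {g : MvPolynomial (Fin n) V₀} (hg : g ≠ 0) : gphi V₀ z g ≠ 0 := by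
  intro h
  rw [gphi_eq] at h
  have h1 : map V₀.subtype g = 0 := by
    apply hz
    rw [h, map_zero]
  apply hg
  have hinj : Function.Injective V₀.subtype := Subtype.val_injective
  apply map_injective V₀.subtype hinj
  rw [h1, map_zero]

private theorem gauss_val {k Ω : Type*} [Field k] [Field Ω] [Algebra k Ω] (V₀ : ValuationSubring k)
    {n : ℕ} (z : Fin n → Ω) (hz : AlgebraicIndependent k z) :
    ∃ W : ValuationSubring Ω, (∀ g : MvPolynomial (Fin n) V₀, gphi V₀ z g ∈ W) ∧
      ∀ g : MvPolynomial (Fin n) V₀, gphi V₀ z g ∈ W.nonunits ↔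
        map (IsLocalRing.residue V₀) g = 0 := by
  let P : Ideal (MvPolynomial (Fin n) V₀) :=
    RingHom.ker (map (σ := Fin n) (IsLocalRing.residue V₀))
  have hP : P.IsPrime := RingHom.ker_isPrime _
  have hunit : ∀ y : P.primeCompl, IsUnit (gphi V₀ z y) := by
    intro y
    refine (gphi_ne V₀ hz ?_).isUnit
    intro h0
    apply y.2
    rw [h0]
    exact P.zero_mem
  let f : Localization.AtPrime P →+* Ω := IsLocalization.lift (M := P.primeCompl) hunit
  have hf : ∀ g, f (algebraMap _ (Localization.AtPrime P) g) = gphi V₀ z g := fun g =>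
    IsLocalization.lift_eq hunit g
  obtain ⟨W, hW, hloc⟩ := IsLocalRing.exists_factor_valuationRing (R := Localization.AtPrime P) f
  have hmem : ∀ g : MvPolynomial (Fin n) V₀, gphi V₀ z g ∈ W := by
    intro g
    rw [← hf g]
    exact hW _
  refine ⟨W, hmem, fun g => ?_⟩
  have h1 : IsUnit (algebraMap _ (Localization.AtPrime P) g) ↔ g ∈ P.primeCompl :=
    IsLocalization.AtPrime.isUnit_to_map_iff _ P g
  have h2 : IsUnit ((f.codRestrict W.toSubring hW) (algebraMap _ (Localization.AtPrime P) g)) ↔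
      IsUnit (algebraMap _ (Localization.AtPrime P) g) :=
    ⟨fun h => hloc.map_nonunit _ h, fun h => h.map _⟩
  have h3 : gphi V₀ z g ∈ W.nonunits ↔
      ¬ IsUnit ((f.codRestrict W.toSubring hW) (algebraMap _ (Localization.AtPrime P) g)) := by
    rw [← hf g]
    have h4 := ValuationSubring.coe_mem_nonunits_iff (A := W)
      (a := (f.codRestrict W.toSubring hW) (algebraMap _ (Localization.AtPrime P) g))
    rw [IsLocalRing.mem_maximalIdeal] at h4
    exact h4
  rw [h3, h2, h1]
  show ¬ (g ∉ P) ↔ _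
  rw [not_not]
  exact RingHom.mem_ker

theorem gauss_exists {k Ω : Type*} [Field k] [Field Ω] [Algebra k Ω] (V₀ : ValuationSubring k)
    {n : ℕ} (z : Fin n → Ω) (hz : AlgebraicIndependent k z) :
    ∃ W : ValuationSubring Ω, W.comap (algebraMap k Ω) = V₀ ∧ (∀ i, z i ∈ W) ∧
      Gauss (k := k) W z := by
  obtain ⟨W, hmem, hnon⟩ := gauss_val V₀ z hz
  have hcomap : W.comap (algebraMap k Ω) = V₀ := by
    ext u
    rw [ValuationSubring.mem_comap]
    constructor
    · intro hu
      by_contra hn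
      have hu0 : u ≠ 0 := by
        rintro rfl
        exact hn V₀.zero_mem
      have hinv : u⁻¹ ∈ V₀ := (V₀.mem_or_inv_mem u).resolve_left hn
      have h1 : (⟨u⁻¹, hinv⟩ : V₀) ∈ IsLocalRing.maximalIdeal V₀ := by
        rw [← ValuationSubring.coe_mem_nonunits_iff, ValuationSubring.mem_nonunits_iff_or]
        right
        rw [inv_inv]
        exact hn
      have h2 : map (σ := Fin n) (IsLocalRing.residue V₀) (C ⟨u⁻¹, hinv⟩) = 0 := by
        rw [map_C, (IsLocalRing.residue_eq_zero_iff _).2 h1, C_0]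
      have h3 := (hnon _).2 h2
      rw [gphi_C, ValuationSubring.mem_nonunits_iff_or] at h3
      rcases h3 with h3 | h3
      · have h4 : u⁻¹ = 0 := (algebraMap k Ω).injective (by rw [h3, map_zero])
        exact inv_ne_zero hu0 h4
      · apply h3
        rw [← map_inv₀]
        show algebraMap k Ω (u⁻¹)⁻¹ ∈ W
        rw [inv_inv]
        exact hu
    · intro hu
      have h1 := hmem (C ⟨u, hu⟩)
      rwa [gphi_C] at h1
  refine ⟨W, hcomap, fun i => ?_, ?_⟩
  · have h1 := hmem (X i)
    rwa [gphi_eq, map_X, aeval_X] at h1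
  · intro g hg hgz m
    have hg' : ∀ m, coeff m g ∈ V₀ := by
      intro m
      rw [← hcomap, ValuationSubring.mem_comap]
      exact hg m
    have hex : ∃ g' : MvPolynomial (Fin n) V₀, map V₀.subtype g' = g := by
      have h1 : g ∈ Set.range (map (σ := Fin n) V₀.subtype) := by
        rw [mem_range_map_iff_coeffs_subset]
        intro c hc
        rw [Finset.mem_coe, mem_coeffs_iff] at hc
        obtain ⟨m, _, rfl⟩ := hc
        exact ⟨⟨coeff m g, hg' m⟩, rfl⟩
      exact h1
    obtain ⟨g', rfl⟩ := hex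
    have h2 : map (IsLocalRing.residue V₀) g' = 0 := by
      rw [← hnon, gphi_eq]
      exact hgz
    have h3 : IsLocalRing.residue V₀ (coeff m g') = 0 := by
      rw [← coeff_map, h2, coeff_zero]
    have h4 : map (σ := Fin n) (IsLocalRing.residue V₀) (C (coeff m g')) = 0 := by
      rw [map_C, h3, C_0]
    have h5 := (hnon _).2 h4
    rw [gphi_C] at h5
    rw [coeff_map]
    exact h5

end Pool.Agent.GEL
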