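import Pool.Agent.GEL.Tools

/-!
# The residue field of a Gauss valuation
-/

open MvPolynomial

namespace Pool.Agent.GEL

private theorem gf_aeval {k L : Type*} [Field k] [Field L] [Algebra k L] {n : ℕ} (z : Fin n → L)
    (s : Finset (Fin n →₀ ℕ)) (c : (Fin n →₀ ℕ) → k) :
    aeval z (∑ m ∈ s, monomial m (c m) : MvPolynomial (Fin n) k) =
      ∑ m ∈ s, algebraMap k L (c m) * ∏ i, z i ^ m i := by
  rw [map_sum]
  refine Finset.sum_congr rfl fun m _ => ?_
  rw [aeval_monomial, Finsupp.prod_fintype]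
  intro i
  exact pow_zero _

/-- the element of `W` with value `∑ c_m z^m` -/
private theorem gf_lift {k L : Type*} [Field k] [Field L] [Algebra k L] (W : ValuationSubring L)
    {n : ℕ} (z : Fin n → L) (hz : ∀ i, z i ∈ W) (s : Finset (Fin n →₀ ℕ))
    (c : (Fin n →₀ ℕ) → k) (w : (Fin n →₀ ℕ) → W)
    (hw : ∀ m, (w m : L) = algebraMap k L (c m)) :
    ((∑ m ∈ s, w m * ∏ i, (⟨z i, hz i⟩ : W) ^ m i : W) : L) =
      aeval z (∑ m ∈ s, monomial m (c m) : MvPolynomial (Fin n) k) := by
  rw [gf_aeval]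
  push_cast
  exact Finset.sum_congr rfl fun m _ => by rw [hw m]

private theorem gf_res {L : Type*} [Field L] (W : ValuationSubring L)
    {n : ℕ} (z : Fin n → L) (hz : ∀ i, z i ∈ W) (s : Finset (Fin n →₀ ℕ))
    (w : (Fin n →₀ ℕ) → W) :
    IsLocalRing.residue W (∑ m ∈ s, w m * ∏ i, (⟨z i, hz i⟩ : W) ^ m i) =
      ∑ m ∈ s, IsLocalRing.residue W (w m) * ∏ i, IsLocalRing.residue W ⟨z i, hz i⟩ ^ m i := by
  rw [map_sum]
  refine Finset.sum_congr rfl fun m _ => ?_
  rw [map_mul, map_prod]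
  simp only [map_pow]

private theorem gf_zero {L : Type*} [Field L] {W : ValuationSubring L} {w : W} :
    IsLocalRing.residue W w = 0 ↔ (w : L) ∈ W.nonunits := by
  rw [IsLocalRing.residue_eq_zero_iff, ← ValuationSubring.coe_mem_nonunits_iff]

/-- values of polynomials with coefficients in `W` -/
private theorem gf_val {k L : Type*} [Field k] [Field L] [Algebra k L] (W : ValuationSubring L)
    {n : ℕ} (z : Fin n → L) (hz : ∀ i, z i ∈ W) (g : MvPolynomial (Fin n) k)
    (hg : ∀ m, algebraMap k L (coeff m g) ∈ W) :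
    ∃ a : W, (a : L) = aeval z g ∧
      IsLocalRing.residue W a ∈ IntermediateField.adjoin ↥(resSub W (algebraMap k L).fieldRange)
        (Set.range fun i : Fin n => IsLocalRing.residue W ⟨z i, hz i⟩) := by
  refine ⟨∑ m ∈ g.support, ⟨algebraMap k L (coeff m g), hg m⟩ *
    ∏ i, (⟨z i, hz i⟩ : W) ^ m i, ?_, ?_⟩
  · rw [gf_lift W z hz g.support (fun m => coeff m g)
      (fun m => ⟨algebraMap k L (coeff m g), hg m⟩) (fun m => rfl), ← as_sum]
  · rw [gf_res W z hz g.support (fun m => ⟨algebraMap k L (coeff m g), hg m⟩)]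
    refine sum_mem fun m _ => mul_mem ?_ (prod_mem fun i _ => pow_mem ?_ _)
    · have h1 : IsLocalRing.residue W ⟨algebraMap k L (coeff m g), hg m⟩ ∈
          resSub W (algebraMap k L).fieldRange := ⟨_, ⟨coeff m g, rfl⟩, rfl⟩
      exact IntermediateField.algebraMap_mem _
        (⟨_, h1⟩ : ↥(resSub W (algebraMap k L).fieldRange))
    · exact IntermediateField.subset_adjoin _ _ ⟨i, rfl⟩

/-- normalisation of a nonzero polynomial -/
private theorem gf_norm {k L : Type*} [Field k] [Field L] [Algebra k L] (W : ValuationSubring L)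
    {n : ℕ} (z : Fin n → L) (hG : Gauss (k := k) W z) (g : MvPolynomial (Fin n) k) (hg : g ≠ 0) :
    ∃ (c : k) (g₁ : MvPolynomial (Fin n) k), c ≠ 0 ∧ g = C c * g₁ ∧
      (∀ m, algebraMap k L (coeff m g₁) ∈ W) ∧ aeval z g₁ ∉ W.nonunits := by
  obtain ⟨m0, hm0, hmax⟩ := Finset.exists_max_image g.support
    (fun m => W.valuation (algebraMap k L (coeff m g))) (support_nonempty.2 hg)
  have hc : coeff m0 g ≠ 0 := mem_support_iff.1 hm0
  have hcL : algebraMap k L (coeff m0 g) ≠ 0 := by
    rw [Ne, map_eq_zero]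
    exact hc
  have hin : ∀ m, algebraMap k L (coeff m (C (coeff m0 g)⁻¹ * g)) ∈ W := by
    intro m
    rw [coeff_C_mul, map_mul, map_inv₀, ← ValuationSubring.valuation_le_one_iff, map_mul, map_inv₀]
    have hv : W.valuation (algebraMap k L (coeff m0 g)) ≠ 0 := by
      rw [Ne, map_eq_zero]
      exact hcL
    by_cases hm : m ∈ g.support
    · have h2 := hmax m hm
      calc (W.valuation (algebraMap k L (coeff m0 g)))⁻¹ * W.valuation (algebraMap k L (coeff m g))
          ≤ (W.valuation (algebraMap k L (coeff m0 g)))⁻¹ *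
            W.valuation (algebraMap k L (coeff m0 g)) := mul_le_mul_right h2 _
        _ = 1 := inv_mul_cancel₀ hv
    · rw [notMem_support_iff.1 hm, map_zero, map_zero, mul_zero]
      exact zero_le_one
  refine ⟨coeff m0 g, C (coeff m0 g)⁻¹ * g, hc, ?_, hin, fun hn => ?_⟩
  · rw [← mul_assoc, ← C_mul, mul_inv_cancel₀ hc, C_1, one_mul]
  · have h3 := hG _ hin hn m0
    rw [coeff_C_mul, inv_mul_cancel₀ hc, map_one, ValuationSubring.mem_nonunits_iff_or] at h3
    rcases h3 with h3 | h3
    · exact one_ne_zero h3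
    · rw [inv_one] at h3
      exact h3 W.one_mem

theorem gauss_indep {k L : Type*} [Field k] [Field L] [Algebra k L] (W : ValuationSubring L)
    {n : ℕ} (z : Fin n → L) (hz : ∀ i, z i ∈ W) (hG : Gauss (k := k) W z) :
    AlgebraicIndependent ↥(resSub W (algebraMap k L).fieldRange)
      fun i : Fin n => IsLocalRing.residue W ⟨z i, hz i⟩ := by
  rw [algebraicIndependent_iff]
  intro gb hgb
  have hlift : ∀ m, ∃ (c : k) (w : W), (w : L) = algebraMap k L c ∧
      IsLocalRing.residue W w = ((coeff m gb : ↥(resSub W (algebraMap k L).fieldRange)) :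
        IsLocalRing.ResidueField W) := by
    intro m
    obtain ⟨w, ⟨c, hc⟩, hw⟩ := (coeff m gb).2
    exact ⟨c, w, hc.symm, hw⟩
  choose c w hw hr using hlift
  have hval : ((∑ m ∈ gb.support, w m * ∏ i, (⟨z i, hz i⟩ : W) ^ m i : W) : L) =
      aeval z (∑ m ∈ gb.support, monomial m (c m) : MvPolynomial (Fin n) k) :=
    gf_lift W z hz gb.support c w hw
  have hres : IsLocalRing.residue W (∑ m ∈ gb.support, w m * ∏ i, (⟨z i, hz i⟩ : W) ^ m i) = 0 := by
    rw [gf_res, ← hgb]
    conv_rhs => rw [as_sum gb]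
    rw [gf_aeval]
    refine Finset.sum_congr rfl fun m _ => ?_
    rw [hr m]
    rfl
  have hcoef : ∀ m, coeff m (∑ m ∈ gb.support, monomial m (c m) : MvPolynomial (Fin n) k) =
      if m ∈ gb.support then c m else 0 := by
    intro m
    rw [coeff_sum]
    simp only [coeff_monomial]
    rw [Finset.sum_ite_eq']
  have hin : ∀ m, algebraMap k L (coeff m
      (∑ m ∈ gb.support, monomial m (c m) : MvPolynomial (Fin n) k)) ∈ W := by
    intro m
    rw [hcoef m]
    split_ifs
    · rw [← hw m]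
      exact (w m).2
    · rw [map_zero]
      exact W.zero_mem
  have hnon := hG _ hin (by
    rw [← hval]
    exact gf_zero.1 hres)
  by_contra hne
  obtain ⟨m, hm⟩ := support_nonempty.2 hne
  have h1 := hnon m
  rw [hcoef m, if_pos hm, ← hw m] at h1
  have h2 := gf_zero.2 h1
  rw [hr m] at h2
  refine mem_support_iff.1 hm ?_
  exact Subtype.ext h2

theorem gauss_fraction {k L : Type*} [Field k] [Field L] [Algebra k L] (W : ValuationSubring L)
    {n : ℕ} (z : Fin n → L) (hz : ∀ i, z i ∈ W) (hG : Gauss (k := k) W z) (u : W)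
    (hu : (u : L) ∈ IntermediateField.adjoin k (Set.range z)) :
    IsLocalRing.residue W u ∈ IntermediateField.adjoin ↥(resSub W (algebraMap k L).fieldRange)
      (Set.range fun i : Fin n => IsLocalRing.residue W ⟨z i, hz i⟩) := by
  obtain ⟨g, h, hgh⟩ := (IntermediateField.mem_adjoin_range_iff k z (u : L)).1 hu
  by_cases hu0 : (u : L) = 0
  · have h1 : u = 0 := Subtype.ext hu0
    rw [h1, map_zero]
    exact zero_mem _
  have hg0 : g ≠ 0 := by
    rintro rfl
    rw [map_zero, zero_div] at hgh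
    exact hu0 hgh
  have hh0 : h ≠ 0 := by
    rintro rfl
    rw [map_zero, div_zero] at hgh
    exact hu0 hgh
  obtain ⟨c, g₁, hc, hg, hg₁, hgn⟩ := gf_norm W z hG g hg0
  obtain ⟨d, h₁, hd, hh, hh₁, hhn⟩ := gf_norm W z hG h hh0
  obtain ⟨a, ha, har⟩ := gf_val W z hz g₁ hg₁
  obtain ⟨b, hb, hbr⟩ := gf_val W z hz h₁ hh₁
  rw [← ha] at hgn
  rw [← hb] at hhn
  have ha0 : (a : L) ≠ 0 := by
    intro h0
    apply hgn
    rw [ValuationSubring.mem_nonunits_iff_or]
    exact Or.inl h0
  have hb0 : (b : L) ≠ 0 := by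
    intro h0
    apply hhn
    rw [ValuationSubring.mem_nonunits_iff_or]
    exact Or.inl h0
  have hainv : (a : L)⁻¹ ∈ W := by
    by_contra h0
    apply hgn
    rw [ValuationSubring.mem_nonunits_iff_or]
    exact Or.inr h0
  have hdL : algebraMap k L d ≠ 0 := by
    rw [Ne, map_eq_zero]
    exact hd
  have hcL : algebraMap k L c ≠ 0 := by
    rw [Ne, map_eq_zero]
    exact hc
  have hrel : (u : L) * b = algebraMap k L (c / d) * a := by
    rw [hgh, hg, hh, map_mul, map_mul, aeval_C, aeval_C, ← ha, ← hb, map_div₀]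
    field_simp
  have hcW : algebraMap k L (c / d) ∈ W := by
    have h1 : algebraMap k L (c / d) = u * b * (a : L)⁻¹ := by
      rw [hrel, mul_assoc, mul_inv_cancel₀ ha0, mul_one]
    rw [h1]
    exact W.mul_mem _ _ (W.mul_mem _ _ u.2 b.2) hainv
  have hrelW : u * b = (⟨algebraMap k L (c / d), hcW⟩ : W) * a := Subtype.ext hrel
  have hrelR := congrArg (IsLocalRing.residue W) hrelW
  rw [map_mul, map_mul] at hrelR
  have hbres : IsLocalRing.residue W b ≠ 0 := fun h0 => hhn (gf_zero.1 h0)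
  have hfin : IsLocalRing.residue W u = IsLocalRing.residue W ⟨algebraMap k L (c / d), hcW⟩ *
      IsLocalRing.residue W a / IsLocalRing.residue W b := by
    rw [eq_div_iff hbres, hrelR]
  rw [hfin]
  refine div_mem (mul_mem ?_ har) hbr
  have h1 : IsLocalRing.residue W ⟨algebraMap k L (c / d), hcW⟩ ∈
      resSub W (algebraMap k L).fieldRange := ⟨_, ⟨c / d, rfl⟩, rfl⟩
  exact IntermediateField.algebraMap_mem _ (⟨_, h1⟩ : ↥(resSub W (algebraMap k L).fieldRange))

end Pool.Agent.GEL
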