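import Pool.Agent.GEL.KlA

/-!
# The critical points of the Klein form in characteristic `p`

PLAN. Let `ξ ≠ 0` with `ξ_(j-1)^(d-1) = ξ_j^(d-2) ξ_(j+1)` for all `j` (indices modulo `N = n + 1`).
1. All `ξ_j ≠ 0`: if `ξ_j = 0`, then `ξ_(j-1)^(d-1) = 0` (as `d - 2 ≥ 1`), so `ξ_(j-1) = 0`; by
   induction all coordinates are 0 (go round the circle).
2. Multiply by `ξ_j`: the monomials `M_j = ξ_j^(d-1) ξ_(j+1)` are all equal to `M = M_0 ≠ 0`.
   Put `u_j = ξ_j / ξ_0`, `μ = M / ξ_0^d`. Then `u_0 = 1`, `u_j^(d-1) u_(j+1) = μ` for all `j`.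
3. So `u_i = μ^(E_i)` for `i = 0, 1, …, N`, where `u_N = u_0 = 1`. Modulo `p` (`p ∣ d`):
   `E_(i+1) ≡ 1 + E_i`, so `E_N ≡ N` modulo `p`, and `E_N ≠ 0` because `p ∤ N`. So `μ` is a root of
   unity, hence `μ` is in the image of the algebraically closed field `k₀`, and so are the `u_j`.
-/

open MvPolynomial

namespace Pool.Agent.GEL

private def cyc (n i : ℕ) : Fin (n + 1) := ⟨i % (n + 1), Nat.mod_lt _ (Nat.succ_pos n)⟩

private theorem cyc_succ (n i : ℕ) : cyc n (i + 1) = cyc n i + 1 := by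
  apply Fin.ext
  simp [cyc, Fin.val_add, Nat.add_mod]

private theorem cyc_val {n : ℕ} (j : Fin (n + 1)) : cyc n j.val = j := by
  apply Fin.ext
  simp [cyc, Nat.mod_eq_of_lt j.isLt]

private theorem cyc_zero (n : ℕ) : cyc n 0 = 0 := by
  apply Fin.ext
  simp [cyc]

private theorem cyc_self (n : ℕ) : cyc n (n + 1) = 0 := by
  apply Fin.ext
  simp [cyc]

private theorem mem_range_of_zpow {k₀ κ : Type*} [Field k₀] [IsAlgClosed k₀] [Field κ]
    [Algebra k₀ κ] (μ : κ) (e : ℤ) (he : e ≠ 0) (h : μ ^ e = 1) :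
    ∃ a : k₀, algebraMap k₀ κ a = μ := by
  have h1 : μ ^ e.natAbs = 1 := by
    rcases Int.natAbs_eq e with h2 | h2
    · rw [h2, zpow_natCast] at h
      exact h
    · rw [h2, zpow_neg, zpow_natCast, inv_eq_one] at h
      exact h
  have h2 : 0 < e.natAbs := Int.natAbs_pos.2 he
  have h3 : IsIntegral k₀ μ := by
    refine IsIntegral.of_pow h2 ?_
    rw [h1]
    exact isIntegral_one
  have h4 := minpoly.mem_range_of_degree_eq_one k₀ μ
    (IsAlgClosed.degree_eq_one_of_irreducible k₀ (minpoly.irreducible h3))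
  exact h4

theorem crit {k₀ κ : Type*} [Field k₀] [IsAlgClosed k₀] [Field κ] [Algebra k₀ κ] {p : ℕ}
    [Fact p.Prime] [CharP κ p] {n d : ℕ} (hd : p ∣ d) (hd3 : 3 ≤ d) (hpn : ¬ p ∣ n + 1)
    (ξ : Fin (n + 1) → κ) (hξ : ξ ≠ 0) (h : ∀ j, grad d ξ j = 0) :
    ξ 0 ≠ 0 ∧ ∃ ζ : Fin (n + 1) → k₀, ζ 0 = 1 ∧ (∀ j, ζ j ≠ 0) ∧ (∀ j, grad d ζ j = 0) ∧
      ∀ j, ξ j = algebraMap k₀ κ (ζ j) * ξ 0 := by
  have hN : ∀ j, ξ (j - 1) ^ (d - 1) = ξ j ^ (d - 2) * ξ (j + 1) := fun j => sub_eq_zero.1 (h j)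
  have hne : ∀ j, ξ j ≠ 0 := by
    intro j hj
    apply hξ
    have h1 : ∀ i : ℕ, ξ (j - cyc n i) = 0 := by
      intro i
      induction i with
      | zero => rw [cyc_zero, sub_zero]; exact hj
      | succ i ih =>
        have h2 := hN (j - cyc n i)
        rw [ih, zero_pow (by omega : d - 2 ≠ 0), zero_mul] at h2
        have h3 := (pow_eq_zero_iff (by omega : d - 1 ≠ 0)).1 h2
        rw [cyc_succ, ← sub_sub]
        exact h3
    funext j'
    have h4 := h1 (j - j').val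
    rw [cyc_val, sub_sub_cancel] at h4
    exact h4
  have h0 : ξ 0 ≠ 0 := hne 0
  refine ⟨h0, ?_⟩
  -- the monomials
  set M : κ := ξ 0 ^ (d - 1) * ξ (0 + 1) with hM
  have hMj : ∀ i : ℕ, ξ (cyc n i) ^ (d - 1) * ξ (cyc n i + 1) = M := by
    intro i
    induction i with
    | zero => rw [cyc_zero]
    | succ i ih =>
      rw [← ih, cyc_succ]
      have h2 := hN (cyc n i + 1)
      rw [add_sub_cancel_right] at h2
      rw [h2, show d - 1 = (d - 2) + 1 by omega, pow_succ]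
      ring
  set μ : κ := M / ξ 0 ^ d with hμ
  have hM0 : M ≠ 0 := mul_ne_zero (pow_ne_zero _ (hne 0)) (hne _)
  have hμ0 : μ ≠ 0 := div_ne_zero hM0 (pow_ne_zero _ h0)
  have hu : ∀ i : ℕ, (ξ (cyc n i) / ξ 0) ^ (d - 1) * (ξ (cyc n (i + 1)) / ξ 0) = μ := by
    intro i
    rw [hμ, ← hMj i, cyc_succ]
    have h5 : ξ 0 ^ d = ξ 0 ^ (d - 1) * ξ 0 := by
      rw [← pow_succ]
      congr 1
      omega
    rw [h5, div_pow]
    field_simp
  have hE : ∀ i : ℕ, ∃ e : ℤ, ξ (cyc n i) / ξ 0 = μ ^ e ∧ (p : ℤ) ∣ e - i := by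
    intro i
    induction i with
    | zero => exact ⟨0, by rw [cyc_zero, div_self h0, zpow_zero], by simp⟩
    | succ i ih =>
      obtain ⟨e, he, he'⟩ := ih
      refine ⟨1 - ((d - 1 : ℕ) : ℤ) * e, ?_, ?_⟩
      · have h6 := hu i
        rw [he] at h6
        have h7 : (μ ^ e) ^ (d - 1) ≠ 0 := pow_ne_zero _ (zpow_ne_zero _ hμ0)
        rw [zpow_sub₀ hμ0, zpow_one, mul_comm, zpow_mul, zpow_natCast, eq_div_iff h7]
        rw [mul_comm]
        exact h6
      · obtain ⟨q, hq⟩ := hd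
        obtain ⟨r, hr⟩ := he'
        have h8 : ((d - 1 : ℕ) : ℤ) = p * q - 1 := by
          rw [Nat.cast_sub (by omega), hq]
          push_cast
          ring
        refine ⟨r - q * e, ?_⟩
        rw [h8]
        push_cast
        linear_combination hr
  have hμr : ∃ a : k₀, algebraMap k₀ κ a = μ := by
    obtain ⟨e, he, he'⟩ := hE (n + 1)
    rw [cyc_self, div_self h0] at he
    refine mem_range_of_zpow μ e ?_ he.symm
    rintro rfl
    apply hpn
    rw [zero_sub, dvd_neg] at he'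
    exact_mod_cast he'
  obtain ⟨a, ha⟩ := hμr
  have hZ : ∀ j : Fin (n + 1), ∃ z : k₀, algebraMap k₀ κ z = ξ j / ξ 0 := by
    intro j
    obtain ⟨e, he, -⟩ := hE j.val
    rw [cyc_val] at he
    exact ⟨a ^ e, by rw [map_zpow₀, ha, he]⟩
  choose ζ hζ using hZ
  have hinj := (algebraMap k₀ κ).injective
  refine ⟨ζ, ?_, ?_, ?_, ?_⟩
  · apply hinj
    rw [hζ, map_one, div_self h0]
  · intro j hj
    have h9 := hζ j
    rw [hj, map_zero] at h9
    exact div_ne_zero (hne j) h0 h9.symm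
  · intro j
    apply hinj
    rw [map_zero]
    have h10 : algebraMap k₀ κ (grad d ζ j) =
        (ξ (j - 1) / ξ 0) ^ (d - 1) - (ξ j / ξ 0) ^ (d - 2) * (ξ (j + 1) / ξ 0) := by
      simp only [grad, map_sub, map_mul, map_pow, hζ]
    rw [h10, div_pow, hN j, div_pow]
    have h5 : ξ 0 ^ (d - 1) = ξ 0 ^ (d - 2) * ξ 0 := by
      rw [← pow_succ]
      congr 1
      omega
    rw [h5]
    field_simp
    ring
  · intro j
    rw [hζ, div_mul_cancel₀ _ h0]

end Pool.Agent.GEL
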