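import Pool.Agent.GEL.Tools

/-!
# The Hessian of the Klein form at a critical point

PLAN. Since all `ζ_j ≠ 0`, write `w_j = ζ_j ω_j`. From `grad d ζ = 0`: `ζ_(j-1)^(d-1) = ζ_j^(d-2) ζ_(j+1)`, so
the monomials `ζ_j^(d-1) ζ_(j+1)` are all equal to some `M ≠ 0`. Multiplying `hess d ζ w j = 0` by `ζ_j`:
`M (- ω_(j-1) + 2 ω_j - ω_(j+1)) = 0`. So `ω_(j+1) - ω_j = ω_j - ω_(j-1) = δ` for all `j`
(indices modulo `n + 1`), `ω_j = j δ` (as `ω_0 = 0`; induction on `j : ℕ`, `ω (j : Fin (n+1)) = j δ`) and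
`(n + 1) δ = ω_(n+1) = ω_0 = 0`, so `δ = 0` because `p ∤ n + 1`.
-/

namespace Pool.Agent.GEL

theorem hess_injective {κ : Type*} [Field κ] {p : ℕ} [Fact p.Prime] [CharP κ p] {n d : ℕ}
    (hd3 : 3 ≤ d) (hpn : ¬ p ∣ n + 1) (ζ w : Fin (n + 1) → κ) (hζ : ∀ j, ζ j ≠ 0)
    (hg : ∀ j, grad d ζ j = 0) (hw : w 0 = 0) (hh : ∀ j, hess d ζ w j = 0) : w = 0 := by
  obtain ⟨e, rfl⟩ : ∃ e, d = e + 3 := ⟨d - 3, by omega⟩
  -- the quotients
  set ω : Fin (n + 1) → κ := fun j => w j / ζ j with hω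
  have hwω : ∀ j, w j = ζ j * ω j := by
    intro j
    rw [hω]
    field_simp [hζ j]
  have key : ∀ j, ω (j + 1) - ω j = ω j - ω (j - 1) := by
    intro j
    have h1 := hg j
    have h2 := hh j
    rw [grad, show e + 3 - 1 = e + 2 by omega, show e + 3 - 2 = e + 1 by omega] at h1
    rw [hess, show e + 3 - 2 = e + 1 by omega, show e + 3 - 3 = e by omega, hwω (j - 1), hwω j,
      hwω (j + 1)] at h2
    have h3 : ζ j ^ (e + 2) * ζ (j + 1) * (2 * ω j - ω (j - 1) - ω (j + 1)) = 0 := by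
      linear_combination ζ j * h2 + ζ j * ω (j - 1) * h1
    have h4 : ζ j ^ (e + 2) * ζ (j + 1) ≠ 0 := mul_ne_zero (pow_ne_zero _ (hζ j)) (hζ (j + 1))
    have h5 := (mul_eq_zero.1 h3).resolve_left h4
    linear_combination -h5
  have h0 : ω 0 = 0 := by
    rw [hω]
    simp [hw]
  have c0 : Fin.ofNat (n + 1) 0 = 0 := rfl
  have cs : ∀ i : ℕ, Fin.ofNat (n + 1) (i + 1) = Fin.ofNat (n + 1) i + 1 := by
    intro i
    apply Fin.ext
    have h1 : ((1 : Fin (n + 1)) : ℕ) = 1 % (n + 1) := rfl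
    rw [Fin.val_add, h1]
    simp [Fin.ofNat, Nat.add_mod]
  have hstep : ∀ i : ℕ, ω (Fin.ofNat (n + 1) (i + 1)) - ω (Fin.ofNat (n + 1) i) = ω 1 := by
    intro i
    induction i with
    | zero => rw [cs, c0, zero_add, h0, sub_zero]
    | succ i ih =>
      have h1 := key (Fin.ofNat (n + 1) (i + 1))
      have e2 : Fin.ofNat (n + 1) (i + 1) - 1 = Fin.ofNat (n + 1) i := by
        rw [cs, add_sub_cancel_right]
      rw [← cs, e2] at h1
      rw [h1, ih]
  have hlin : ∀ i : ℕ, ω (Fin.ofNat (n + 1) i) = i * ω 1 := by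
    intro i
    induction i with
    | zero => rw [c0, h0, Nat.cast_zero, zero_mul]
    | succ i ih =>
      have h1 := hstep i
      rw [ih] at h1
      push_cast
      linear_combination h1
  have hδ : ω 1 = 0 := by
    have h1 := hlin (n + 1)
    have e1 : Fin.ofNat (n + 1) (n + 1) = 0 := by
      apply Fin.ext
      simp [Fin.ofNat]
    rw [e1, h0] at h1
    have h2 : ((n + 1 : ℕ) : κ) ≠ 0 := by
      intro h
      exact hpn ((CharP.cast_eq_zero_iff κ p (n + 1)).1 h)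
    exact (mul_eq_zero.1 h1.symm).resolve_left h2
  funext j
  have h1 := hlin j.val
  have e1 : Fin.ofNat (n + 1) j.val = j := by
    apply Fin.ext
    simp [Fin.ofNat, Nat.mod_eq_of_lt j.isLt]
  rw [e1, hδ, mul_zero] at h1
  rw [hwω j, h1, mul_zero]
  rfl

end Pool.Agent.GEL
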