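import Pool.Agent.GEL.Tools

/-!
# Taylor expansion of the gradient of the Klein form

PLAN. Expand `(s ζ_(j-1) + ε w_(j-1))^(d-1)` and `(s ζ_j + ε w_j)^(d-2) (s ζ_(j+1) + ε w_(j+1))` up to
order 2 in `ε`: general lemma (induction on `m`, or `Commute.add_pow` / `add_pow_two`-like):
for all `u, v` there is `q` with `(u + ε v)^m = u^m + m ε u^(m-1) v + ε^2 q`. Use `(d : A) = 0`, so
`((d - 1 : ℕ) : A) = -1` and `((d - 2 : ℕ) : A) = -2`.
-/

namespace Pool.Agent.GEL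

private theorem kld_pow {A : Type*} [CommRing A] (u v ε : A) (m : ℕ) :
    ∃ q : A, (u + ε * v) ^ (m + 1) = u ^ (m + 1) + ((m : A) + 1) * ε * u ^ m * v + ε ^ 2 * q := by
  induction m with
  | zero => exact ⟨0, by simp⟩
  | succ m ih =>
    obtain ⟨q, hq⟩ := ih
    refine ⟨q * (u + ε * v) + ((m : A) + 1) * u ^ m * v * v, ?_⟩
    rw [pow_succ, hq]
    push_cast
    ring

theorem grad_taylor {A : Type*} [CommRing A] {n d : ℕ} (hd3 : 3 ≤ d) (h0 : (d : A) = 0) (s ε : A)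
    (ζ w : Fin (n + 1) → A) (j : Fin (n + 1)) :
    ∃ q : A, grad d (fun i => s * ζ i + ε * w i) j =
      s ^ (d - 1) * grad d ζ j + ε * (s ^ (d - 2) * hess d ζ w j) + ε ^ 2 * q := by
  obtain ⟨e, rfl⟩ : ∃ e, d = e + 3 := ⟨d - 3, by omega⟩
  obtain ⟨q1, h1⟩ := kld_pow (s * ζ (j - 1)) (w (j - 1)) ε (e + 1)
  obtain ⟨q2, h2⟩ := kld_pow (s * ζ j) (w j) ε e
  have e1 : e + 3 - 1 = e + 2 := rfl
  have e2 : e + 3 - 2 = e + 1 := rfl
  have e3 : e + 3 - 3 = e := rfl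
  refine ⟨q1 - (((e : A) + 1) * (s * ζ j) ^ e * w j * w (j + 1) +
    q2 * (s * ζ (j + 1) + ε * w (j + 1))), ?_⟩
  unfold grad hess
  rw [e1, e2, e3]
  push_cast at h0 h1
  dsimp only
  linear_combination h1 - (s * ζ (j + 1) + ε * w (j + 1)) * h2 +
    (ε * s ^ (e + 1) * ζ (j - 1) ^ (e + 1) * w (j - 1) -
      ε * s ^ (e + 1) * ζ j ^ e * ζ (j + 1) * w j) * h0

end Pool.Agent.GEL
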