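import Pool.Agent.GEL.KlB
import Pool.Agent.GEL.KlC
import Pool.Agent.GEL.KlD

/-!
# The order of vanishing of the gradient of the Klein form along a curve

PLAN. Let `θ ∈ κ[T]` be irreducible, dividing all `grad d ξ j`, and not all `ξ_i`. Let
`κ' = AdjoinRoot θ` (a field, `Fact (Irreducible θ)`), `ρ = AdjoinRoot.mk θ : κ[T] → κ'`; `ρ g = 0 ↔ θ ∣ g`
(`AdjoinRoot.mk_eq_zero`); `κ'` is a `κ`-algebra, so (by composition) a `k₀`-algebra, of characteristic `p`.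
`crit` (with `κ'`) gives `ρ ξ_0 ≠ 0` and `ζ : Fin (n+1) → k₀` with
`ρ ξ_j = ζ_j ρ ξ_0`, i.e. `θ ∣ u_j := ξ_j - C(ζ_j) ξ_0`. By `hne` not all `u_j` are 0, so there is a maximal `r`
with `θ^r ∣ u_j` for all `j` (`r ≥ 1`; bounded since `θ^r ∣ u_j ≠ 0` implies
`r ≤ natDegree u_j`; or use multiplicities). Write `u_j = θ^r w_j`; not all `w_j` are divisible by `θ`, and
`w_0 = 0` (`ζ_0 = 1`; κ[T] is a domain). `grad_taylor` (`s = ξ_0`, `ε = θ^r`, `ζ ↦ C(ζ)`), with `grad d ζ = 0`: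
`grad d ξ j = θ^r (ξ_0^(d-2) hess_j) + θ^(2r) q_j`. If `θ^(r+1)` divided all of them, then `θ ∣ ξ_0^(d-2) hess_j`, so
`θ ∣ hess d (C ζ) w j` for all `j`, and `hess_injective` in `κ'` (`map_hess`) gives `ρ w = 0`, contradiction.
(`d = 0` in `κ[T]`: `p ∣ d` and `CharP`.)
-/

open Polynomial

namespace Pool.Agent.GEL

theorem grad_order {k₀ κ : Type*} [Field k₀] [IsAlgClosed k₀] [Field κ] [Algebra k₀ κ] {p : ℕ}
    [Fact p.Prime] [CharP κ p] {n d : ℕ} (hd : p ∣ d) (hd3 : 3 ≤ d) (hpn : ¬ p ∣ n + 1)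
    (ξ : Fin (n + 1) → κ[X]) (θ : κ[X]) (hθ : Irreducible θ) (hcop : ∃ i, ¬ θ ∣ ξ i)
    (hdvd : ∀ j, θ ∣ grad d ξ j)
    (hne : ∀ ζ : Fin (n + 1) → k₀, ∃ j, ξ j ≠ C (algebraMap k₀ κ (ζ j)) * ξ 0) :
    ¬ θ ∣ ξ 0 ∧ ∃ (ζ : Fin (n + 1) → k₀) (r : ℕ) (w : Fin (n + 1) → κ[X]), 1 ≤ r ∧
      (∀ j, ξ j = C (algebraMap k₀ κ (ζ j)) * ξ 0 + θ ^ r * w j) ∧
      ∃ j, ¬ θ ^ (r + 1) ∣ grad d ξ j := by
  classical
  haveI : Fact (Irreducible θ) := ⟨hθ⟩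
  haveI : CharP (AdjoinRoot θ) p :=
    charP_of_injective_algebraMap (algebraMap κ (AdjoinRoot θ)).injective p
  have hρ : ∀ g : κ[X], AdjoinRoot.mk θ g = 0 ↔ θ ∣ g := fun g => AdjoinRoot.mk_eq_zero
  obtain ⟨i₀, hi₀⟩ := hcop
  have h1 : (fun j => AdjoinRoot.mk θ (ξ j)) ≠ 0 := by
    intro h
    exact hi₀ ((hρ _).1 (congrFun h i₀))
  have h2 : ∀ j, grad d (fun j => AdjoinRoot.mk θ (ξ j)) j = 0 := by
    intro j
    rw [← map_grad]
    exact (hρ _).2 (hdvd j)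
  obtain ⟨h3, ζ, hζ0, hζ, hgζ, hξζ⟩ := crit (k₀ := k₀) hd hd3 hpn _ h1 h2
  have hal : ∀ a : k₀, algebraMap k₀ (AdjoinRoot θ) a = AdjoinRoot.mk θ (C (algebraMap k₀ κ a)) :=
    fun a => rfl
  have h4 : ¬ θ ∣ ξ 0 := fun h => h3 ((hρ _).2 h)
  obtain ⟨u, hu⟩ : ∃ u : Fin (n + 1) → κ[X], ∀ j, u j = ξ j - C (algebraMap k₀ κ (ζ j)) * ξ 0 :=
    ⟨_, fun _ => rfl⟩
  have h5 : ∀ j, θ ∣ u j := by
    intro j
    rw [← hρ, hu, map_sub, map_mul, ← hal]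
    have h6 : AdjoinRoot.mk θ (ξ j) = algebraMap k₀ (AdjoinRoot θ) (ζ j) * AdjoinRoot.mk θ (ξ 0) :=
      hξζ j
    rw [h6, sub_self]
  obtain ⟨j₁, hj₁⟩ := hne ζ
  have h7 : u j₁ ≠ 0 := by
    rw [hu]
    exact sub_ne_zero.2 hj₁
  obtain ⟨N, hN⟩ : FiniteMultiplicity θ (u j₁) := FiniteMultiplicity.of_not_isUnit hθ.not_isUnit h7
  have hex : ∃ r, ¬ ∀ j, θ ^ r ∣ u j := ⟨N + 1, fun h => hN (h j₁)⟩
  obtain ⟨r, hr1, hr2, hr3⟩ : ∃ r, 1 ≤ r ∧ (∀ j, θ ^ r ∣ u j) ∧ ¬ ∀ j, θ ^ (r + 1) ∣ u j := by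
    have e1 := Nat.find_spec hex
    have e2 : Nat.find hex ≠ 0 := by
      intro h
      rw [h] at e1
      exact e1 fun j => by rw [pow_zero]; exact one_dvd _
    have e3 : Nat.find hex ≠ 1 := by
      intro h
      rw [h] at e1
      exact e1 fun j => by rw [pow_one]; exact h5 j
    have e4 : ∀ j, θ ^ (Nat.find hex - 1) ∣ u j := by
      have := Nat.find_min hex (m := Nat.find hex - 1) (by omega)
      exact not_not.1 this
    refine ⟨Nat.find hex - 1, by omega, e4, ?_⟩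
    rw [show Nat.find hex - 1 + 1 = Nat.find hex by omega]
    exact e1
  choose w hw using hr2
  have hθ0 : θ ^ r ≠ 0 := pow_ne_zero _ hθ.ne_zero
  have hw1 : ¬ ∀ j, θ ∣ w j := by
    intro h
    apply hr3
    intro j
    rw [hw j, pow_succ]
    exact mul_dvd_mul_left _ (h j)
  have hw0 : w 0 = 0 := by
    have e1 : u 0 = 0 := by
      rw [hu, hζ0, map_one, C_1, one_mul, sub_self]
    rw [hw 0] at e1
    exact (mul_eq_zero.1 e1).resolve_left hθ0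
  have hξw : ∀ j, ξ j = C (algebraMap k₀ κ (ζ j)) * ξ 0 + θ ^ r * w j := by
    intro j
    rw [← hw j, hu]
    ring
  refine ⟨h4, ζ, r, w, hr1, hξw, ?_⟩
  by_contra hall
  push Not at hall
  apply hw1
  have hd0 : (d : κ[X]) = 0 := by
    rw [← map_natCast (C : κ →+* κ[X]), (CharP.cast_eq_zero_iff κ p d).2 hd, map_zero]
  have hgC : ∀ j, grad d (fun j => C (algebraMap k₀ κ (ζ j))) j = 0 := by
    intro j
    have e1 := map_grad ((C : κ →+* κ[X]).comp (algebraMap k₀ κ)) d ζ j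
    rw [hgζ j, map_zero] at e1
    exact e1.symm
  have hfun : (fun i => ξ 0 * C (algebraMap k₀ κ (ζ i)) + θ ^ r * w i) = ξ := by
    funext i
    rw [mul_comm (ξ 0), ← hξw i]
  have hH : ∀ j, θ ∣ hess d (fun j => C (algebraMap k₀ κ (ζ j))) w j := by
    intro j
    obtain ⟨q, hq⟩ := grad_taylor hd3 hd0 (ξ 0) (θ ^ r) (fun j => C (algebraMap k₀ κ (ζ j))) w j
    rw [hfun, hgC j, mul_zero, zero_add] at hq
    have e1 : θ ^ (r + 1) ∣ (θ ^ r) ^ 2 * q := by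
      refine Dvd.dvd.mul_right ?_ q
      rw [← pow_mul]
      exact pow_dvd_pow _ (by omega)
    have e2 : θ ^ (r + 1) ∣ θ ^ r * (ξ 0 ^ (d - 2) * hess d (fun j => C (algebraMap k₀ κ (ζ j))) w j) := by
      have e3 := hall j
      rw [hq] at e3
      exact (dvd_add_left e1).1 e3
    rw [pow_succ, mul_dvd_mul_iff_left hθ0] at e2
    rcases hθ.prime.dvd_or_dvd e2 with e4 | e4
    · exact absurd (hθ.prime.dvd_of_dvd_pow e4) h4
    · exact e4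
  have h8 := hess_injective (κ := AdjoinRoot θ) (p := p) hd3 hpn
    (fun j => AdjoinRoot.mk θ (C (algebraMap k₀ κ (ζ j)))) (fun j => AdjoinRoot.mk θ (w j))
    (fun j h => hζ j (by
      rw [← hal] at h
      exact (map_eq_zero _).1 h))
    (fun j => by rw [← map_grad, hgC j, map_zero])
    (by rw [hw0, map_zero])
    (fun j => by rw [← map_hess]; exact (hρ _).2 (hH j))
  intro j
  exact (hρ _).1 (congrFun h8 j)

end Pool.Agent.GEL
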