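import Pool.Agent.GEL.Plc
import Pool.Agent.GEL.KlA

/-!
# Forms congruent to the Klein form

PLAN.
* `near_klein`: `exists_valuation` for `ℤ → k` (injective, characteristic 0) and the prime ideal `(p)`.
* `near_generic`: `S = {m // m.degree = p * a}`, `A = MvPolynomial S ℤ`, `φ : A → k`, `X m ↦ coeff m f`, injective because the
  coefficients are algebraically independent over `ℚ` (hence over `ℤ`). `𝔭` = kernel of `A → ZMod p`, `X m ↦ coeff m (klein (ZMod p) n (p*a))`,
  a prime ideal (the target is a field). `p ∈ 𝔭`. For `m ∈ S`: the coefficient of the Klein form over `k` is the image of the integer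
  `coeff m (klein ℤ n (p*a))`, and `X m - C (coeff m (klein ℤ n (p * a))) ∈ 𝔭`. For `m ∉ S` both coefficients vanish
  (`IsHomogeneous.coeff_eq_zero`).
-/

open MvPolynomial

universe u

namespace Pool.Agent.GEL

private theorem nea_map {R R' : Type*} [CommRing R] [CommRing R'] (φ : R →+* R') (n d : ℕ) :
    MvPolynomial.map φ (klein R n d) = klein R' n d := by
  unfold klein
  rw [map_sum]
  refine Finset.sum_congr rfl fun j _ => ?_
  rw [map_mul, map_pow, map_X, map_X]

theorem near_klein {k : Type u} [Field k] [CharZero k] (n : ℕ) {p a : ℕ} (hpr : p.Prime) :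
    NearKlein p a (klein k n (p * a)) := by
  have hp : Prime (p : ℤ) := Nat.prime_iff_prime_int.1 hpr
  have hpp : (Ideal.span {(p : ℤ)}).IsPrime :=
    (Ideal.span_singleton_prime hp.ne_zero).2 hp
  obtain ⟨V, -, hV⟩ := exists_valuation (Int.castRingHom k) Int.cast_injective
    (Ideal.span {(p : ℤ)})
  refine ⟨V, ?_, fun m => ?_⟩
  · have h1 := (hV (p : ℤ)).2 (Ideal.mem_span_singleton_self _)
    rwa [map_natCast] at h1
  · have h1 := (hV 0).2 (Ideal.zero_mem _)
    rw [map_zero] at h1
    rwa [sub_self]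

theorem near_generic {k : Type u} [Field k] [CharZero k] {n p a : ℕ} (hpr : p.Prime)
    (ha : 1 ≤ p * a) (f : MvPolynomial (Fin (n + 1)) k) (hf : f.IsHomogeneous (p * a))
    (h : AlgebraicIndependent ℚ fun m : {m : Fin (n + 1) →₀ ℕ // m.degree = p * a} =>
      coeff m.1 f) : NearKlein p a f := by
  have : Fact p.Prime := ⟨hpr⟩
  obtain ⟨φ, hφ⟩ : ∃ φ : MvPolynomial {m : Fin (n + 1) →₀ ℕ // m.degree = p * a} ℤ →ₐ[ℤ] k,
      φ = aeval fun m => coeff m.1 f := ⟨_, rfl⟩
  have hinj : Function.Injective φ := by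
    have h1 : Function.Injective (aeval (R := ℚ) fun m : {m : Fin (n + 1) →₀ ℕ //
        m.degree = p * a} => coeff m.1 f) := h
    have h2 : Function.Injective (MvPolynomial.map (σ := {m : Fin (n + 1) →₀ ℕ //
        m.degree = p * a}) (algebraMap ℤ ℚ)) := map_injective _ Int.cast_injective
    intro P Q hPQ
    apply h2
    apply h1
    rw [aeval_map_algebraMap, aeval_map_algebraMap]
    rw [hφ] at hPQ
    exact hPQ
  obtain ⟨ψ, hψ⟩ : ∃ ψ : MvPolynomial {m : Fin (n + 1) →₀ ℕ // m.degree = p * a} ℤ →+* ZMod p,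
      ψ = eval₂Hom (Int.castRingHom (ZMod p)) fun m => coeff m.1 (klein (ZMod p) n (p * a)) :=
    ⟨_, rfl⟩
  have hprime : (RingHom.ker ψ).IsPrime := RingHom.ker_isPrime ψ
  obtain ⟨V, -, hV⟩ := exists_valuation (φ : _ →+* k) hinj (RingHom.ker ψ)
  have hV' : ∀ P, φ P ∈ V.nonunits ↔ ψ P = 0 := fun P => (hV P).trans RingHom.mem_ker
  refine ⟨V, ?_, fun m => ?_⟩
  · have h1 := (hV' (p : MvPolynomial {m : Fin (n + 1) →₀ ℕ // m.degree = p * a} ℤ)).2 (by
      rw [map_natCast]
      exact ZMod.natCast_self p)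
    rwa [map_natCast] at h1
  · by_cases hm : m.degree = p * a
    · have h1 := (hV' (X ⟨m, hm⟩ - C (coeff m (klein ℤ n (p * a))))).2 (by
        rw [hψ, map_sub, coe_eval₂Hom, eval₂_X, eval₂_C, ← nea_map (Int.castRingHom (ZMod p)),
          coeff_map, sub_self])
      rw [hφ, map_sub, aeval_X, aeval_C] at h1
      have h2 : algebraMap ℤ k (coeff m (klein ℤ n (p * a))) = coeff m (klein k n (p * a)) := by
        rw [← nea_map (algebraMap ℤ k), coeff_map]
      rwa [h2] at h1
    · have h1 := (hV' 0).2 (map_zero ψ)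
      rw [map_zero] at h1
      rwa [hf.coeff_eq_zero hm, (klein_isHomogeneous n ha).coeff_eq_zero hm, sub_self]

end Pool.Agent.GEL
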