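import Pool.Agent.GEL.Tools

/-!
# The Klein form is smooth in characteristic zero

PLAN. For `n ≥ 1` (`j + 1 ≠ j`): the partial derivative by `x_j` at `x` is `(d-1) x_j^(d-2) x_(j+1) + x_(j-1)^(d-1)`
(`MvPolynomial.pderiv`, `Pi.single`; if `n = 1`, `j - 1 = j + 1`, no problem). Suppose all vanish, with `M_j = x_j^(d-1) x_(j+1)`:
`M_(j-1) = - (d-1) M_j` (multiply by `x_j`). If some `x_j = 0`, then `x_(j-1)^(d-1) = 0` (`d ≥ 3`), so all coordinates are 0 (go
round), contradiction. Otherwise all `M_j ≠ 0`, and going round `n + 1` steps: `M_0 = (-(d-1))^(n+1) M_0`, so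
`(-(d-1))^(n+1) = 1` in characteristic 0, impossible as `d - 1 ≥ 2` (absolute value, integers).
-/

open MvPolynomial

namespace Pool.Agent.GEL

private theorem smo_eval {k : Type*} [Field k] {n d : ℕ} (x : Fin (n + 1) → k) (j : Fin (n + 1)) :
    eval x (pderiv j (klein k n d)) =
      x (j - 1) ^ (d - 1) + ((d - 1 : ℕ) : k) * x j ^ (d - 2) * x (j + 1) := by
  unfold klein
  rw [map_sum, map_sum]
  have h1 : ∀ i : Fin (n + 1), eval x (pderiv j (X i ^ (d - 1) * X (i + 1) : MvPolynomial (Fin (n + 1)) k)) =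
      (if i = j - 1 then x i ^ (d - 1) else 0) +
        (if i = j then ((d - 1 : ℕ) : k) * x i ^ (d - 2) * x (i + 1) else 0) := by
    intro i
    rw [Derivation.leibniz, Derivation.leibniz_pow, pderiv_X, pderiv_X, Pi.single_apply,
      Pi.single_apply]
    have h2 : (i + 1 = j) ↔ (i = j - 1) := eq_sub_iff_add_eq.symm
    have h3 : d - 1 - 1 = d - 2 := by omega
    by_cases h4 : i + 1 = j
    · have h5 : i = j - 1 := h2.1 h4
      by_cases h6 : i = j
      · rw [if_pos h4, if_pos h6, if_pos h5, if_pos h6, h3]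
        simp
        ring
      · rw [if_pos h4, if_neg h6, if_pos h5, if_neg h6]
        simp
    · have h5 : ¬ i = j - 1 := fun h => h4 (h2.2 h)
      by_cases h6 : i = j
      · rw [if_neg h4, if_pos h6, if_neg h5, if_pos h6, h3]
        simp
        ring
      · rw [if_neg h4, if_neg h6, if_neg h5, if_neg h6]
        simp
  rw [Finset.sum_congr rfl fun i _ => h1 i, Finset.sum_add_distrib, Finset.sum_ite_eq',
    Finset.sum_ite_eq', if_pos (Finset.mem_univ _), if_pos (Finset.mem_univ _)]

private theorem smo_succ {n : ℕ} (m : ℕ) :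
    Fin.ofNat (n + 1) (m + 1) = Fin.ofNat (n + 1) m + 1 := by
  apply Fin.ext
  simp [Fin.val_add, Fin.val_one', Nat.add_mod]

private theorem smo_val {n : ℕ} (i : Fin (n + 1)) : Fin.ofNat (n + 1) i.val = i := by
  apply Fin.ext
  simp [Nat.mod_eq_of_lt i.2]

private theorem smo_zero {n : ℕ} : Fin.ofNat (n + 1) 0 = 0 := by
  apply Fin.ext
  simp

theorem klein_smooth {k : Type*} [Field k] [CharZero k] {n d : ℕ} (hn : 1 ≤ n) (hd : 3 ≤ d)
    (x : Fin (n + 1) → k) (hx : x ≠ 0) : ∃ j, eval x (pderiv j (klein k n d)) ≠ 0 := by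
  by_contra hcon
  push Not at hcon
  have hv : ∀ j, x (j - 1) ^ (d - 1) + ((d - 1 : ℕ) : k) * x j ^ (d - 2) * x (j + 1) = 0 := by
    intro j
    rw [← smo_eval]
    exact hcon j
  by_cases h0 : ∃ j, x j = 0
  · obtain ⟨j, hj⟩ := h0
    have h1 : ∀ m : ℕ, x (j - Fin.ofNat (n + 1) m) = 0 := by
      intro m
      induction m with
      | zero =>
        rw [smo_zero, sub_zero]
        exact hj
      | succ m ih =>
        have h2 := hv (j - Fin.ofNat (n + 1) m)
        rw [ih, zero_pow (by omega), mul_zero, zero_mul, add_zero] at h2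
        have h3 := pow_eq_zero_iff (by omega : d - 1 ≠ 0) |>.1 h2
        rw [smo_succ, ← sub_sub]
        exact h3
    apply hx
    funext i
    have h2 := h1 (j - i).val
    rw [smo_val, sub_sub_cancel] at h2
    exact h2
  · push Not at h0
    have hM : ∀ j, x (j - 1) ^ (d - 1) * x j = -((d - 1 : ℕ) : k) * (x j ^ (d - 1) * x (j + 1)) := by
      intro j
      have h1 := hv j
      have h2 : x j ^ (d - 1) = x j ^ (d - 2) * x j := by
        rw [← pow_succ]
        congr 1
        omega
      rw [h2]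
      linear_combination x j * h1
    have h1 : ∀ (j : Fin (n + 1)) (m : ℕ), x (j - Fin.ofNat (n + 1) m) ^ (d - 1) *
        x (j - Fin.ofNat (n + 1) m + 1) = (-((d - 1 : ℕ) : k)) ^ m * (x j ^ (d - 1) * x (j + 1)) := by
      intro j m
      induction m with
      | zero => rw [smo_zero, sub_zero, pow_zero, one_mul]
      | succ m ih =>
        have h2 := hM (j - Fin.ofNat (n + 1) m)
        rw [smo_succ, ← sub_sub, sub_add_cancel, h2, ih, pow_succ]
        ring
    have h2 := h1 0 (n + 1)
    have h3 : Fin.ofNat (n + 1) (n + 1) = 0 := by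
      apply Fin.ext
      simp
    rw [h3, sub_zero] at h2
    have h4 : x 0 ^ (d - 1) * x (0 + 1) ≠ 0 := mul_ne_zero (pow_ne_zero _ (h0 _)) (h0 _)
    have h5 : (-((d - 1 : ℕ) : k)) ^ (n + 1) = 1 := by
      apply mul_right_cancel₀ h4
      rw [one_mul]
      exact h2.symm
    have h6 : (-((d - 1 : ℕ) : ℤ)) ^ (n + 1) = 1 := by exact_mod_cast h5
    have h7 := congrArg Int.natAbs h6
    rw [Int.natAbs_pow, Int.natAbs_neg, Int.natAbs_natCast] at h7
    have h8 : 1 < (d - 1) ^ (n + 1) := Nat.one_lt_pow (by omega) (by omega)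
    rw [h7] at h8
    simp at h8

end Pool.Agent.GEL
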