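import Pool.Agent.GEL.Rig
import Pool.Agent.GEL.Dom
import Pool.Agent.GEL.ExA
import Pool.Agent.GEL.Nea
import Pool.Agent.GEL.Smo

/-!
# Extensions of degree prime to `p`
-/

open MvPolynomial

universe u

namespace Pool.Agent.GEL

theorem dominant_of_requiv {k : Type u} [Field k] [IsAlgClosed k] {n p a : ℕ} (hpr : p.Prime)
    (hn : 3 ≤ n) (ha : n + 2 ≤ p * a) (hpn : ¬ p ∣ n + 1) {f : MvPolynomial (Fin (n + 1)) k}
    (hf : f.IsHomogeneous (p * a)) (h : NearKlein p a f) {L : Type u} [Field L] [Algebra k L]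
    (P : Pt p f L) (hP : P.IsGeneric) (hK : ¬ p ∣ Module.finrank ↥P.funField L) (P' : Pt p f L)
    (h' : REquiv a P P') : P'.Dominant := by
  obtain ⟨V, hV⟩ := exists_adapted hpr P hP hK h
  exact dominant_of_sameReduction hP hV P' (rigidity hpr hn ha hpn hf hP hV P' h')

end Pool.Agent.GEL
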