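import Pool.Agent.GEL.Tools

/-!
# Maximal minors: elementary properties

PLAN. `mnr rows i = det (row e_i on top of rows)`.
* `mnr_mul`: let `M_i` be that `(N+1) × (N+1)` matrix. `M_i.mulVec v = v_i e_0` (the 0-th coordinate is `v_i`, the others
  are `∑ rows l i * v i = 0`). Multiply by the adjugate: `det (M_i) v = adj (M_i) (v_i e_0)`, i.e.
  `det (M_i) v_j = adj (M_i) j 0 * v_i`, and `adj (M_i) j 0 = det (M_i with row 0 replaced by e_j)`
  (`Matrix.adjugate_apply`: `adjugate A i j = (A.updateRow j (Pi.single i 1)).det`) `= mnr rows j`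
  (`updateRow` of `Fin.cons` at 0). So `mnr rows i * v_j = mnr rows j * v_i`.
* `mnr_comb`: if `∑ l, γ_l rows l = ε T` (as vectors), then `γ_l₀ * mnr rows i` is the determinant of the
  matrix with the row `l₀.succ` replaced by `γ_l₀ rows l₀`, hence by `∑ γ_l rows l` (adding multiples of the other
  rows: `Matrix.det_updateRow_sum` or `det_updateRow_add_smul_self`; or linearity of
  `det_updateRow` in the row and `det = 0` for equal rows), `= ε * det (row replaced by T)`.
* `mnr_map`: ring homomorphisms (`RingHom.map_det`).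
* `mnr_natDegree_le`: `Polynomial.natDegree_det...`: expand the determinant along the top row
  (`Matrix.det_succ_row_zero`) or `Matrix.det_apply`: each term is a product of `1` or `0` and `N`
  entries of degree `≤ e`.
-/

open Polynomial

namespace Pool.Agent.GEL

private noncomputable def mtx {A : Type*} [CommRing A] {N : ℕ} (rows : Fin N → Fin (N + 1) → A)
    (i : Fin (N + 1)) : Matrix (Fin (N + 1)) (Fin (N + 1)) A :=
  Matrix.of (Fin.cons (Pi.single i (1 : A)) rows : Fin (N + 1) → Fin (N + 1) → A)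

theorem mnr_mul {A : Type*} [CommRing A] {N : ℕ} (rows : Fin N → Fin (N + 1) → A)
    (v : Fin (N + 1) → A) (h : ∀ l, ∑ i, rows l i * v i = 0) (i j : Fin (N + 1)) :
    mnr rows i * v j = mnr rows j * v i := by
  have h1 : (mtx rows i).mulVec v = Pi.single 0 (v i) := by
    funext k
    refine Fin.cases ?_ (fun l => ?_) k
    · rw [Pi.single_eq_same]
      change ∑ j, (Pi.single i (1 : A) : Fin (N + 1) → A) j * v j = v i
      rw [Finset.sum_eq_single i]
      · rw [Pi.single_eq_same, one_mul]
      · intro j _ hj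
        rw [Pi.single_eq_of_ne hj, zero_mul]
      · intro hi
        exact absurd (Finset.mem_univ i) hi
    · rw [Pi.single_eq_of_ne (Fin.succ_ne_zero l)]
      exact h l
  have h2 : (mtx rows i).adjugate.mulVec ((mtx rows i).mulVec v) = (mtx rows i).det • v := by
    rw [Matrix.mulVec_mulVec, Matrix.adjugate_mul, Matrix.smul_mulVec, Matrix.one_mulVec]
  have h3 := congrFun h2 j
  rw [h1] at h3
  have h4 : ((mtx rows i).adjugate.mulVec (Pi.single 0 (v i))) j = (mtx rows i).adjugate j 0 * v i := by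
    change ∑ k, (mtx rows i).adjugate j k * (Pi.single 0 (v i) : Fin (N + 1) → A) k = _
    rw [Finset.sum_eq_single 0]
    · rw [Pi.single_eq_same]
    · intro k _ hk
      rw [Pi.single_eq_of_ne hk, mul_zero]
    · intro h0
      exact absurd (Finset.mem_univ _) h0
  rw [h4, Matrix.adjugate_apply] at h3
  have h5 : (mtx rows i).updateRow 0 (Pi.single j 1) = mtx rows j := by
    ext k m
    refine Fin.cases ?_ (fun l => ?_) k
    · rw [Matrix.updateRow_self]
      rfl
    · rw [Matrix.updateRow_ne (Fin.succ_ne_zero l)]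
      rfl
  rw [h5] at h3
  exact h3.symm

theorem mnr_comb {A : Type*} [CommRing A] {N : ℕ} (rows : Fin N → Fin (N + 1) → A)
    (γ : Fin N → A) (ε : A) (T : Fin (N + 1) → A) (h : ∀ i, ∑ l, γ l * rows l i = ε * T i)
    (l₀ : Fin N) (i : Fin (N + 1)) : ε ∣ γ l₀ * mnr rows i := by
  have h1 : Matrix.vecMul (Fin.cons 0 γ : Fin (N + 1) → A) (mtx rows i) = ε • T := by
    funext j
    change ∑ k, (Fin.cons 0 γ : Fin (N + 1) → A) k * mtx rows i k j = ε * T j
    rw [Fin.sum_univ_succ, Fin.cons_zero, zero_mul, zero_add, ← h j]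
    exact Finset.sum_congr rfl fun l _ => by rw [Fin.cons_succ]; rfl
  have h2 : Matrix.vecMul (Matrix.vecMul (Fin.cons 0 γ : Fin (N + 1) → A) (mtx rows i)) (mtx rows i).adjugate =
      (mtx rows i).det • (Fin.cons 0 γ : Fin (N + 1) → A) := by
    rw [Matrix.vecMul_vecMul, Matrix.mul_adjugate, Matrix.vecMul_smul, Matrix.vecMul_one]
  rw [h1, Matrix.smul_vecMul] at h2
  have h3 := congrFun h2 l₀.succ
  refine ⟨(Matrix.vecMul T (mtx rows i).adjugate) l₀.succ, ?_⟩
  change γ l₀ * (mtx rows i).det = _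
  have h4 : ((mtx rows i).det • (Fin.cons 0 γ : Fin (N + 1) → A)) l₀.succ = (mtx rows i).det * γ l₀ := by
    rw [Pi.smul_apply, Fin.cons_succ, smul_eq_mul]
  rw [h4] at h3
  rw [mul_comm, ← h3]
  rfl

theorem mnr_map {A B : Type*} [CommRing A] [CommRing B] (φ : A →+* B) {N : ℕ}
    (rows : Fin N → Fin (N + 1) → A) (i : Fin (N + 1)) :
    φ (mnr rows i) = mnr (fun l j => φ (rows l j)) i := by
  change φ (mtx rows i).det = (mtx (fun l j => φ (rows l j)) i).det
  rw [RingHom.map_det]
  congr 1
  ext k m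
  refine Fin.cases ?_ (fun l => ?_) k
  · change φ ((Pi.single i (1 : A) : Fin (N + 1) → A) m) = (Pi.single i (1 : B) : Fin (N + 1) → B) m
    rw [Pi.single_apply, Pi.single_apply]
    by_cases hm : m = i
    · rw [if_pos hm, if_pos hm, map_one]
    · rw [if_neg hm, if_neg hm, map_zero]
  · rfl

theorem mnr_natDegree_le {κ : Type*} [Field κ] {N : ℕ} (rows : Fin N → Fin (N + 1) → κ[X]) (e : ℕ)
    (h : ∀ l j, (rows l j).natDegree ≤ e) (i : Fin (N + 1)) : (mnr rows i).natDegree ≤ N * e := by
  change (mtx rows i).det.natDegree ≤ N * e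
  rw [Matrix.det_apply']
  refine natDegree_sum_le_of_forall_le _ _ fun σ _ => ?_
  have hb : ∀ k j, ((mtx rows i) k j).natDegree ≤ (Fin.cons 0 (fun _ => e) : Fin (N + 1) → ℕ) k := by
    intro k j
    refine Fin.cases ?_ (fun l => ?_) k
    · change ((Pi.single i (1 : κ[X]) : Fin (N + 1) → κ[X]) j).natDegree ≤ 0
      rw [Pi.single_apply]
      by_cases hm : j = i
      · rw [if_pos hm, natDegree_one]
      · rw [if_neg hm, natDegree_zero]
    · exact h l j
  have h1 : (∏ k, mtx rows i (σ k) k).natDegree ≤ N * e := by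
    refine (natDegree_prod_le _ _).trans ?_
    refine (Finset.sum_le_sum fun k _ => hb (σ k) k).trans ?_
    rw [Equiv.sum_comp σ (Fin.cons 0 (fun _ => e) : Fin (N + 1) → ℕ), Fin.sum_univ_succ, Fin.cons_zero, zero_add]
    simp only [Fin.cons_succ, Finset.sum_const, Finset.card_univ, Fintype.card_fin, smul_eq_mul]
    exact le_rfl
  have h2 : ((((Equiv.Perm.sign σ : ℤˣ) : ℤ) : κ[X])).natDegree = 0 := natDegree_intCast _
  calc _ ≤ ((((Equiv.Perm.sign σ : ℤˣ) : ℤ) : κ[X])).natDegree + (∏ k, mtx rows i (σ k) k).natDegree :=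
        natDegree_mul_le
    _ ≤ N * e := by rw [h2, zero_add]; exact h1

end Pool.Agent.GEL
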