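import Pool.Agent.GEL.PInt

/-!
# Residues of conjugates, II

PLAN.
* `conj_combine`: `S = (L →ₐ[K] Ω)` is finite; `w_σ` given. For `τ ∈ S` let
  `U_τ = {c ∈ κ₀^S : ∑ c_σ (residue of τ w_σ) is separable over κ₀}`, a `κ₀`-subspace of `S → κ₀` (the separable elements form a
  subfield `separableClosure κ₀ _`), proper because the unit vector `e_τ` is not in it. `κ₀` is infinite, so there is a
  `c` outside of all the `U_τ` (`Subspace.biUnion_ne_univ_of_top_notMem` or similar in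
  Mathlib/GroupTheory/CosetCover.lean). Lift `c_σ` to `C_σ ∈ K` with image in `W`, `w = ∑ C_σ w_σ`.
-/

namespace Pool.Agent.GEL

theorem conj_combine {K L Ω : Type*} [Field K] [Field L] [Field Ω] [Algebra K L] [Algebra K Ω]
    [FiniteDimensional K L] (W : ValuationSubring Ω)
    [Infinite ↥(resSub W (algebraMap K Ω).fieldRange)]
    (H : ∀ σ : L →ₐ[K] Ω, ∃ (w : L) (h : ∀ τ : L →ₐ[K] Ω, τ w ∈ W),
      ¬ IsSeparable ↥(resSub W (algebraMap K Ω).fieldRange) (IsLocalRing.residue W ⟨σ w, h σ⟩)) :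
    ∃ (w : L) (h : ∀ τ : L →ₐ[K] Ω, τ w ∈ W), ∀ τ : L →ₐ[K] Ω,
      ¬ IsSeparable ↥(resSub W (algebraMap K Ω).fieldRange)
        (IsLocalRing.residue W ⟨τ w, h τ⟩) := by
  classical
  set κ₀ := resSub W (algebraMap K Ω).fieldRange with hκ₀
  have hfin : Finite (L →ₐ[K] Ω) := inferInstance
  have : Fintype (L →ₐ[K] Ω) := Fintype.ofFinite _
  choose w h hns using H
  let r : (L →ₐ[K] Ω) → (L →ₐ[K] Ω) → IsLocalRing.ResidueField W := fun σ τ =>
    IsLocalRing.residue W ⟨τ (w σ), h σ τ⟩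
  let φ : (L →ₐ[K] Ω) → ((L →ₐ[K] Ω) → κ₀) →ₗ[κ₀] IsLocalRing.ResidueField W := fun τ =>
    ∑ σ, (LinearMap.toSpanSingleton κ₀ (IsLocalRing.ResidueField W) (r σ τ)) ∘ₗ LinearMap.proj σ
  have hφ : ∀ τ c, φ τ c = ∑ σ, (c σ : IsLocalRing.ResidueField W) * r σ τ := by
    intro τ c
    show (∑ σ, (LinearMap.toSpanSingleton κ₀ (IsLocalRing.ResidueField W) (r σ τ)) ∘ₗ LinearMap.proj σ) c = _
    rw [LinearMap.sum_apply]
    rfl
  let U : (L →ₐ[K] Ω) → Submodule κ₀ ((L →ₐ[K] Ω) → κ₀) := fun τ =>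
    Submodule.comap (φ τ) (Subalgebra.toSubmodule
      (separableClosure κ₀ (IsLocalRing.ResidueField W)).toSubalgebra)
  have hU : ∀ τ c, c ∈ U τ ↔ IsSeparable κ₀ (φ τ c) := by
    intro τ c
    rw [← mem_separableClosure_iff]
    rfl
  have hcov : ¬ (⋃ τ, (U τ : Set ((L →ₐ[K] Ω) → κ₀))) = Set.univ := by
    intro hcov
    obtain ⟨τ, hτ⟩ := Subspace.exists_eq_top_of_iUnion_eq_univ hcov
    have h1 : (Pi.single τ 1 : (L →ₐ[K] Ω) → κ₀) ∈ U τ := by
      rw [hτ]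
      exact Submodule.mem_top
    rw [hU, hφ] at h1
    apply hns τ
    have h2 : ∑ σ, ((Pi.single τ 1 : (L →ₐ[K] Ω) → κ₀) σ : IsLocalRing.ResidueField W) * r σ τ = r τ τ := by
      rw [Finset.sum_eq_single τ]
      · rw [Pi.single_eq_same]
        exact one_mul _
      · intro σ _ hσ
        rw [Pi.single_eq_of_ne hσ]
        exact zero_mul _
      · intro h3
        exact absurd (Finset.mem_univ _) h3
    rw [h2] at h1
    exact h1
  obtain ⟨c, hc⟩ := (Set.ne_univ_iff_exists_notMem _).1 hcov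
  rw [Set.mem_iUnion, not_exists] at hc
  have hlift : ∀ σ, ∃ (C : K) (u : W), algebraMap K Ω C = (u : Ω) ∧
      IsLocalRing.residue W u = (c σ : IsLocalRing.ResidueField W) := by
    intro σ
    obtain ⟨u, ⟨C, hC⟩, hu⟩ := (c σ).2
    exact ⟨C, u, hC, hu⟩
  choose C u hC hu using hlift
  have hτ : ∀ τ : L →ₐ[K] Ω, τ (∑ σ, algebraMap K L (C σ) * w σ) =
      ((∑ σ, u σ * ⟨τ (w σ), h σ τ⟩ : W) : Ω) := by
    intro τ
    rw [map_sum, AddSubmonoidClass.coe_finset_sum]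
    refine Finset.sum_congr rfl fun σ _ => ?_
    rw [map_mul, AlgHom.commutes, hC]
    rfl
  have hmem : ∀ τ : L →ₐ[K] Ω, τ (∑ σ, algebraMap K L (C σ) * w σ) ∈ W := by
    intro τ
    rw [hτ]
    exact (∑ σ, u σ * ⟨τ (w σ), h σ τ⟩ : W).2
  refine ⟨∑ σ, algebraMap K L (C σ) * w σ, hmem, fun τ hsep => ?_⟩
  apply hc τ
  show c ∈ U τ
  rw [hU, hφ]
  have h1 : (⟨τ (∑ σ, algebraMap K L (C σ) * w σ), hmem τ⟩ : W) =
      ∑ σ, u σ * ⟨τ (w σ), h σ τ⟩ := Subtype.ext (hτ τ)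
  rw [h1, map_sum] at hsep
  have h2 : ∑ σ, IsLocalRing.residue W (u σ * ⟨τ (w σ), h σ τ⟩) =
      ∑ σ, (c σ : IsLocalRing.ResidueField W) * r σ τ := by
    refine Finset.sum_congr rfl fun σ _ => ?_
    rw [map_mul, hu]
  rw [h2] at hsep
  exact hsep

end Pool.Agent.GEL
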