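import Mathlib

/-!
# The degree of a polynomial with inseparable irreducible factors

Induction on the factorization (`WfDvdMonoid.induction_on_irreducible`): `natDegree` is additive, and an
irreducible inseparable polynomial `q` has
`derivative q = 0` (`Polynomial.separable_iff_derivative_ne_zero`), so `q = expand κ₀ p q'`
(`Polynomial.expand_contract`), `natDegree q = p * natDegree q'`.
-/

open Polynomial

namespace Pool.Agent.GEL

private theorem dvd_irr {κ₀ : Type*} [Field κ₀] {p : ℕ} [Fact p.Prime] [CharP κ₀ p] (q : κ₀[X])
    (hq : Irreducible q) (h : ¬ q.Separable) : p ∣ q.natDegree := by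
  have h1 : derivative q = 0 := by
    by_contra hne
    exact h ((separable_iff_derivative_ne_zero hq).2 hne)
  have hp : p ≠ 0 := (Fact.out : p.Prime).ne_zero
  have h2 := expand_contract p h1 hp
  rw [← h2, natDegree_expand]
  exact Dvd.intro_left _ rfl

theorem dvd_natDegree {κ₀ : Type*} [Field κ₀] {p : ℕ} [Fact p.Prime] [CharP κ₀ p] (P : κ₀[X])
    (hP : P ≠ 0) (h : ∀ q : κ₀[X], Irreducible q → q ∣ P → ¬ q.Separable) : p ∣ P.natDegree := by
  induction P using WfDvdMonoid.induction_on_irreducible with
  | zero => exact absurd rfl hP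
  | unit u hu =>
    rw [natDegree_eq_zero_of_isUnit hu]
    exact dvd_zero p
  | mul a i ha hi ih =>
    rw [natDegree_mul hi.ne_zero ha]
    refine dvd_add (dvd_irr i hi (h i hi (dvd_mul_right i a))) (ih ha ?_)
    intro q hq hqa
    exact h q hq (hqa.mul_left i)

end Pool.Agent.GEL
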