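import Mathlib

/-!
# Valuation rings over a prime ideal
-/

namespace Pool.Agent.GEL

theorem exists_valuation {A K : Type*} [CommRing A] [Field K] (φ : A →+* K)
    (hφ : Function.Injective φ) (𝔭 : Ideal A) [𝔭.IsPrime] :
    ∃ V : ValuationSubring K, (∀ a, φ a ∈ V) ∧ ∀ a, φ a ∈ V.nonunits ↔ a ∈ 𝔭 := by
  have hu : ∀ y : 𝔭.primeCompl, IsUnit (φ y) := by
    intro y
    refine isUnit_iff_ne_zero.2 fun h => ?_
    have h1 : (y : A) = 0 := hφ (by rw [h, map_zero])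
    exact y.2 (by rw [h1]; exact 𝔭.zero_mem)
  let ψ : Localization.AtPrime 𝔭 →+* K := IsLocalization.lift (M := 𝔭.primeCompl) hu
  have hψ : ∀ a, ψ (algebraMap A _ a) = φ a := fun a => IsLocalization.lift_eq hu a
  obtain ⟨V, hV, hloc⟩ := IsLocalRing.exists_factor_valuationRing ψ
  have hmem : ∀ a, φ a ∈ V := by
    intro a
    rw [← hψ]
    exact hV _
  refine ⟨V, hmem, fun a => ?_⟩
  have e1 : φ a ∈ V.nonunits ↔ (⟨φ a, hmem a⟩ : V) ∈ IsLocalRing.maximalIdeal V :=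
    ValuationSubring.coe_mem_nonunits_iff (a := (⟨φ a, hmem a⟩ : V))
  have e2 : (⟨φ a, hmem a⟩ : V) ∈ IsLocalRing.maximalIdeal V ↔
      algebraMap A (Localization.AtPrime 𝔭) a ∈ IsLocalRing.maximalIdeal _ := by
    rw [IsLocalRing.mem_maximalIdeal, IsLocalRing.mem_maximalIdeal, mem_nonunits_iff,
      mem_nonunits_iff, not_iff_not]
    have e3 : (⟨φ a, hmem a⟩ : V) = ψ.codRestrict V.toSubring hV (algebraMap A _ a) :=
      Subtype.ext (hψ a).symm
    rw [e3]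
    exact isUnit_map_iff (ψ.codRestrict V.toSubring hV) _
  rw [e1, e2]
  exact IsLocalization.AtPrime.to_map_mem_maximal_iff (Localization.AtPrime 𝔭) 𝔭 a

end Pool.Agent.GEL
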