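import Pool.Agent.GEL.VSel
import Pool.Agent.GEL.VAe
import Pool.Agent.GEL.VRoot

/-!
# The reduction of a curve which does not reduce to a point

PLAN. `Ω = AlgebraicClosure L`, `W` with `W.comap (algebraMap L Ω) = V` (`ext_valuation`; `subst`).
`select` for `A l i = (X i).coeff l`: `lam`, `c₀`, `s`, `t`. Let `c₁ = c₀ lam^s ∈ Ω`, and
`Z i = C c₁⁻¹ * ((X i).map _).comp (C lam * X)`, with coefficients `A l i lam^l / c₁ ∈ W` (for `l > e` they are 0): so
`Z i = (Z' i).map W.subtype` with `Z' i : Polynomial W`. `reduce_curve`: `R` over `W` with `R.map = aeval Z f` and reduction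
`kl d (z)`, `z i = (Z' i).map (residue W)`. `scale_curve`: `aeval Z f = T^p`, `T = C (c₁⁻¹ ^ a) * (Y.map _).comp _`; by
`root_mem` `T = T'.map W.subtype`, `τ = T'.map (residue W)`, `τ^p = kl d z` (`Polynomial.map_injective` for `W.subtype`).
All `z i` are divisible by `X^s` (condition `l < s`): `z i = X^s * z' i`; so `τ^p = X^(s p a) kl d z'` (`kl_smul`), `X^(s a) ∣ τ`,
`τ = X^(s a) τ'`, `τ'^p = kl d z'`.
Descent to the residue field of `V = W.comap _` (`descend`, applied to the `W`-polynomials with the coefficients shifted by `s`,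
resp. `s a`, e.g. `Polynomial.divX` iterated): the coefficient of `z' i` at `l` is the residue of
`A (l+s) i lam^(l+s) / (c₀ lam^s) = (A (l+s) i / c₀) lam^l`, and the coefficient of `τ'` at `l` is the residue of
`Y_(l + s a) lam^(l + s a) / (c₀ lam^s)^a = (Y_(l + sa) / c₀^a) lam^l`; both lie in `L` if they are units (last part of
`select`). So `z' i = (ξ i).map (resMap W)`, `τ' = υ.map (resMap W)`; `resMap W` is injective (a homomorphism of fields), so
`υ^p = kl d ξ`. `(ξ i).eval 0` = residue of `A s i / c₀`; `c` = residue of `A s 0 / c₀`; `A s i / c₀ - x i A s 0 / c₀` is a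
nonunit (`s < t`), so `ξ i (0) = c x̄ i`; `c ≠ 0` because some `A s i / c₀` is not a nonunit. Finally for the
`j` with `(A t j - x j A t 0) lam^t / c₁` not a nonunit, the coefficient at `t - s` of
`(ξ j - C (x̄ j) ξ 0).map (resMap W)` is not zero.
(The generic point has `x 0 = 1`. `near` for `W`: `algebraMap k Ω = algebraMap L Ω ∘ algebraMap k L`.)
-/

open Polynomial

namespace Pool.Agent.GEL

private theorem vr_comap {L Ω : Type*} [Field L] [Field Ω] [Algebra L Ω] (W : ValuationSubring Ω) (u : L) :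
    u ∈ (W.comap (algebraMap L Ω)).nonunits ↔ algebraMap L Ω u ∈ W.nonunits := by
  rw [ValuationSubring.mem_nonunits_iff_or, ValuationSubring.mem_nonunits_iff_or, ← map_inv₀,
    map_eq_zero_iff (algebraMap L Ω) (algebraMap L Ω).injective]
  rfl

private theorem vr_lift {Ω : Type*} [Field Ω] (W : ValuationSubring Ω) (P : Polynomial Ω) (h : ∀ l, P.coeff l ∈ W) :
    ∃ Q : Polynomial W, Q.map W.subtype = P := by
  refine ⟨∑ l ∈ P.support, monomial l (⟨P.coeff l, h l⟩ : W), ?_⟩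
  rw [Polynomial.map_sum]
  conv_rhs => rw [P.as_sum_support]
  refine Finset.sum_congr rfl fun l _ => ?_
  rw [map_monomial]
  rfl

private theorem vr_shift {R : Type*} [Semiring R] (P : Polynomial R) (s : ℕ) :
    ∃ Q : Polynomial R, ∀ l, Q.coeff l = P.coeff (l + s) := by
  induction s with
  | zero => exact ⟨P, fun l => rfl⟩
  | succ s ih =>
    obtain ⟨Q, hQ⟩ := ih
    refine ⟨Q.divX, fun l => ?_⟩
    rw [coeff_divX, hQ]
    congr 1
    omega

private theorem vr_mul {R : Type*} [Semiring R] {P Q : Polynomial R} (s : ℕ)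
    (hQ : ∀ l, Q.coeff l = P.coeff (l + s)) (h0 : ∀ l < s, P.coeff l = 0) :
    P = Polynomial.X ^ s * Q := by
  ext l
  rw [coeff_X_pow_mul']
  split_ifs with h
  · rw [hQ, Nat.sub_add_cancel h]
  · exact h0 l (not_le.1 h)

private theorem vr_res0 {Ω : Type*} [Field Ω] {W : ValuationSubring Ω} {u : W} :
    IsLocalRing.residue W u = 0 ↔ (u : Ω) ∈ W.nonunits := by
  rw [IsLocalRing.residue_eq_zero_iff, ValuationSubring.coe_mem_nonunits_iff]

private theorem vr_core {k L Ω : Type*} [Field k] [Field L] [Field Ω] [Algebra k L] [Algebra L Ω]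
    [Algebra k Ω] [IsScalarTower k L Ω] [IsAlgClosed Ω] {n p a e : ℕ} (hp : 0 < p)
    (ha : 1 ≤ p * a) (f : MvPolynomial (Fin (n + 1)) k) (hf : f.IsHomogeneous (p * a))
    (W : ValuationSubring Ω)
    (near : ∀ m, algebraMap k Ω (MvPolynomial.coeff m f -
      MvPolynomial.coeff m (klein k n (p * a))) ∈ W.nonunits)
    (x : Fin (n + 1) → L) (hx0 : x 0 = 1) (hx : ∀ i, x i ∈ W.comap (algebraMap L Ω))
    (X : Fin (n + 1) → L[X]) (Y : L[X])
    (hY : Y ^ p = MvPolynomial.aeval X f) (hX : ∀ i, (X i).natDegree ≤ e)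
    (h0 : ∃ c : L, c ≠ 0 ∧ ∀ i, algebraMap L Ω (c * (X i).coeff 0 - x i) ∈ W.nonunits)
    (he : ∃ i, (X i).coeff e ≠ 0)
    (hne : ¬ ∃ c : L, c ≠ 0 ∧ ∀ i, algebraMap L Ω (c * (X i).coeff e - x i) ∈ W.nonunits) :
    ∃ (ξ : Fin (n + 1) → (IsLocalRing.ResidueField (W.comap (algebraMap L Ω)))[X])
      (υ : (IsLocalRing.ResidueField (W.comap (algebraMap L Ω)))[X])
      (c : IsLocalRing.ResidueField (W.comap (algebraMap L Ω))), υ ^ p = kl (p * a) ξ ∧ c ≠ 0 ∧
      (∀ i, (ξ i).eval 0 = c * IsLocalRing.residue (W.comap (algebraMap L Ω)) ⟨x i, hx i⟩) ∧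
      ∃ j, ξ j ≠ Polynomial.C (IsLocalRing.residue (W.comap (algebraMap L Ω)) ⟨x j, hx j⟩) * ξ 0 := by
  obtain ⟨lam, c₀, s, t, hlam, hc₀, hst, hte, hW, hWs, hs, ht, hlt, hram⟩ :=
    select W (fun l i => (X i).coeff l) x hx0 hx h0 he hne
  have hc₀' : algebraMap L Ω c₀ ≠ 0 := by
    rw [Ne, map_eq_zero_iff (algebraMap L Ω) (algebraMap L Ω).injective]
    exact hc₀
  set c₁ : Ω := algebraMap L Ω c₀ * lam ^ s with hc₁d
  have hc₁ : c₁ ≠ 0 := mul_ne_zero hc₀' (pow_ne_zero _ hlam)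
  let Z : Fin (n + 1) → Polynomial Ω := fun i =>
    Polynomial.C c₁⁻¹ * ((X i).map (algebraMap L Ω)).comp (Polynomial.C lam * Polynomial.X)
  have hZ : ∀ i l, (Z i).coeff l = algebraMap L Ω ((X i).coeff l) * lam ^ l / c₁ := by
    intro i l
    show (Polynomial.C c₁⁻¹ * ((X i).map (algebraMap L Ω)).comp (Polynomial.C lam * Polynomial.X)).coeff l = _
    rw [coeff_C_mul, comp_C_mul_X_coeff, coeff_map, div_eq_mul_inv, mul_comm]
  have hZW : ∀ i l, (Z i).coeff l ∈ W := by
    intro i l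
    rw [hZ]
    rcases le_or_gt l e with h | h
    · exact hW l h i
    · rw [coeff_eq_zero_of_natDegree_lt (lt_of_le_of_lt (hX i) h), map_zero, zero_mul, zero_div]
      exact W.zero_mem
  choose Z' hZ' using fun i => vr_lift W (Z i) (hZW i)
  have hZc : ∀ i l, (((Z' i).coeff l : W) : Ω) = algebraMap L Ω ((X i).coeff l) * lam ^ l / c₁ := by
    intro i l
    rw [← hZ, ← hZ' i, coeff_map]
    rfl
  obtain ⟨R, hR1, hR2⟩ := reduce_curve W f near Z'
  have hT := scale_curve f hf X Y hY lam c₁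
  have hR1' : R.map W.subtype = MvPolynomial.aeval Z f := by
    rw [hR1]
    have h1 : (fun i => (Z' i).map W.subtype) = Z := funext hZ'
    rw [h1]
  obtain ⟨T, hT'⟩ := root_mem W hp _ R (hT.trans hR1'.symm)
  have hTR : T ^ p = R := by
    apply Polynomial.map_injective W.subtype Subtype.val_injective
    rw [Polynomial.map_pow, hT', hT, hR1']
  have hTc : ∀ l, ((T.coeff l : W) : Ω) = (c₁⁻¹) ^ a * (algebraMap L Ω (Y.coeff l) * lam ^ l) := by
    intro l
    have h1 : ((T.coeff l : W) : Ω) = (T.map W.subtype).coeff l := by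
      rw [coeff_map]
      rfl
    rw [h1, hT', coeff_C_mul, comp_C_mul_X_coeff, coeff_map]
  have hτ : (T.map (IsLocalRing.residue W)) ^ p =
      kl (p * a) fun i => (Z' i).map (IsLocalRing.residue W) := by
    rw [← Polynomial.map_pow, hTR, hR2]
  choose Q hQ using fun i => vr_shift (Z' i) s
  have hzero : ∀ i, ∀ l < s, ((Z' i).map (IsLocalRing.residue W)).coeff l = 0 := by
    intro i l hl
    rw [coeff_map, vr_res0, hZc]
    exact hWs l hl i
  have hz : ∀ i, (Z' i).map (IsLocalRing.residue W) =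
      Polynomial.X ^ s * (Q i).map (IsLocalRing.residue W) := fun i =>
    vr_mul s (fun l => by rw [coeff_map, coeff_map, hQ]) (hzero i)
  have hτ2 : (T.map (IsLocalRing.residue W)) ^ p = (Polynomial.X ^ s) ^ (p * a) *
      kl (p * a) fun i => (Q i).map (IsLocalRing.residue W) := by
    rw [hτ, ← kl_smul ha]
    congr 1
    exact funext hz
  have hpow : ((Polynomial.X : (IsLocalRing.ResidueField W)[X]) ^ s) ^ (p * a) =
      (Polynomial.X ^ (s * a)) ^ p := by
    rw [← pow_mul, ← pow_mul]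
    congr 1
    ring
  have hdvd : (Polynomial.X ^ (s * a)) ^ p ∣ (T.map (IsLocalRing.residue W)) ^ p :=
    ⟨_, by rw [hτ2, hpow]⟩
  have hdvd' := (UniqueFactorizationMonoid.pow_dvd_pow_iff_dvd hp.ne').1 hdvd
  obtain ⟨U, hU⟩ := vr_shift T (s * a)
  have hτ3 : T.map (IsLocalRing.residue W) = Polynomial.X ^ (s * a) * U.map (IsLocalRing.residue W) :=
    vr_mul (s * a) (fun l => by rw [coeff_map, coeff_map, hU]) (X_pow_dvd_iff.1 hdvd')
  have hfin : (U.map (IsLocalRing.residue W)) ^ p =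
      kl (p * a) fun i => (Q i).map (IsLocalRing.residue W) := by
    have h1 : ((Polynomial.X : (IsLocalRing.ResidueField W)[X]) ^ (s * a)) ^ p ≠ 0 :=
      pow_ne_zero _ (pow_ne_zero _ X_ne_zero)
    apply mul_left_cancel₀ h1
    rw [← mul_pow, ← hτ3, hτ2, hpow]
  -- descent
  have hQv : ∀ i l, (((Q i).coeff l : W) : Ω) =
      algebraMap L Ω ((X i).coeff (l + s) / c₀) * lam ^ (l : ℤ) := by
    intro i l
    rw [hQ, hZc, map_div₀, zpow_natCast, pow_add, hc₁d]
    field_simp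
  have hUv : ∀ l, ((U.coeff l : W) : Ω) =
      algebraMap L Ω (Y.coeff (l + s * a) / c₀ ^ a) * lam ^ (l : ℤ) := by
    intro l
    have h1 : c₁ ^ a = algebraMap L Ω c₀ ^ a * lam ^ (s * a) := by
      rw [hc₁d, mul_pow, ← pow_mul]
    rw [hU, hTc, map_div₀, map_pow, zpow_natCast, pow_add, inv_pow, h1]
    field_simp
  choose ξ hξ using fun i => descend (L := L) W (Q i) (fun l hl => by
    have h1 := ((Q i).coeff l).2
    rw [hQv] at h1 hl ⊢
    exact hram _ _ h1 hl)
  obtain ⟨υ, hυ⟩ := descend (L := L) W U (fun l hl => by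
    have h1 := (U.coeff l).2
    rw [hUv] at h1 hl ⊢
    exact hram _ _ h1 hl)
  have hinj : Function.Injective (resMap (L := L) W) := (resMap (L := L) W).injective
  have hx' : ∀ i, algebraMap L Ω (x i) ∈ W := hx
  have hrx : ∀ i, resMap W (IsLocalRing.residue (W.comap (algebraMap L Ω)) ⟨x i, hx i⟩) =
      IsLocalRing.residue W ⟨algebraMap L Ω (x i), hx' i⟩ := fun i => resMap_residue W (x i) (hx i)
  -- the difference of two coefficients
  have hdiff : ∀ l, ∀ j, (((Z' j).coeff l - ⟨algebraMap L Ω (x j), hx' j⟩ * (Z' 0).coeff l : W) : Ω) =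
      algebraMap L Ω ((X j).coeff l - x j * (X 0).coeff l) * lam ^ l / c₁ := by
    intro l j
    have h1 : (((Z' j).coeff l - ⟨algebraMap L Ω (x j), hx' j⟩ * (Z' 0).coeff l : W) : Ω) =
        (((Z' j).coeff l : W) : Ω) - algebraMap L Ω (x j) * (((Z' 0).coeff l : W) : Ω) := rfl
    rw [h1, hZc, hZc, map_sub, map_mul]
    ring
  have hev : ∀ i, resMap W ((ξ i).eval 0) = IsLocalRing.residue W ((Z' i).coeff s) := by
    intro i
    rw [← coeff_zero_eq_eval_zero, ← coeff_map, hξ, coeff_map, hQ, zero_add]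
  refine ⟨ξ, υ, (ξ 0).eval 0, ?_, ?_, ?_, ?_⟩
  · apply Polynomial.map_injective _ hinj
    rw [Polynomial.map_pow, hυ, hfin]
    have h1 := map_kl (Polynomial.mapRingHom (resMap (L := L) W)) (p * a) ξ
    rw [Polynomial.coe_mapRingHom] at h1
    rw [h1]
    congr 1
    exact funext fun i => (hξ i).symm
  · intro hc
    obtain ⟨i, hi⟩ := hs
    apply hi
    have h1 : IsLocalRing.residue W ((Z' 0).coeff s) = 0 := by
      rw [← hev, hc, map_zero]
    have h2 := hlt s hst i
    rw [← hdiff s i, ← vr_res0, map_sub, map_mul, h1, mul_zero, sub_zero, vr_res0, hZc] at h2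
    exact h2
  · intro i
    apply hinj
    rw [map_mul, hev, hev, hrx]
    have h2 := hlt s hst i
    rw [← hdiff s i, ← vr_res0, map_sub, map_mul, sub_eq_zero] at h2
    rw [h2, mul_comm]
  · obtain ⟨j, hj⟩ := ht
    refine ⟨j, fun hcon => hj ?_⟩
    have h1 := congrArg (fun P => (P.map (resMap (L := L) W)).coeff (t - s)) hcon
    simp only [Polynomial.map_mul, Polynomial.map_C] at h1
    rw [hξ, hξ, coeff_C_mul, coeff_map, coeff_map, hQ, hQ, Nat.sub_add_cancel hst.le, hrx] at h1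
    rw [← hdiff t j, ← vr_res0, map_sub, map_mul, h1, sub_self]

theorem reduction {k L : Type*} [Field k] [Field L] [Algebra k L] {n p a e : ℕ} (hp : 0 < p)
    (ha : 1 ≤ p * a) (f : MvPolynomial (Fin (n + 1)) k) (hf : f.IsHomogeneous (p * a))
    (V : ValuationSubring L)
    (near : ∀ m, algebraMap k L (MvPolynomial.coeff m f -
      MvPolynomial.coeff m (klein k n (p * a))) ∈ V.nonunits)
    (x : Fin (n + 1) → L) (hx0 : x 0 = 1) (hx : ∀ i, x i ∈ V) (X : Fin (n + 1) → L[X]) (Y : L[X])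
    (hY : Y ^ p = MvPolynomial.aeval X f) (hX : ∀ i, (X i).natDegree ≤ e)
    (h0 : ∃ c : L, c ≠ 0 ∧ ∀ i, c * (X i).eval 0 - x i ∈ V.nonunits)
    (he : ∃ i, (X i).coeff e ≠ 0)
    (hne : ¬ ∃ c : L, c ≠ 0 ∧ ∀ i, c * (X i).coeff e - x i ∈ V.nonunits) :
    ∃ (ξ : Fin (n + 1) → (IsLocalRing.ResidueField V)[X]) (υ : (IsLocalRing.ResidueField V)[X])
      (c : IsLocalRing.ResidueField V), υ ^ p = kl (p * a) ξ ∧ c ≠ 0 ∧
      (∀ i, (ξ i).eval 0 = c * IsLocalRing.residue V ⟨x i, hx i⟩) ∧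
      ∃ j, ξ j ≠ Polynomial.C (IsLocalRing.residue V ⟨x j, hx j⟩) * ξ 0 := by
  classical
  obtain ⟨W, rfl⟩ := ext_valuation (Ω := AlgebraicClosure L) V
  refine vr_core (Ω := AlgebraicClosure L) hp ha f hf W (fun m => ?_) x hx0 hx X Y hY hX ?_ he ?_
  · have h1 := near m
    rw [vr_comap, ← IsScalarTower.algebraMap_apply] at h1
    exact h1
  · obtain ⟨c, hc, h⟩ := h0
    refine ⟨c, hc, fun i => ?_⟩
    rw [← vr_comap, coeff_zero_eq_eval_zero]
    exact h i
  · rintro ⟨c, hc, h⟩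
    exact hne ⟨c, hc, fun i => (vr_comap W _).2 (h i)⟩

end Pool.Agent.GEL
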