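import Pool.Agent.GEL.CurB
import Pool.Agent.GEL.VRed
import Pool.Agent.GEL.GAs
import Pool.Agent.GEL.GAC
import Pool.Agent.GEL.Moe

/-!
# Points which are R-equivalent to the generic point reduce to it

PLAN.
* `sameReduction_of_x`: let `z i = ⟨c * P'.x i, _⟩ ∈ V` (congruent to `P.x i ∈ V`). `reduce_point` for `z` and for
  `P.x`: `(c^a P'.y)^p = f(c P'.x)` (homogeneity, `P'.eq`) and `P.y^p = f(P.x)` have the same residue `kl (p a) x̄`; so
  `c^a P'.y ∈ V` and the residues of `c^a P'.y` and `P.y` have the same `p`-th power; the residue field has characteristic `p`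
  (`residue_charP`), so they agree (`sub_pow_char`).
* `joined_step`: let `X, Y` be the curve, `X(0) = c₁ P'.x`, `X(1) = c₂ P''.x`; `e` = maximum of the degrees.
  `X' i = moeb 1 e (X i)`, `Y' = moeb 1 (a e) Y` (`moeb_curve`; `L` is infinite since it contains the algebraically closed `k`):
  `X'(0) = X(0)` (`moeb_eval_zero`), `(X' i).coeff e = X_i(1) = c₂ P''.x i` (`moeb_coeff` with `b = 1`). By `sameReduction_of_x` it is
  enough to find `c ≠ 0` with `c P''.x i ≡ P.x i`. If there is none, `reduction` (`x = P.x`; `h0`: `c / c₁` with `c` from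
  `SameReduction a V P P'`; `he` since `P''.ne`) gives a curve `ξ` over the residue field with `ξ(0) = c x̄`, `ξ j ≠ x̄_j ξ 0` for some
  `j`, contradicting `curve_charp` with `k₀ = ↥(resSub V (algebraMap k L).fieldRange)` (`resSub_isAlgClosed`), `κ` the residue
  field of `V`, `x̄`, `ȳ` and `adapted_indep`, `adapted_eq`, `adapted_sep`.
* `rigidity`: induction on `Relation.EqvGen`: show `REquiv a P' P'' → (SameReduction a V P P' ↔ SameReduction a V P P'')`; the step
  backwards uses the reversed curve `X(1 - t)` (`Joined` is symmetric). `SameReduction a V P P` with `c = 1`.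
-/

open MvPolynomial

universe u

namespace Pool.Agent.GEL

variable {k : Type u} [Field k] {n p a : ℕ} {f : MvPolynomial (Fin (n + 1)) k} {L : Type u}
  [Field L] [Algebra k L] {P : Pt p f L} {V : ValuationSubring L}

private theorem rig_pow_mem {L : Type*} [Field L] (V : ValuationSubring L) {p : ℕ} (hp : 0 < p)
    (u : L) (h : u ^ p ∈ V) : u ∈ V := by
  rw [← V.valuation_le_one_iff] at h ⊢
  rw [map_pow] at h
  exact (pow_le_one_iff hp.ne').1 h

private theorem rig_nonunits_mem {L : Type*} [Field L] (V : ValuationSubring L) {u : L}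
    (h : u ∈ V.nonunits) : u ∈ V :=
  V.nonunits_subset h

private theorem rig_res0 {L : Type*} [Field L] {V : ValuationSubring L} {u : V} :
    IsLocalRing.residue V u = 0 ↔ (u : L) ∈ V.nonunits := by
  rw [IsLocalRing.residue_eq_zero_iff, ValuationSubring.coe_mem_nonunits_iff]

private theorem rig_res_eq {L : Type*} [Field L] {V : ValuationSubring L} {u w : V} :
    IsLocalRing.residue V u = IsLocalRing.residue V w ↔ (u : L) - (w : L) ∈ V.nonunits := by
  rw [← sub_eq_zero, ← map_sub, rig_res0]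
  rfl

private theorem rig_homog {k L : Type*} [Field k] [Field L] [Algebra k L] {n d : ℕ}
    (f : MvPolynomial (Fin (n + 1)) k) (hf : f.IsHomogeneous d) (c : L) (x : Fin (n + 1) → L) :
    aeval (fun i => c * x i) f = c ^ d * aeval x f := by
  rw [MvPolynomial.aeval_def, MvPolynomial.aeval_def, MvPolynomial.eval₂_eq,
    MvPolynomial.eval₂_eq, Finset.mul_sum]
  refine Finset.sum_congr rfl fun m hm => ?_
  have h1 : ∑ i ∈ m.support, m i = d := by
    have h2 := hf (MvPolynomial.mem_support_iff.1 hm)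
    rw [← h2, Finsupp.weight_apply, Finsupp.sum]
    refine Finset.sum_congr rfl fun i _ => ?_
    simp
  have h3 : ∏ i ∈ m.support, (c * x i) ^ m i = c ^ d * ∏ i ∈ m.support, x i ^ m i := by
    rw [← h1, ← Finset.prod_pow_eq_pow_sum, ← Finset.prod_mul_distrib]
    exact Finset.prod_congr rfl fun i _ => mul_pow _ _ _
  rw [h3]
  ring

theorem sameReduction_of_x (hpr : p.Prime) (hf : f.IsHomogeneous (p * a)) (hV : Adapted a P V)
    (P' : Pt p f L) (h : ∃ c : L, c ≠ 0 ∧ ∀ i, c * P'.x i - P.x i ∈ V.nonunits) :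
    SameReduction a V P P' := by
  obtain ⟨c, hc, hcx⟩ := h
  refine ⟨c, hc, hcx, ?_⟩
  have _hp : Fact p.Prime := ⟨hpr⟩
  have := residue_charP V p hV.char
  have hz : ∀ i, c * P'.x i ∈ V := by
    intro i
    have h1 := V.add_mem _ _ (rig_nonunits_mem V (hcx i)) (hV.mem i)
    rwa [sub_add_cancel] at h1
  obtain ⟨r, hr1, hr2⟩ := reduce_point (Ω := L) V f hV.near fun i => ⟨c * P'.x i, hz i⟩
  obtain ⟨r₀, hr₀1, hr₀2⟩ := reduce_point (Ω := L) V f hV.near fun i => ⟨P.x i, hV.mem i⟩
  have hres : (fun i => IsLocalRing.residue V ⟨c * P'.x i, hz i⟩) =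
      fun i => IsLocalRing.residue V ⟨P.x i, hV.mem i⟩ := by
    funext i
    exact rig_res_eq.2 (hcx i)
  have hrr : IsLocalRing.residue V r = IsLocalRing.residue V r₀ := by
    rw [hr2, hr₀2, hres]
  have h1 : (r : L) = (c ^ a * P'.y) ^ p := by
    rw [hr1]
    show aeval (fun i => c * P'.x i) f = _
    rw [rig_homog f hf, ← P'.eq, mul_pow, ← pow_mul, mul_comm a p]
  have h0 : (r₀ : L) = P.y ^ p := by
    rw [hr₀1]
    show aeval (fun i => P.x i) f = _
    rw [P.eq]
  have hy1 : c ^ a * P'.y ∈ V := rig_pow_mem V hpr.pos _ (by rw [← h1]; exact r.2)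
  have hy0 : P.y ∈ V := rig_pow_mem V hpr.pos _ (by rw [← h0]; exact r₀.2)
  have e1 : IsLocalRing.residue V ⟨c ^ a * P'.y, hy1⟩ ^ p = IsLocalRing.residue V r := by
    rw [← map_pow]
    congr 1
    exact Subtype.ext h1.symm
  have e0 : IsLocalRing.residue V ⟨P.y, hy0⟩ ^ p = IsLocalRing.residue V r₀ := by
    rw [← map_pow]
    congr 1
    exact Subtype.ext h0.symm
  have e2 : IsLocalRing.residue V ⟨c ^ a * P'.y, hy1⟩ = IsLocalRing.residue V ⟨P.y, hy0⟩ := by
    rw [← sub_eq_zero]
    have h3 : (IsLocalRing.residue V ⟨c ^ a * P'.y, hy1⟩ - IsLocalRing.residue V ⟨P.y, hy0⟩) ^ p =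
        0 := by
      rw [sub_pow_char, e1, e0, hrr, sub_self]
    exact pow_eq_zero_iff hpr.ne_zero |>.1 h3
  exact rig_res_eq.1 e2

theorem Joined.symm {P P' : Pt p f L} (h : Joined a P P') : Joined a P' P := by
  obtain ⟨X, Y, hY, hP, hP'⟩ := h
  obtain ⟨φ, hφ⟩ : ∃ φ : Polynomial L →ₐ[k] Polynomial L, ∀ Q,
      φ Q = Polynomial.aeval (1 - Polynomial.X : Polynomial L) Q :=
    ⟨(Polynomial.aeval (1 - Polynomial.X : Polynomial L)).restrictScalars k, fun Q => rfl⟩
  have he0 : ∀ Q : Polynomial L, (φ Q).eval 0 = Q.eval 1 := by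
    intro Q
    rw [hφ, Polynomial.aeval_def, Polynomial.algebraMap_eq, ← Polynomial.comp, Polynomial.eval_comp]
    simp
  have he1 : ∀ Q : Polynomial L, (φ Q).eval 1 = Q.eval 0 := by
    intro Q
    rw [hφ, Polynomial.aeval_def, Polynomial.algebraMap_eq, ← Polynomial.comp, Polynomial.eval_comp]
    simp
  refine ⟨fun i => φ (X i), φ Y, ?_, ?_, ?_⟩
  · rw [← map_pow, hY, MvPolynomial.comp_aeval_apply]
  · simp only [he0]
    exact hP'
  · simp only [he1]
    exact hP

theorem joined_step [IsAlgClosed k] (hpr : p.Prime) (hn : 3 ≤ n) (ha : n + 2 ≤ p * a)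
    (hpn : ¬ p ∣ n + 1) (hf : f.IsHomogeneous (p * a)) (hP : P.IsGeneric) (hV : Adapted a P V)
    (P' P'' : Pt p f L) (h : Joined a P' P'') (h' : SameReduction a V P P') :
    SameReduction a V P P'' := by
  have _hp : Fact p.Prime := ⟨hpr⟩
  have := residue_charP V p hV.char
  have : Infinite k := IsAlgClosed.instInfinite
  have : Infinite L := Infinite.of_injective (algebraMap k L) (algebraMap k L).injective
  have := resSub_isAlgClosed (k := k) V
  obtain ⟨X, Y, hY, ⟨c₁, hc₁, hX0, -⟩, ⟨c₂, hc₂, hX1, -⟩⟩ := h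
  obtain ⟨c, hc, hcx, -⟩ := h'
  obtain ⟨e, he⟩ : ∃ e, ∀ i, (X i).natDegree ≤ e :=
    ⟨Finset.univ.sup fun i => (X i).natDegree, fun i =>
      Finset.le_sup (f := fun i => (X i).natDegree) (Finset.mem_univ i)⟩
  have hcurve := (moeb_curve hpr.pos f hf X Y hY e he (1 : L)).2
  have hE0 : ∀ i, (moeb 1 e (X i)).eval 0 = c₁ * P'.x i := by
    intro i
    rw [moeb_eval_zero]
    exact hX0 i
  have hE1 : ∀ i, (moeb 1 e (X i)).coeff e = c₂ * P''.x i := by
    intro i
    rw [moeb_coeff 1 one_ne_zero e (X i) (he i), one_pow, one_mul, inv_one]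
    exact hX1 i
  apply sameReduction_of_x hpr hf hV P''
  by_contra hcon
  obtain ⟨ξ, υ, c', hυ, hc', hξ0, j, hj⟩ := reduction (a := a) (e := e) hpr.pos (by omega) f hf V
    hV.near P.x hP.one hV.mem (fun i => moeb 1 e (X i)) (moeb 1 (a * e) Y) hcurve
    (fun i => moeb_natDegree_le 1 e (X i))
    ⟨c / c₁, div_ne_zero hc hc₁, fun i => by
      rw [hE0]
      have h1 : c / c₁ * (c₁ * P'.x i) = c * P'.x i := by
        field_simp
      rw [h1]
      exact hcx i⟩
    (by
      obtain ⟨i, hi⟩ := Function.ne_iff.1 P''.ne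
      refine ⟨i, ?_⟩
      rw [hE1]
      exact mul_ne_zero hc₂ hi)
    (by
      rintro ⟨c', hc', hx'⟩
      apply hcon
      refine ⟨c' * c₂, mul_ne_zero hc' hc₂, fun i => ?_⟩
      have h1 := hx' i
      rw [hE1, ← mul_assoc] at h1
      exact h1)
  apply hj
  refine curve_charp (k₀ := ↥(resSub V (algebraMap k L).fieldRange)) hn ha hpn
    (fun i => IsLocalRing.residue V ⟨P.x i, hV.mem i⟩)
    (IsLocalRing.residue V ⟨P.y, adapted_y_mem hpr.pos hV⟩) ?_ (adapted_indep hV)
    (adapted_eq hpr.pos hV) (adapted_sep hpr.pos hpr (by omega) (by omega) hP hV)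
    ξ υ hυ c' hc' hξ0 j
  rw [← map_one (IsLocalRing.residue V)]
  congr 1
  exact Subtype.ext hP.one

theorem rigidity [IsAlgClosed k] (hpr : p.Prime) (hn : 3 ≤ n) (ha : n + 2 ≤ p * a)
    (hpn : ¬ p ∣ n + 1) (hf : f.IsHomogeneous (p * a)) (hP : P.IsGeneric) (hV : Adapted a P V)
    (P' : Pt p f L) (h : REquiv a P P') : SameReduction a V P P' := by
  have key : ∀ Q Q' : Pt p f L, REquiv a Q Q' →
      (SameReduction a V P Q ↔ SameReduction a V P Q') := by
    intro Q Q' hQ
    induction hQ with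
    | rel Q Q' h =>
      exact ⟨joined_step hpr hn ha hpn hf hP hV Q Q' h,
        joined_step hpr hn ha hpn hf hP hV Q' Q h.symm⟩
    | refl Q => exact Iff.rfl
    | symm Q Q' _ ih => exact ih.symm
    | trans Q Q' Q'' _ _ ih1 ih2 => exact ih1.trans ih2
  refine (key P P' h).1 ⟨1, one_ne_zero, fun i => ?_, ?_⟩
  · rw [one_mul, sub_self]
    exact (ValuationSubring.mem_nonunits_iff_or V).2 (Or.inl rfl)
  · rw [one_pow, one_mul, sub_self]
    exact (ValuationSubring.mem_nonunits_iff_or V).2 (Or.inl rfl)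

end Pool.Agent.GEL
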