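import Pool.Agent.GEL.Defs

/-!
# Auxiliary definitions for the proofs (not used in the statement of the result)
-/

open MvPolynomial

namespace Pool.Agent.GEL

/-- the value of the Klein form of degree `d` -/
def kl {A : Type*} [CommRing A] {n : ℕ} (d : ℕ) (ξ : Fin (n + 1) → A) : A :=
  ∑ j : Fin (n + 1), ξ j ^ (d - 1) * ξ (j + 1)

/-- the gradient of the Klein form of degree `d` if `d = 0` in `A` -/
def grad {A : Type*} [CommRing A] {n : ℕ} (d : ℕ) (ξ : Fin (n + 1) → A) (j : Fin (n + 1)) : A :=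
  ξ (j - 1) ^ (d - 1) - ξ j ^ (d - 2) * ξ (j + 1)

/-- the Hessian of the Klein form of degree `d` at `ζ`, applied to `w`, if `d = 0` in `A` -/
def hess {A : Type*} [CommRing A] {n : ℕ} (d : ℕ) (ζ w : Fin (n + 1) → A) (j : Fin (n + 1)) : A :=
  -(ζ (j - 1) ^ (d - 2) * w (j - 1)) + 2 * ζ j ^ (d - 3) * ζ (j + 1) * w j - ζ j ^ (d - 2) * w (j + 1)

/-- the (signed) maximal minors of an `N × (N + 1)` matrix -/
noncomputable def mnr {A : Type*} [CommRing A] {N : ℕ} (rows : Fin N → Fin (N + 1) → A) (i : Fin (N + 1)) :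
    A :=
  (Matrix.of (Fin.cons (Pi.single i (1 : A)) rows : Fin (N + 1) → Fin (N + 1) → A)).det

/-- `(1 + b s)^e P(s / (1 + b s))` for a polynomial `P` of degree `≤ e` -/
noncomputable def moeb {F : Type*} [Field F] (b : F) (e : ℕ) (P : Polynomial F) : Polynomial F :=
  ∑ l ∈ Finset.range (e + 1),
    Polynomial.C (P.coeff l) * Polynomial.X ^ l * (1 + Polynomial.C b * Polynomial.X) ^ (e - l)

/-- the image of `V ∩ S` in the residue field of `V`, for a subfield `S` of `L` -/
noncomputable def resSub {L : Type*} [Field L] (V : ValuationSubring L) (S : Subfield L) :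
    Subfield (IsLocalRing.ResidueField V) where
  carrier := {α | ∃ u : V, (u : L) ∈ S ∧ IsLocalRing.residue V u = α}
  mul_mem' := by
    rintro _ _ ⟨u, hu, rfl⟩ ⟨w, hw, rfl⟩
    exact ⟨u * w, S.mul_mem hu hw, map_mul _ _ _⟩
  one_mem' := ⟨1, S.one_mem, map_one _⟩
  add_mem' := by
    rintro _ _ ⟨u, hu, rfl⟩ ⟨w, hw, rfl⟩
    exact ⟨u + w, S.add_mem hu hw, map_add _ _ _⟩
  zero_mem' := ⟨0, S.zero_mem, map_zero _⟩
  neg_mem' := by
    rintro _ ⟨u, hu, rfl⟩
    exact ⟨-u, S.neg_mem hu, map_neg _ _⟩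
  inv_mem' := by
    rintro _ ⟨u, hu, rfl⟩
    by_cases h : IsUnit u
    · obtain ⟨u, rfl⟩ := h
      refine ⟨((u⁻¹ : Vˣ) : V), ?_, ?_⟩
      · have h1 : (((u⁻¹ : Vˣ) : V) : L) = (((u : Vˣ) : V) : L)⁻¹ := by
          refine eq_inv_of_mul_eq_one_left ?_
          have h2 : ((u⁻¹ : Vˣ) : V) * ((u : Vˣ) : V) = 1 := Units.inv_mul u
          exact_mod_cast congrArg (Subtype.val) h2
        rw [h1]
        exact S.inv_mem hu
      · refine eq_inv_of_mul_eq_one_left ?_
        rw [← map_mul, Units.inv_mul, map_one]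
    · refine ⟨0, S.zero_mem, ?_⟩
      have h1 : IsLocalRing.residue V u = 0 := by
        rw [IsLocalRing.residue_eq_zero_iff]
        exact (IsLocalRing.mem_maximalIdeal u).2 h
      rw [h1, map_zero, inv_zero]

theorem mem_resSub {L : Type*} [Field L] {V : ValuationSubring L} {S : Subfield L}
    {α : IsLocalRing.ResidueField V} :
    α ∈ resSub V S ↔ ∃ u : V, (u : L) ∈ S ∧ IsLocalRing.residue V u = α := Iff.rfl

/-- the homomorphism of residue fields of an extension of valuation rings -/
noncomputable def resMap {L Ω : Type*} [Field L] [Field Ω] [Algebra L Ω] (W : ValuationSubring Ω) :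
    IsLocalRing.ResidueField (W.comap (algebraMap L Ω)) →+* IsLocalRing.ResidueField W :=
  Ideal.Quotient.lift _
    ((IsLocalRing.residue W).comp
      (((algebraMap L Ω).comp (W.comap (algebraMap L Ω)).subtype).codRestrict W.toSubring
        fun u => u.2))
    (by
      intro u hu
      rw [RingHom.comp_apply, IsLocalRing.residue_eq_zero_iff, ← ValuationSubring.coe_mem_nonunits_iff]
      rw [← ValuationSubring.coe_mem_nonunits_iff, ValuationSubring.mem_nonunits_iff_or] at hu
      rw [ValuationSubring.mem_nonunits_iff_or]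
      rcases hu with hu | hu
      · left
        show algebraMap L Ω (u : L) = 0
        rw [hu, map_zero]
      · right
        intro h
        apply hu
        show algebraMap L Ω ((u : L)⁻¹) ∈ W
        rw [map_inv₀]
        exact h)

theorem resMap_residue {L Ω : Type*} [Field L] [Field Ω] [Algebra L Ω] (W : ValuationSubring Ω)
    (u : L) (hu : algebraMap L Ω u ∈ W) :
    resMap W (IsLocalRing.residue (W.comap (algebraMap L Ω)) ⟨u, hu⟩) =
      IsLocalRing.residue W ⟨algebraMap L Ω u, hu⟩ := rfl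

/-- the property `Adapted.gauss` for arbitrary elements `z_1, …, z_n` -/
def Gauss {k L : Type*} [Field k] [Field L] [Algebra k L] {n : ℕ} (V : ValuationSubring L)
    (z : Fin n → L) : Prop :=
  ∀ g : MvPolynomial (Fin n) k, (∀ m, algebraMap k L (coeff m g) ∈ V) →
    aeval z g ∈ V.nonunits → ∀ m, algebraMap k L (coeff m g) ∈ V.nonunits

end Pool.Agent.GEL
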