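import Mathlib

/-!
# A Newton polygon lemma

PLAN. Write `|.|` for `v`, omit `algebraMap`. `α 0 ≠ 0` since `|β 0| < |α 0|`. Call `l ≤ e` dominant at `γ ∈ Γ₀`, `γ ≠ 0`, if
`|α l'| γ^l' ≤ |α l| γ^l` for all `l' ≤ e`. The index `e` is dominant at
`γ = max (1, max_{l<e} |α l / α e|)` (`γ^(e-l) ≥ γ ≥ |α l / α e|` as `γ ≥ 1`).
Let `t` be the smallest index with `|β t| = |α t|` which is dominant at some `γ` (exists: `e`; then `α t ≠ 0`, and
`t ≠ 0` by `h0`). For `l < t` choose `lam_l ∈ Ω` with `lam_l^(t - l) = α l / α t` (`IsAlgClosed.exists_pow_nat_eq`); let `lam` be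
the one with the largest `|lam_l|` (`Finset.exists_max_image`), index `l₁`; `|lam| ≥ |lam_0| > 0`; `N = t - l₁`.
* `|α l| |lam|^l ≤ |α t| |lam|^t` for `l < t`: `|α l / α t| = |lam_l|^(t-l) ≤ |lam|^(t-l)`; equality for `l = l₁`.
* `|lam| ≤ γ` if `t` is dominant at `γ` (`|lam|^(t-l₁) = |α l₁ / α t| ≤ γ^(t-l₁)`), so for `l > t`:
  `|α l| |lam|^(l-t) ≤ |α l| γ^(l-t) ≤ |α t|`. So `t` is dominant at `|lam|`.
* `s` := the smallest index with `|α s| |lam|^s = |α t| |lam|^t`; `s ≤ l₁ < t`; `α s ≠ 0`.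
* `|β l| |lam|^l < |α t| |lam|^t` for `l < t`: clear if `|α l| |lam|^l < |α t| |lam|^t`; otherwise `l` is dominant at `|lam|`, so
  `|β l| ≠ |α l|` by the minimality of `t`, `|β l| < |α l|`.
-/

namespace Pool.Agent.GEL

theorem newton {L Ω Γ₀ : Type*} [Field L] [Field Ω] [Algebra L Ω] [IsAlgClosed Ω]
    [LinearOrderedCommGroupWithZero Γ₀] (v : Valuation Ω Γ₀) (α β : ℕ → L) (e : ℕ)
    (h : ∀ l, v (algebraMap L Ω (β l)) ≤ v (algebraMap L Ω (α l)))
    (h0 : v (algebraMap L Ω (β 0)) < v (algebraMap L Ω (α 0)))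
    (he : v (algebraMap L Ω (β e)) = v (algebraMap L Ω (α e))) (hne : α e ≠ 0) :
    ∃ (lam : Ω) (N s t : ℕ), lam ≠ 0 ∧ 0 < N ∧ lam ^ N ∈ Set.range (algebraMap L Ω) ∧ s < t ∧
      t ≤ e ∧ α s ≠ 0 ∧
      (∀ l ≤ e, v (algebraMap L Ω (α l)) * v lam ^ l ≤ v (algebraMap L Ω (α s)) * v lam ^ s) ∧
      (∀ l < s, v (algebraMap L Ω (α l)) * v lam ^ l < v (algebraMap L Ω (α s)) * v lam ^ s) ∧
      v (algebraMap L Ω (β t)) * v lam ^ t = v (algebraMap L Ω (α s)) * v lam ^ s ∧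
      ∀ l < t, v (algebraMap L Ω (β l)) * v lam ^ l < v (algebraMap L Ω (α s)) * v lam ^ s := by
  classical
  obtain ⟨a, ha⟩ : ∃ a : ℕ → Γ₀, ∀ l, v (algebraMap L Ω (α l)) = a l := ⟨_, fun _ => rfl⟩
  obtain ⟨b, hb⟩ : ∃ b : ℕ → Γ₀, ∀ l, v (algebraMap L Ω (β l)) = b l := ⟨_, fun _ => rfl⟩
  simp only [ha, hb] at h h0 he ⊢
  have hinj := (algebraMap L Ω).injective
  have hane : ∀ l, α l = 0 → a l = 0 := by
    intro l hl
    rw [← ha, hl, map_zero, map_zero]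
  have hae : a e ≠ 0 := by
    rw [← ha, Valuation.ne_zero_iff]
    exact fun h1 => hne (hinj (by rw [h1, map_zero]))
  have ha0 : a 0 ≠ 0 := fun h1 => by
    rw [h1] at h0
    exact absurd h0 not_lt_zero
  -- a dominant index exists
  have hex : ∃ t, b t = a t ∧ t ≤ e ∧ ∃ γ : Γ₀, γ ≠ 0 ∧ ∀ l ≤ e, a l * γ ^ l ≤ a t * γ ^ t := by
    obtain ⟨γ, hγ⟩ := Finset.exists_le (insert (1 : Γ₀) ((Finset.range e).image fun l => a l / a e))
    have h1 : 1 ≤ γ := hγ 1 (Finset.mem_insert_self _ _)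
    have h2 : γ ≠ 0 := fun h3 => by
      rw [h3] at h1
      exact absurd h1 (not_le.2 zero_lt_one)
    refine ⟨e, he, le_rfl, γ, h2, fun l hl => ?_⟩
    rcases hl.eq_or_lt with rfl | hl
    · exact le_rfl
    · have h3 : a l / a e ≤ γ := hγ _ (Finset.mem_insert_of_mem (Finset.mem_image.2
        ⟨l, Finset.mem_range.2 hl, rfl⟩))
      rw [div_le_iff₀ (zero_lt_iff.2 hae)] at h3
      calc a l * γ ^ l ≤ γ * a e * γ ^ l := mul_le_mul_left h3 _
        _ = a e * γ ^ (l + 1) := by rw [pow_succ]; ac_rfl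
        _ ≤ a e * γ ^ e := mul_le_mul_right (pow_le_pow_right₀ h1 hl) _
  obtain ⟨t, ⟨htb, hte, γ, hγ0, hγ⟩, hmin⟩ : ∃ t, (b t = a t ∧ t ≤ e ∧ ∃ γ : Γ₀, γ ≠ 0 ∧
      ∀ l ≤ e, a l * γ ^ l ≤ a t * γ ^ t) ∧ ∀ l < t, ¬ (b l = a l ∧ l ≤ e ∧ ∃ γ : Γ₀, γ ≠ 0 ∧
      ∀ l' ≤ e, a l' * γ ^ l' ≤ a l * γ ^ l) :=
    ⟨Nat.find hex, Nat.find_spec hex, fun l hl => Nat.find_min hex hl⟩
  have hat : a t ≠ 0 := by
    intro h1
    have h2 := hγ 0 (Nat.zero_le _)
    rw [h1, zero_mul, pow_zero, mul_one] at h2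
    exact ha0 (le_antisymm h2 zero_le)
  have ht0 : t ≠ 0 := by
    rintro rfl
    exact absurd htb h0.ne
  have hαt : α t ≠ 0 := fun h1 => hat (hane t h1)
  -- the radii
  have hlam : ∀ l, ∃ x : Ω, l < t → x ^ (t - l) = algebraMap L Ω (α l / α t) := by
    intro l
    by_cases hl : l < t
    · obtain ⟨x, hx⟩ := IsAlgClosed.exists_pow_nat_eq (algebraMap L Ω (α l / α t))
        (n := t - l) (by omega)
      exact ⟨x, fun _ => hx⟩
    · exact ⟨0, fun h1 => absurd h1 hl⟩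
  choose lam hlam using hlam
  have hval : ∀ l < t, a l = a t * v (lam l) ^ (t - l) := by
    intro l hl
    rw [← map_pow, hlam l hl, map_div₀, map_div₀, ha, ha, mul_div_cancel₀ _ hat]
  obtain ⟨l₁, hl₁, hmax⟩ := Finset.exists_max_image (Finset.range t) (fun l => v (lam l))
    ⟨0, Finset.mem_range.2 (Nat.pos_of_ne_zero ht0)⟩
  rw [Finset.mem_range] at hl₁
  obtain ⟨g, hg⟩ : ∃ g : Γ₀, v (lam l₁) = g := ⟨_, rfl⟩
  simp only [hg] at hmax
  have hgne : g ≠ 0 := by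
    intro h1
    have h2 := hmax 0 (Finset.mem_range.2 (Nat.pos_of_ne_zero ht0))
    rw [h1] at h2
    have h3 : v (lam 0) = 0 := le_antisymm h2 zero_le
    have h4 := hval 0 (Nat.pos_of_ne_zero ht0)
    rw [h3, Nat.sub_zero, zero_pow ht0, mul_zero] at h4
    exact ha0 h4
  have hgpos : 0 < g := zero_lt_iff.2 hgne
  have hlow : ∀ l < t, a l * g ^ l ≤ a t * g ^ t := by
    intro l hl
    have h1 : v (lam l) ≤ g := hmax l (Finset.mem_range.2 hl)
    calc a l * g ^ l = a t * v (lam l) ^ (t - l) * g ^ l := by rw [← hval l hl]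
      _ ≤ a t * g ^ (t - l) * g ^ l :=
          mul_le_mul_left (mul_le_mul_right (pow_le_pow_left₀ zero_le h1 _) _) _
      _ = a t * g ^ t := by rw [mul_assoc, ← pow_add, Nat.sub_add_cancel hl.le]
  have heq : a l₁ * g ^ l₁ = a t * g ^ t := by
    rw [hval l₁ hl₁, hg, mul_assoc, ← pow_add, Nat.sub_add_cancel hl₁.le]
  have hgγ : g ≤ γ := by
    have h1 := hγ l₁ (by omega)
    rw [hval l₁ hl₁, hg] at h1
    have h2 : g ^ (t - l₁) * γ ^ l₁ ≤ γ ^ (t - l₁) * γ ^ l₁ := by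
      rw [← pow_add, Nat.sub_add_cancel hl₁.le]
      rw [mul_assoc] at h1
      exact le_of_mul_le_mul_left h1 (zero_lt_iff.2 hat)
    have h3 : g ^ (t - l₁) ≤ γ ^ (t - l₁) :=
      le_of_mul_le_mul_right h2 (zero_lt_iff.2 (pow_ne_zero _ hγ0))
    exact (pow_le_pow_iff_left₀ zero_le zero_le (by omega)).1 h3
  have hdom : ∀ l ≤ e, a l * g ^ l ≤ a t * g ^ t := by
    intro l hl
    rcases lt_trichotomy l t with h1 | rfl | h1
    · exact hlow l h1
    · exact le_rfl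
    · have h2 := hγ l hl
      have h3 : a l * γ ^ (l - t) ≤ a t := by
        have h4 : a l * γ ^ (l - t) * γ ^ t ≤ a t * γ ^ t := by
          rw [mul_assoc, ← pow_add, Nat.sub_add_cancel h1.le]
          exact h2
        exact le_of_mul_le_mul_right h4 (zero_lt_iff.2 (pow_ne_zero _ hγ0))
      calc a l * g ^ l = a l * g ^ (l - t) * g ^ t := by
            rw [mul_assoc, ← pow_add, Nat.sub_add_cancel h1.le]
        _ ≤ a l * γ ^ (l - t) * g ^ t :=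
            mul_le_mul_left (mul_le_mul_right (pow_le_pow_left₀ zero_le hgγ _) _) _
        _ ≤ a t * g ^ t := mul_le_mul_left h3 _
  -- the smallest index with the maximal value
  have hexs : ∃ s, a s * g ^ s = a t * g ^ t := ⟨t, rfl⟩
  obtain ⟨s, hs, hsmin⟩ : ∃ s, a s * g ^ s = a t * g ^ t ∧ ∀ l < s, a l * g ^ l ≠ a t * g ^ t :=
    ⟨Nat.find hexs, Nat.find_spec hexs, fun l hl => Nat.find_min hexs hl⟩
  have hsl : s ≤ l₁ := by
    by_contra h1
    exact hsmin l₁ (not_le.1 h1) heq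
  have hm : a t * g ^ t ≠ 0 := mul_ne_zero hat (pow_ne_zero _ hgne)
  refine ⟨lam l₁, t - l₁, s, t, ?_, by omega, ⟨_, (hlam l₁ hl₁).symm⟩, by omega, hte, ?_, ?_, ?_,
    ?_, ?_⟩
  · intro h1
    rw [h1, map_zero] at hg
    exact hgne hg.symm
  · intro h1
    rw [hane s h1, zero_mul] at hs
    exact hm hs.symm
  · intro l hl
    rw [hg, hs]
    exact hdom l hl
  · intro l hl
    rw [hg, hs]
    exact lt_of_le_of_ne (hdom l (by omega)) (hsmin l hl)
  · rw [hg, hs, htb]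
  · intro l hl
    rw [hg, hs]
    rcases (hdom l (by omega)).lt_or_eq with h1 | h1
    · exact lt_of_le_of_lt (mul_le_mul_left (h l) _) h1
    · have h2 : b l ≠ a l := fun h3 => hmin l hl ⟨h3, by omega, g, hgne, fun l' hl' => by
        rw [h1]
        exact hdom l' hl'⟩
      rw [← h1]
      exact mul_lt_mul_of_pos_right (lt_of_le_of_ne (h l) h2) (zero_lt_iff.2 (pow_ne_zero _ hgne))

end Pool.Agent.GEL
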