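import Mathlib

/-!
# Choosing a totally ramified radical

PLAN. Let `m > 0` be the smallest natural number such that `v lam ^ m = v μ` for some `μ ∈ L`, `μ ≠ 0` (it exists: `N`;
`Nat.find`). Choose `lam' ∈ Ω` with `lam' ^ m = μ` (`IsAlgClosed.exists_pow_nat_eq`). Then `v lam' ^ m = v lam ^ m`, so
`v lam' = v lam` (`pow_left_injective`-like, linear order; `v lam ≠ 0`).
If `v (c * lam' ^ j) = 1`, then `c ≠ 0`; write `j = m q + r`, `0 ≤ r < m` (`Int.emod`). `v lam' ^ r = v (c⁻¹ μ^(-q))`, so `r = 0` by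
minimality, and `c lam'^j = c μ^q`.
-/

namespace Pool.Agent.GEL

theorem ramified {L Ω Γ₀ : Type*} [Field L] [Field Ω] [Algebra L Ω] [IsAlgClosed Ω]
    [LinearOrderedCommGroupWithZero Γ₀] (v : Valuation Ω Γ₀) (lam : Ω) (hlam : lam ≠ 0) (N : ℕ)
    (hN : 0 < N) (h : lam ^ N ∈ Set.range (algebraMap L Ω)) :
    ∃ lam' : Ω, lam' ≠ 0 ∧ v lam' = v lam ∧ ∀ (c : L) (j : ℤ),
      v (algebraMap L Ω c * lam' ^ j) = 1 →
        algebraMap L Ω c * lam' ^ j ∈ Set.range (algebraMap L Ω) := by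
  classical
  have hex : ∃ m : ℕ, 0 < m ∧ ∃ μ : L, μ ≠ 0 ∧ v lam ^ m = v (algebraMap L Ω μ) := by
    obtain ⟨μ, hμ⟩ := h
    refine ⟨N, hN, μ, ?_, ?_⟩
    · rintro rfl
      rw [map_zero] at hμ
      exact pow_ne_zero N hlam hμ.symm
    · rw [hμ, map_pow]
  obtain ⟨m, ⟨hm, μ, hμ, hv⟩, hmin⟩ : ∃ m : ℕ,
      (0 < m ∧ ∃ μ : L, μ ≠ 0 ∧ v lam ^ m = v (algebraMap L Ω μ)) ∧
      ∀ r : ℕ, r < m → ¬ (0 < r ∧ ∃ μ : L, μ ≠ 0 ∧ v lam ^ r = v (algebraMap L Ω μ)) :=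
    ⟨Nat.find hex, Nat.find_spec hex, fun r hr => Nat.find_min hex hr⟩
  obtain ⟨lam', hl⟩ := IsAlgClosed.exists_pow_nat_eq (algebraMap L Ω μ) hm
  have hμ0 : algebraMap L Ω μ ≠ 0 := (map_ne_zero _).2 hμ
  have hl0 : lam' ≠ 0 := by
    rintro rfl
    rw [zero_pow hm.ne'] at hl
    exact hμ0 hl.symm
  have hvl : v lam' = v lam := by
    have h1 : v lam' ^ m = v lam ^ m := by rw [← map_pow, hl, hv]
    exact (pow_left_inj₀ zero_le' zero_le' hm.ne').1 h1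
  refine ⟨lam', hl0, hvl, fun c j hc => ?_⟩
  have hc0 : c ≠ 0 := by
    rintro rfl
    rw [map_zero, zero_mul, map_zero] at hc
    exact zero_ne_one hc
  obtain ⟨q, r, hr, hj⟩ : ∃ (q : ℤ) (r : ℕ), r < m ∧ j = m * q + r := by
    refine ⟨j / m, (j % m).toNat, ?_, ?_⟩
    · have h2 := Int.emod_lt_of_pos j (show (0 : ℤ) < m by exact_mod_cast hm)
      omega
    · have h2 := Int.emod_nonneg j (show (m : ℤ) ≠ 0 by exact_mod_cast hm.ne')
      rw [Int.toNat_of_nonneg h2]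
      exact (Int.mul_ediv_add_emod j m).symm
  have hpow : lam' ^ j = algebraMap L Ω (μ ^ q) * lam' ^ r := by
    rw [hj, zpow_add₀ hl0, zpow_mul, zpow_natCast, hl, zpow_natCast, map_zpow₀]
  rcases Nat.eq_zero_or_pos r with rfl | hr0
  · refine ⟨c * μ ^ q, ?_⟩
    rw [map_mul, hpow, pow_zero, mul_one]
  · exfalso
    refine hmin r hr ⟨hr0, (c * μ ^ q)⁻¹, inv_ne_zero (mul_ne_zero hc0 (zpow_ne_zero _ hμ)), ?_⟩
    rw [hpow, ← mul_assoc, ← map_mul, map_mul v, map_pow, hvl] at hc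
    rw [map_inv₀, map_inv₀]
    exact eq_inv_of_mul_eq_one_right hc

end Pool.Agent.GEL
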