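import Pool.Agent.GEL.VNew
import Pool.Agent.GEL.VRam

/-!
# The first radius at which the reduction of a curve moves

`α l` is a coordinate of `A l` of maximal absolute value, `β l` a coordinate of maximal absolute value of
`A l j - x j * A l 0`; apply `newton` and `ramified`.
-/

namespace Pool.Agent.GEL

theorem select {L Ω : Type*} [Field L] [Field Ω] [Algebra L Ω] [IsAlgClosed Ω]
    (W : ValuationSubring Ω) {n e : ℕ} (A : ℕ → Fin (n + 1) → L) (x : Fin (n + 1) → L)
    (hx0 : x 0 = 1) (hx : ∀ i, algebraMap L Ω (x i) ∈ W)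
    (h0 : ∃ c : L, c ≠ 0 ∧ ∀ i, algebraMap L Ω (c * A 0 i - x i) ∈ W.nonunits)
    (he : ∃ i, A e i ≠ 0)
    (hne : ¬ ∃ c : L, c ≠ 0 ∧ ∀ i, algebraMap L Ω (c * A e i - x i) ∈ W.nonunits) :
    ∃ (lam : Ω) (c₀ : L) (s t : ℕ), lam ≠ 0 ∧ c₀ ≠ 0 ∧ s < t ∧ t ≤ e ∧
      (∀ l ≤ e, ∀ i, algebraMap L Ω (A l i) * lam ^ l / (algebraMap L Ω c₀ * lam ^ s) ∈ W) ∧
      (∀ l < s, ∀ i,
        algebraMap L Ω (A l i) * lam ^ l / (algebraMap L Ω c₀ * lam ^ s) ∈ W.nonunits) ∧
      (∃ i, algebraMap L Ω (A s i) * lam ^ s / (algebraMap L Ω c₀ * lam ^ s) ∉ W.nonunits) ∧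
      (∃ j, algebraMap L Ω (A t j - x j * A t 0) * lam ^ t / (algebraMap L Ω c₀ * lam ^ s) ∉
        W.nonunits) ∧
      (∀ l < t, ∀ j, algebraMap L Ω (A l j - x j * A l 0) * lam ^ l /
        (algebraMap L Ω c₀ * lam ^ s) ∈ W.nonunits) ∧
      ∀ (c : L) (j : ℤ), algebraMap L Ω c * lam ^ j ∈ W → algebraMap L Ω c * lam ^ j ∉ W.nonunits →
        algebraMap L Ω c * lam ^ j ∈ Set.range (algebraMap L Ω) := by
  classical
  obtain ⟨v, hv⟩ : ∃ v : Valuation Ω W.ValueGroup, v = W.valuation := ⟨_, rfl⟩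
  have hW : ∀ z : Ω, z ∈ W ↔ v z ≤ 1 := fun z => by
    rw [hv]; exact (W.valuation_le_one_iff z).symm
  have hN : ∀ z : Ω, z ∈ W.nonunits ↔ v z < 1 := fun z => by
    rw [hv]; exact Iff.rfl
  obtain ⟨a, ha⟩ : ∃ a : L →+* Ω, a = algebraMap L Ω := ⟨_, rfl⟩
  have hmaxA : ∀ l, ∃ i, ∀ i', v (a (A l i')) ≤ v (a (A l i)) := fun l =>
    Finite.exists_max fun i => v (a (A l i))
  choose iA hiA using hmaxA
  have hmaxB : ∀ l, ∃ j, ∀ j', v (a (A l j' - x j' * A l 0)) ≤ v (a (A l j - x j * A l 0)) :=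
    fun l => Finite.exists_max fun j => v (a (A l j - x j * A l 0))
  choose jB hjB using hmaxB
  have hx' : ∀ i, v (a (x i)) ≤ 1 := fun i => by
    rw [ha]; exact (hW _).1 (hx i)
  have hB : ∀ l j, v (a (A l j - x j * A l 0)) ≤ v (a (A l (iA l))) := by
    intro l j
    rw [map_sub, map_mul]
    refine (v.map_sub _ _).trans (max_le (hiA l j) ?_)
    rw [map_mul]
    calc v (a (x j)) * v (a (A l 0)) ≤ 1 * v (a (A l 0)) := by gcongr; exact hx' j
      _ = v (a (A l 0)) := one_mul _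
      _ ≤ _ := hiA l 0
  have h1 : v (a (A 0 (jB 0) - x (jB 0) * A 0 0)) < v (a (A 0 (iA 0))) := by
    obtain ⟨c, hc0, hc⟩ := h0
    have hc' : ∀ i, v (a (c * A 0 i - x i)) < 1 := fun i => by
      rw [ha]; exact (hN _).1 (hc i)
    have hvc : 0 < v (a c) := by
      rw [zero_lt_iff, ne_eq, map_eq_zero, map_eq_zero]
      exact hc0
    have k1 : v (a (c * A 0 0 - 1)) < 1 := by
      have := hc' 0
      rwa [hx0] at this
    have k2 : v (a (c * A 0 0)) = 1 := by
      have h3 : a (c * A 0 0) = 1 + a (c * A 0 0 - 1) := by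
        rw [map_sub a, map_one a]; ring
      rw [h3]
      exact v.map_one_add_of_lt k1
    have k3 : v (a (c * (A 0 (jB 0) - x (jB 0) * A 0 0))) < 1 := by
      have h3 : a (c * (A 0 (jB 0) - x (jB 0) * A 0 0)) =
          a (c * A 0 (jB 0) - x (jB 0)) - a (x (jB 0)) * a (c * A 0 0 - 1) := by
        rw [← map_mul, ← map_sub]
        congr 1
        ring
      rw [h3]
      refine lt_of_le_of_lt (v.map_sub _ _) (max_lt (hc' _) ?_)
      rw [map_mul]
      calc v (a (x (jB 0))) * v (a (c * A 0 0 - 1)) ≤ 1 * v (a (c * A 0 0 - 1)) := by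
            gcongr; exact hx' _
        _ = v (a (c * A 0 0 - 1)) := one_mul _
        _ < 1 := k1
    have k4 : 1 ≤ v (a (c * A 0 (iA 0))) := by
      rw [← k2, map_mul a, map_mul a, map_mul v, map_mul v]
      gcongr
      exact hiA 0 0
    have k5 : v (a c) * v (a (A 0 (jB 0) - x (jB 0) * A 0 0)) < v (a c) * v (a (A 0 (iA 0))) := by
      rw [← map_mul, ← map_mul, ← map_mul, ← map_mul]
      exact lt_of_lt_of_le k3 k4
    exact lt_of_mul_lt_mul_left' k5
  have hαe : a (A e (iA e)) ≠ 0 := by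
    obtain ⟨i, hi⟩ := he
    intro h
    have h3 := hiA e i
    rw [h, map_zero, le_zero_iff, map_eq_zero, map_eq_zero] at h3
    exact hi h3
  have h2 : v (a (A e (jB e) - x (jB e) * A e 0)) = v (a (A e (iA e))) := by
    by_contra hne2
    have hlt : v (a (A e (jB e) - x (jB e) * A e 0)) < v (a (A e (iA e))) :=
      lt_of_le_of_ne (hB e (jB e)) hne2
    have hltj : ∀ j, v (a (A e j - x j * A e 0)) < v (a (A e (iA e))) := fun j =>
      lt_of_le_of_lt (hjB e j) hlt
    have k0 : v (a (A e 0)) = v (a (A e (iA e))) := by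
      by_contra hne3
      have hlt3 : v (a (A e 0)) < v (a (A e (iA e))) := lt_of_le_of_ne (hiA e 0) hne3
      have h3 : a (A e (iA e)) = a (A e (iA e) - x (iA e) * A e 0) + a (x (iA e)) * a (A e 0) := by
        rw [← map_mul, ← map_add]
        congr 1
        ring
      have h4 : v (a (A e (iA e))) < v (a (A e (iA e))) := by
        conv_lhs => rw [h3]
        refine lt_of_le_of_lt (v.map_add _ _) (max_lt (hltj _) ?_)
        rw [map_mul]
        calc v (a (x (iA e))) * v (a (A e 0)) ≤ 1 * v (a (A e 0)) := by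
              gcongr; exact hx' _
          _ = v (a (A e 0)) := one_mul _
          _ < _ := hlt3
      exact lt_irrefl _ h4
    have k1 : A e 0 ≠ 0 := by
      intro h
      rw [h, map_zero, map_zero] at k0
      exact hαe ((map_eq_zero v).1 k0.symm)
    refine hne ⟨(A e 0)⁻¹, inv_ne_zero k1, fun i => ?_⟩
    rw [hN]
    have h3 : (A e 0)⁻¹ * A e i - x i = (A e 0)⁻¹ * (A e i - x i * A e 0) := by
      field_simp
    rw [h3, ← ha, map_mul, map_mul, map_inv₀, map_inv₀, k0]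
    have h5 : 0 < v (a (A e (iA e))) := by
      rw [zero_lt_iff, ne_eq, map_eq_zero]
      exact hαe
    rw [inv_mul_lt_iff₀ h5, mul_one]
    exact hltj i
  have hne' : A e (iA e) ≠ 0 := fun h => hαe (by rw [h, map_zero])
  obtain ⟨lam, N, s, t, hlam, hN0, hlamN, hst, hte, hαs, n1, n2, n3, n4⟩ :=
    newton v (fun l => A l (iA l)) (fun l => A l (jB l) - x (jB l) * A l 0) e
      (fun l => by rw [← ha]; exact hB l (jB l)) (by rw [← ha]; exact h1)
      (by rw [← ha]; exact h2) hne'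
  obtain ⟨lam', hlam', hvlam, hram⟩ := ramified v lam hlam N hN0 hlamN
  rw [← ha] at n1 n2 n3 n4 hram
  have hdpos : 0 < v (a (A s (iA s)) * lam' ^ s) := by
    rw [zero_lt_iff, ne_eq, map_eq_zero]
    exact mul_ne_zero (fun h => hαs ((map_eq_zero a).1 h)) (pow_ne_zero _ hlam')
  have hd : v (a (A s (iA s)) * lam' ^ s) = v (a (A s (iA s))) * v lam ^ s := by
    rw [map_mul, map_pow, hvlam]
  rw [← ha]
  refine ⟨lam', A s (iA s), s, t, hlam', hαs, hst, hte, ?_, ?_, ?_, ?_, ?_, ?_⟩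
  · intro l hl i
    rw [hW, map_div₀, div_le_one₀ hdpos, hd, map_mul, map_pow, hvlam]
    refine le_trans ?_ (n1 l hl)
    gcongr
    exact hiA l i
  · intro l hl i
    rw [hN, map_div₀, div_lt_one₀ hdpos, hd, map_mul, map_pow, hvlam]
    refine lt_of_le_of_lt ?_ (n2 l hl)
    gcongr
    exact hiA l i
  · refine ⟨iA s, ?_⟩
    rw [hN, map_div₀, div_self hdpos.ne']
    exact lt_irrefl _
  · refine ⟨jB t, ?_⟩
    rw [hN, map_div₀, div_lt_one₀ hdpos, hd, map_mul, map_pow, hvlam, n3]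
    exact lt_irrefl _
  · intro l hl j
    rw [hN, map_div₀, div_lt_one₀ hdpos, hd, map_mul, map_pow, hvlam]
    refine lt_of_le_of_lt ?_ (n4 l hl)
    gcongr
    exact hjB l j
  · intro c j hc hc'
    refine hram c j ?_
    rw [hW] at hc
    rw [hN, not_lt] at hc'
    exact le_antisymm hc hc'


end Pool.Agent.GEL
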